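import Pool.Agent.H89.R18.Sto

/-!
# Configurations with vertical walls
-/

set_option autoImplicit false

open Complex Topology Filter InnerProductSpace
open scoped OnePoint

namespace Pool.Agent.H89.R18

open Pool.Agent.H86.IR

/-- the pieces between the walls `w 1 < … < w (n - 1)` -/
def gS (n : ℕ) (w : ℕ → ℝ) (k : ℕ) : Set ℂ :=
  {z | (0 < k → w k < z.re) ∧ (k + 1 < n → z.re < w (k + 1))}

/-- the radii -/
noncomputable def gR (n : ℕ) (w x : ℕ → ℝ) (k : ℕ) : ℝ :=
  if k = 0 then 2 * (w 1 - x 0) else if k + 1 = n then 2 * (x k - w k) else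
    2 * (w (k + 1) - w k) / Real.pi * Real.sin (Real.pi * (x k - w k) / (w (k + 1) - w k))

theorem gS_open (n : ℕ) (w : ℕ → ℝ) (k : ℕ) : IsOpen (gS n w k) := by
  have e : gS n w k = {z : ℂ | 0 < k → w k < z.re} ∩ {z : ℂ | k + 1 < n → z.re < w (k + 1)} := rfl
  rw [e]
  refine IsOpen.inter ?_ ?_
  · by_cases h : 0 < k
    · simp only [h, true_imp_iff]
      exact isOpen_lt continuous_const Complex.continuous_re
    · simp [h]
  · by_cases h : k + 1 < n
    · simp only [h, true_imp_iff]
      exact isOpen_lt Complex.continuous_re continuous_const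
    · simp [h]

theorem gS_convex (n : ℕ) (w : ℕ → ℝ) (k : ℕ) : Convex ℝ (gS n w k) := by
  have e : gS n w k = {z : ℂ | 0 < k → w k < z.re} ∩ {z : ℂ | k + 1 < n → z.re < w (k + 1)} := rfl
  rw [e]
  refine Convex.inter ?_ ?_
  · by_cases h : 0 < k
    · simp only [h, true_imp_iff]
      exact convex_halfSpace_re_gt _
    · simp [h, convex_univ]
  · by_cases h : k + 1 < n
    · simp only [h, true_imp_iff]
      exact convex_halfSpace_re_lt _
    · simp [h, convex_univ]

/-- the walls separate the poles -/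
structure Walls (n : ℕ) (w x : ℕ → ℝ) : Prop where
  left : ∀ k, 0 < k → k < n → w k < x k
  right : ∀ k, k + 1 < n → x k < w (k + 1)

theorem Walls.mono {n : ℕ} {w x : ℕ → ℝ} (h : Walls n w x) {i j : ℕ} (hi : 0 < i) (hij : i ≤ j)
    (hj : j < n) : w i ≤ w j := by
  induction j, hij using Nat.le_induction with
  | base => exact le_rfl
  | succ j hij ih =>
    have h1 := ih (by omega)
    have h2 := h.left j (by omega) (by omega)
    have h3 := h.right j hj
    linarith

theorem gS_mem {n : ℕ} {w x : ℕ → ℝ} (h : Walls n w x) {k : ℕ} (hk : k < n) :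
    ((x k : ℝ) : ℂ) ∈ gS n w k := by
  constructor
  · intro h0
    rw [Complex.ofReal_re]
    exact h.left k h0 hk
  · intro h1
    rw [Complex.ofReal_re]
    exact h.right k h1

theorem gS_ir (hMKG : T_MKG) (hHPL : T_HPL) {n : ℕ} {w x : ℕ → ℝ} (hn : 2 ≤ n)
    (h : Walls n w x) {k : ℕ} (hk : k < n) :
    HasIR (fin (gS n w k)) ((x k : ℝ) : ℂ) (gR n w x k) := by
  by_cases h0 : k = 0
  · subst h0
    have e : gS n w 0 = {z : ℂ | z.re < w 1} := by
      ext z
      simp only [gS, Set.mem_ofPred_eq, lt_irrefl, false_imp_iff, true_and, zero_add]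
      constructor
      · intro h
        exact h (by omega)
      · intro h _
        exact h
    rw [e]
    unfold gR
    rw [if_pos rfl]
    exact (hHPL (x 0) (w 1)).1 (h.right 0 (by omega))
  · by_cases h1 : k + 1 = n
    · have e : gS n w k = {z : ℂ | w k < z.re} := by
        ext z
        simp only [gS, Set.mem_ofPred_eq, h1, lt_irrefl, false_imp_iff, and_true]
        constructor
        · intro h
          exact h (by omega)
        · intro h _
          exact h
      rw [e]
      unfold gR
      rw [if_neg h0, if_pos h1]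
      exact (hHPL (x k) (w k)).2 (h.left k (by omega) hk)
    · have e : gS n w k = {z : ℂ | w k < z.re ∧ z.re < w (k + 1)} := by
        ext z
        simp only [gS, Set.mem_ofPred_eq]
        constructor
        · rintro ⟨h2, h3⟩
          exact ⟨h2 (by omega), h3 (by omega)⟩
        · rintro ⟨h2, h3⟩
          exact ⟨fun _ => h2, fun _ => h3⟩
      rw [e]
      unfold gR
      rw [if_neg h0, if_neg h1]
      exact sto hMKG (h.left k (by omega) hk) (h.right k (by omega))

theorem gS_adm {n : ℕ} {w x : ℕ → ℝ} (h : Walls n w x) (hseg : ∀ k < n, |x k| ≤ 1) :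
    Adm n (fun k => fin (gS n w k)) (fun k => ((x k : ℝ) : ℂ)) := by
  refine ⟨fun k => ⟨?_, ?_⟩, ?_, fun k => ?_, fun k => ?_⟩
  · exact OnePoint.isOpenEmbedding_coe.isOpenMap _ (gS_open n w k)
  · refine ⟨⟨_, ((x k : ℝ) : ℂ), gS_mem h k.2, rfl⟩, ?_⟩
    exact (gS_convex n w k).isPreconnected.image _ OnePoint.continuous_coe.continuousOn
  · have key : ∀ j k : Fin n, (j : ℕ) < k → Disjoint (fin (gS n w j)) (fin (gS n w k)) := by
      intro j k hjk
      rw [Set.disjoint_left]
      rintro _ ⟨z, hz, rfl⟩ ⟨v, hv, hzv⟩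
      have : v = z := OnePoint.coe_injective hzv
      subst this
      have h1 := hz.2 (by omega)
      have h2 := hv.1 (by omega)
      have h3 := h.mono (i := (j : ℕ) + 1) (j := k) (by omega) (by omega) k.2
      linarith
    intro j k hjk
    rcases lt_or_gt_of_ne (fun h => hjk (Fin.ext h) : (j : ℕ) ≠ k) with h | h
    · exact key j k h
    · exact (key k j h).symm
  · exact ⟨_, gS_mem h k.2, rfl⟩
  · refine ⟨Complex.ofReal_im _, ?_⟩
    rw [Complex.ofReal_re]
    exact hseg k k.2

end Pool.Agent.H89.R18
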