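import Pool.Agent.H89.R18.Tilt
import Pool.Agent.H86.IR.All

/-!
# The inner radius of a domain between two lines
-/

set_option autoImplicit false

open Complex Topology Filter InnerProductSpace
open scoped OnePoint

namespace Pool.Agent.H89.R18

open Pool.Agent.H86.IR Pool.Agent.H21.IR

/-- `sin (π u) ≤ 4 u (1 - u)` -/
theorem sin_pi_le {u : ℝ} (h0 : 0 ≤ u) (h1 : u ≤ 1) : Real.sin (Real.pi * u) ≤ 4 * u * (1 - u) := by
  have key : ∀ y : ℝ, 0 ≤ y → y ≤ 1 → Real.cos (Real.pi * y / 2) ≤ 1 - y ^ 2 := by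
    intro y hy0 hy1
    have hpi := Real.pi_pos
    have h2 := (strictConcaveOn_sin_Icc.concaveOn).2 (x := Real.pi / 4) (y := 0)
      ⟨by positivity, by linarith⟩ ⟨le_rfl, hpi.le⟩ hy0 (by linarith : 0 ≤ 1 - y) (by ring)
    simp only [smul_eq_mul, Real.sin_zero, mul_zero, add_zero, Real.sin_pi_div_four] at h2
    have h3 : Real.cos (Real.pi * y / 2) = 1 - 2 * Real.sin (y * (Real.pi / 4)) ^ 2 := by
      rw [show Real.pi * y / 2 = 2 * (y * (Real.pi / 4)) by ring, Real.cos_two_mul]
      have := Real.sin_sq_add_cos_sq (y * (Real.pi / 4))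
      linarith
    have h4 : y ^ 2 ≤ 2 * Real.sin (y * (Real.pi / 4)) ^ 2 := by
      have h5 : (y * (Real.sqrt 2 / 2)) ^ 2 ≤ Real.sin (y * (Real.pi / 4)) ^ 2 :=
        pow_le_pow_left₀ (by positivity) h2 2
      have h6 : Real.sqrt 2 ^ 2 = 2 := Real.sq_sqrt (by norm_num)
      nlinarith
    linarith
  have e : 4 * u * (1 - u) = 1 - |1 - 2 * u| ^ 2 := by
    rw [sq_abs]
    ring
  have e2 : Real.sin (Real.pi * u) = Real.cos (Real.pi * |1 - 2 * u| / 2) := by
    rw [← Real.cos_abs (Real.pi * |1 - 2 * u| / 2), abs_div, abs_mul, abs_abs, ← abs_mul, ← abs_div,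
      Real.cos_abs, ← Real.cos_pi_div_two_sub]
    congr 1
    ring
  rw [e, e2]
  exact key _ (abs_nonneg _) (abs_le.2 ⟨by linarith, by linarith⟩)

theorem half_sin {x : ℝ} (h0 : 0 ≤ x) (h1 : x < Real.pi) : x * Real.cos (x / 2) ^ 2 ≤ Real.sin x := by
  have h2 : Real.sin x = 2 * Real.sin (x / 2) * Real.cos (x / 2) := by
    rw [← Real.sin_two_mul]
    congr 1
    ring
  have hc : 0 < Real.cos (x / 2) := Real.cos_pos_of_mem_Ioo ⟨by linarith [Real.pi_pos], by linarith⟩
  have h3 : x / 2 * Real.cos (x / 2) ≤ Real.sin (x / 2) := by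
    rcases h0.eq_or_lt with h | h
    · rw [← h]
      simp
    · have h4 := (Real.lt_tan (x := x / 2) (by linarith) (by linarith)).le
      rw [Real.tan_eq_sin_div_cos, le_div_iff₀ hc] at h4
      exact h4
  rw [h2]
  nlinarith

theorem trig {α β θ : ℝ} (hβ : -(Real.pi / 2) < β) (h1 : β < θ) (h2 : θ < α) (hα : α < Real.pi / 2) :
    (α - β) * Real.sin (Real.pi * (α - θ) / (α - β)) ≤
      Real.cos θ * (Real.tan α - Real.tan β) := by
  have hpi := Real.pi_pos
  have cα : 0 < Real.cos α := Real.cos_pos_of_mem_Ioo ⟨by linarith, hα⟩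
  have cβ : 0 < Real.cos β := Real.cos_pos_of_mem_Ioo ⟨hβ, by linarith⟩
  have cθ : 0 < Real.cos θ := Real.cos_pos_of_mem_Ioo ⟨by linarith, by linarith⟩
  set s := α - θ with hs
  set t := θ - β with ht
  have hs0 : 0 < s := by rw [hs]; linarith
  have ht0 : 0 < t := by rw [ht]; linarith
  have hst : α - β = s + t := by rw [hs, ht]; ring
  have hst2 : s + t < Real.pi := by rw [← hst]; linarith
  have hR : Real.cos θ * (Real.tan α - Real.tan β) =
      Real.sin s / Real.cos α + Real.sin t / Real.cos β := by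
    rw [hs, ht, Real.sin_sub, Real.sin_sub, Real.tan_eq_sin_div_cos, Real.tan_eq_sin_div_cos]
    field_simp
    ring
  have ss : 0 < Real.sin s := Real.sin_pos_of_pos_of_lt_pi hs0 (by linarith)
  have st : 0 < Real.sin t := Real.sin_pos_of_pos_of_lt_pi ht0 (by linarith)
  rw [hR, hst]
  -- left hand side
  have hL : (s + t) * Real.sin (Real.pi * s / (s + t)) ≤ 4 * s * t / (s + t) := by
    have h3 := sin_pi_le (u := s / (s + t)) (by positivity) (by
      rw [div_le_one (by positivity)]
      linarith)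
    rw [← mul_div_assoc] at h3
    calc (s + t) * Real.sin (Real.pi * s / (s + t)) ≤
        (s + t) * (4 * (s / (s + t)) * (1 - s / (s + t))) :=
          mul_le_mul_of_nonneg_left h3 (by positivity)
      _ = 4 * s * t / (s + t) := by
          field_simp
          ring
  refine hL.trans ?_
  -- the squares
  have hX : 0 ≤ Real.sin s / Real.cos α + Real.sin t / Real.cos β := by positivity
  apply le_of_sq_le_sq _ hX
  have k1 : 4 * (Real.sin s / Real.cos α) * (Real.sin t / Real.cos β) ≤
      (Real.sin s / Real.cos α + Real.sin t / Real.cos β) ^ 2 := by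
    nlinarith [sq_nonneg (Real.sin s / Real.cos α - Real.sin t / Real.cos β)]
  refine le_trans ?_ k1
  have k2 : Real.cos α * Real.cos β ≤ (Real.cos (s / 2) * Real.cos (t / 2)) ^ 2 := by
    have c1 : Real.cos ((s + t) / 2) = Real.cos (s / 2) * Real.cos (t / 2) -
        Real.sin (s / 2) * Real.sin (t / 2) := by
      rw [add_div, Real.cos_add]
    have c2 : 0 ≤ Real.sin (s / 2) * Real.sin (t / 2) :=
      mul_nonneg (Real.sin_nonneg_of_nonneg_of_le_pi (by linarith) (by linarith))
        (Real.sin_nonneg_of_nonneg_of_le_pi (by linarith) (by linarith))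
    have c3 : 0 < Real.cos ((s + t) / 2) :=
      Real.cos_pos_of_mem_Ioo ⟨by linarith, by linarith⟩
    have c4 : Real.cos ((s + t) / 2) ^ 2 ≤ (Real.cos (s / 2) * Real.cos (t / 2)) ^ 2 :=
      pow_le_pow_left₀ c3.le (by linarith) 2
    refine le_trans ?_ c4
    have c5 : Real.cos (s + t) = 2 * Real.cos ((s + t) / 2) ^ 2 - 1 := by
      rw [← Real.cos_two_mul]
      congr 1
      ring
    have c6 : Real.cos (α - β) = Real.cos α * Real.cos β + Real.sin α * Real.sin β :=
      Real.cos_sub α β
    have c7 : Real.cos (α + β) = Real.cos α * Real.cos β - Real.sin α * Real.sin β :=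
      Real.cos_add α β
    have c8 := Real.cos_le_one (α + β)
    rw [hst] at c6
    nlinarith
  have k3 := half_sin hs0.le (by linarith)
  have k4 := half_sin ht0.le (by linarith)
  have k5 : s * t * (Real.cos (s / 2) * Real.cos (t / 2)) ^ 2 ≤ Real.sin s * Real.sin t := by
    calc s * t * (Real.cos (s / 2) * Real.cos (t / 2)) ^ 2 =
        (s * Real.cos (s / 2) ^ 2) * (t * Real.cos (t / 2) ^ 2) := by ring
      _ ≤ Real.sin s * Real.sin t := mul_le_mul k3 k4 (by positivity) ss.le
  have k6 : s * t * (Real.cos α * Real.cos β) ≤ Real.sin s * Real.sin t :=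
    (mul_le_mul_of_nonneg_left k2 (by positivity)).trans k5
  have k7 : 4 * (s * t) ≤ 4 * (Real.sin s / Real.cos α) * (Real.sin t / Real.cos β) := by
    have : 4 * (Real.sin s / Real.cos α) * (Real.sin t / Real.cos β) =
        4 * (Real.sin s * Real.sin t / (Real.cos α * Real.cos β)) := by
      field_simp
    rw [this]
    apply mul_le_mul_of_nonneg_left _ (by norm_num)
    rw [le_div_iff₀ (by positivity)]
    exact k6
  refine le_trans ?_ k7
  rw [div_pow, div_le_iff₀ (by positivity)]
  have k8 : 4 * (s * t) ≤ (s + t) ^ 2 := by nlinarith [sq_nonneg (s - t)]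
  have k9 : 0 ≤ s * t := by positivity
  nlinarith

/-- the argument -/
theorem arg_frac {Y s μ : ℝ} (hY : 0 < Y) :
    arg (((Y : ℝ) : ℂ) * (((s : ℝ) : ℂ) + I) / (((μ : ℝ) : ℂ) + I)) =
      Real.arctan μ - Real.arctan s := by
  have hpi := Real.pi_pos
  set σ := Real.arctan s with hσ
  set θ := Real.arctan μ with hθ
  have s1 := Real.neg_pi_div_two_lt_arctan s
  have s2 := Real.arctan_lt_pi_div_two s
  have t1 := Real.neg_pi_div_two_lt_arctan μ
  have t2 := Real.arctan_lt_pi_div_two μ
  have cσ : 0 < Real.cos σ := Real.cos_arctan_pos s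
  have cθ : 0 < Real.cos θ := Real.cos_arctan_pos μ
  have es : s = Real.sin σ / Real.cos σ := by
    rw [← Real.tan_eq_sin_div_cos, hσ, Real.tan_arctan]
  have em : μ = Real.sin θ / Real.cos θ := by
    rw [← Real.tan_eq_sin_div_cos, hθ, Real.tan_arctan]
  have hμ : ((μ : ℝ) : ℂ) + I ≠ 0 := by
    intro h
    have := congrArg Complex.im h
    simp at this
  have key : ((Y : ℝ) : ℂ) * (((s : ℝ) : ℂ) + I) / (((μ : ℝ) : ℂ) + I) =
      ((Y * Real.cos θ / Real.cos σ : ℝ) : ℂ) *
        (Complex.cos ((θ - σ : ℝ) : ℂ) + Complex.sin ((θ - σ : ℝ) : ℂ) * I) := by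
    rw [div_eq_iff hμ, ← Complex.ofReal_cos, ← Complex.ofReal_sin]
    have c1 : Real.cos σ = Real.cos (θ - σ) * Real.cos θ + Real.sin (θ - σ) * Real.sin θ := by
      rw [← Real.cos_sub, show θ - σ - θ = -σ by ring, Real.cos_neg]
    have c2 : Real.sin σ = Real.cos (θ - σ) * Real.sin θ - Real.sin (θ - σ) * Real.cos θ := by
      have : Real.sin (θ - (θ - σ)) = Real.sin θ * Real.cos (θ - σ) -
        Real.cos θ * Real.sin (θ - σ) := Real.sin_sub _ _
      rw [sub_sub_cancel] at this
      linarith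
    have e1 : Y * s = Y * Real.cos θ / Real.cos σ *
        (Real.cos (θ - σ) * μ - Real.sin (θ - σ)) := by
      rw [es, em, c2]
      field_simp
    have e2 : Y = Y * Real.cos θ / Real.cos σ *
        (Real.cos (θ - σ) + Real.sin (θ - σ) * μ) := by
      rw [em]
      field_simp
      linear_combination c1
    apply Complex.ext
    · simp only [Complex.mul_re, Complex.add_re, Complex.ofReal_re, Complex.I_re, Complex.ofReal_im,
        Complex.mul_im, Complex.add_im, Complex.I_im]
      linear_combination e1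
    · simp only [Complex.mul_re, Complex.add_re, Complex.ofReal_re, Complex.I_re, Complex.ofReal_im,
        Complex.mul_im, Complex.add_im, Complex.I_im]
      linear_combination e2
  rw [key]
  exact Complex.arg_mul_cos_add_sin_mul_I (by positivity) ⟨by linarith, by linarith⟩

/-- monotonicity -/
theorem mono_ir {W : Set ℂ} {a : ℂ} {R : ℝ} (hWo : IsOpen W) (hWc : IsConnected W) (haW : a ∈ W)
    (hR : HasIR (fin W) a R) {B : Set (OnePoint ℂ)} (hBo : IsOpen B) (hBc : IsConnected B)
    (haB : (a : OnePoint ℂ) ∈ B) (hsub : B ⊆ fin W) {ρ : ℝ} (hρ : HasIR B a ρ) : ρ ≤ R := by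
  have h1 : IsOpen (fin W) := OnePoint.isOpenEmbedding_coe.isOpenMap _ hWo
  have h2 : IsConnected (fin W) := hWc.image _ OnePoint.continuous_coe.continuousOn
  have h3 : (frontier (fin W)).Nonempty := by
    rw [Set.nonempty_iff_ne_empty]
    intro h
    rcases frontier_eq_empty_iff.1 h with h4 | h4
    · have : (a : OnePoint ℂ) ∈ fin W := ⟨a, haW, rfl⟩
      rw [h4] at this
      exact this
    · have : (∞ : OnePoint ℂ) ∈ fin W := by
        rw [h4]
        exact Set.mem_univ _
      obtain ⟨z, _, hz⟩ := this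
      exact OnePoint.coe_ne_infty z hz
  have h4 := All.gir (fin W) a R h1 h2 ⟨a, haW, rfl⟩ h3 hR
  exact h4.1 ⟨B, hsub, hBo, hBc, haB, hρ⟩

theorem wd_eq {p a : ℂ} (hpa : a ≠ p) {t1 t2 : ℝ} (h1 : t1 < Real.pi) (h2 : t2 < Real.pi) :
    wd p a t1 t2 = (fun w : ℂ => p + (a - p) * Complex.exp (I * w)) ''
      {w : ℂ | -t1 < w.re ∧ w.re < t2} := by
  have hap : a - p ≠ 0 := sub_ne_zero.2 hpa
  ext z
  constructor
  · intro hz
    refine ⟨ul p a z, ?_, ?_⟩
    · show -t1 < (ul p a z).re ∧ (ul p a z).re < t2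
      rw [ul_re]
      exact hz.2
    · show p + (a - p) * Complex.exp (I * ul p a z) = z
      unfold ul
      rw [show I * (-I * log ((z - p) / (a - p))) = log ((z - p) / (a - p)) by
        rw [← mul_assoc, mul_neg, I_mul_I, neg_neg, one_mul],
        Complex.exp_log (div_ne_zero (sub_ne_zero.2 hz.1) hap), mul_div_cancel₀ _ hap]
      ring
  · rintro ⟨w, hw, rfl⟩
    have hw1 : -t1 < w.re := hw.1
    have hw2 : w.re < t2 := hw.2
    have e : (p + (a - p) * Complex.exp (I * w) - p) / (a - p) = Complex.exp (I * w) := by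
      rw [add_sub_cancel_left, mul_div_cancel_left₀ _ hap]
    have e2 : arg (Complex.exp (I * w)) = w.re := by
      rw [← Complex.log_im, Complex.log_exp]
      · simp
      · simp only [Complex.mul_im, Complex.I_re, Complex.I_im, zero_mul, one_mul, zero_add]
        linarith
      · simp only [Complex.mul_im, Complex.I_re, Complex.I_im, zero_mul, one_mul, zero_add]
        linarith
    refine ⟨?_, ?_, ?_⟩
    · intro h
      have h3 : (a - p) * Complex.exp (I * w) = 0 := by
        have h4 : p + (a - p) * Complex.exp (I * w) = p := h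
        linear_combination h4
      rcases mul_eq_zero.1 h3 with h | h
      · exact hap h
      · exact Complex.exp_ne_zero _ h
    · show -t1 < arg ((p + (a - p) * Complex.exp (I * w) - p) / (a - p))
      rw [e, e2]
      exact hw1
    · show arg ((p + (a - p) * Complex.exp (I * w) - p) / (a - p)) < t2
      rw [e, e2]
      exact hw2

theorem wd_open {p a : ℂ} (hpa : a ≠ p) {t1 t2 : ℝ} (_h1 : t1 < Real.pi) (h2 : t2 < Real.pi) :
    IsOpen (wd p a t1 t2) := by
  have hap : a - p ≠ 0 := sub_ne_zero.2 hpa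
  rw [isOpen_iff_mem_nhds]
  intro z hz
  have hZ : (z - p) / (a - p) ≠ 0 := div_ne_zero (sub_ne_zero.2 hz.1) hap
  have hs : (z - p) / (a - p) ∈ slitPlane := by
    rw [mem_slitPlane_iff_arg]
    exact ⟨fun h => by linarith [hz.2.2], hZ⟩
  have hZc : ContinuousAt (fun z : ℂ => (z - p) / (a - p)) z := by fun_prop
  have hc : ContinuousAt (fun z : ℂ => arg ((z - p) / (a - p))) z :=
    ContinuousAt.comp (g := arg) (f := fun z : ℂ => (z - p) / (a - p)) (x := z)
      (continuousAt_arg hs) hZc
  have e1 : ∀ᶠ w in 𝓝 z, w ≠ p := eventually_ne_nhds hz.1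
  have e2 : ∀ᶠ w in 𝓝 z, -t1 < arg ((w - p) / (a - p)) := hc.eventually_const_lt hz.2.1
  have e3 : ∀ᶠ w in 𝓝 z, arg ((w - p) / (a - p)) < t2 := hc.eventually_lt_const hz.2.2
  filter_upwards [e1, e2, e3] with w f1 f2 f3
  exact ⟨f1, f2, f3⟩

theorem strip_convex (c d m1 m2 : ℝ) :
    Convex ℝ {z : ℂ | c < z.re - m1 * z.im ∧ z.re - m2 * z.im < d} := by
  intro z hz w hw s t hs ht hst
  have h1 : c < z.re - m1 * z.im := hz.1
  have h2 : z.re - m2 * z.im < d := hz.2
  have h3 : c < w.re - m1 * w.im := hw.1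
  have h4 : w.re - m2 * w.im < d := hw.2
  have e1 : (s • z + t • w).re = s * z.re + t * w.re := by simp
  have e2 : (s • z + t • w).im = s * z.im + t * w.im := by simp
  constructor
  · rw [e1, e2]
    have : c = s * c + t * c := by rw [← add_mul, hst, one_mul]
    rcases hs.eq_or_lt with h | h
    · rw [← h] at hst ⊢
      rw [zero_add] at hst
      rw [hst]
      linarith
    · nlinarith [mul_lt_mul_of_pos_left h1 h, mul_le_mul_of_nonneg_left h3.le ht]
  · rw [e1, e2]
    have : d = s * d + t * d := by rw [← add_mul, hst, one_mul]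
    rcases hs.eq_or_lt with h | h
    · rw [← h] at hst ⊢
      rw [zero_add] at hst
      rw [hst]
      linarith
    · nlinarith [mul_lt_mul_of_pos_left h2 h, mul_le_mul_of_nonneg_left h4.le ht]

/-- the bound in a wedge -/
theorem wedge_bound {p : ℂ} {a h lo μ hi : ℝ} (hh : h ≠ 0) (h1 : lo < μ) (h2 : μ < hi)
    (hp : ((a : ℝ) : ℂ) - p = -((h : ℝ) : ℂ) * (((μ : ℝ) : ℂ) + I))
    {B : Set (OnePoint ℂ)} (hBo : IsOpen B) (hBc : IsConnected B)
    (haB : ((((a : ℝ) : ℂ)) : OnePoint ℂ) ∈ B)
    (hsub : ∀ q ∈ B, ∃ z : ℂ, q = (z : OnePoint ℂ) ∧ ∃ Y s : ℝ, 0 < Y ∧ lo < s ∧ s < hi ∧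
      z - p = -((h : ℝ) : ℂ) * (((Y : ℝ) : ℂ) * (((s : ℝ) : ℂ) + I)))
    {ρ : ℝ} (hρ : HasIR B ((a : ℝ) : ℂ) ρ) : ρ ≤ 2 * (|h| * (hi - lo)) / Real.pi := by
  have hpi := Real.pi_pos
  have hμ : ((μ : ℝ) : ℂ) + I ≠ 0 := by
    intro h
    have := congrArg Complex.im h
    simp at this
  have hh' : -((h : ℝ) : ℂ) ≠ 0 := neg_ne_zero.2 (Complex.ofReal_ne_zero.2 hh)
  have hap : ((a : ℝ) : ℂ) - p ≠ 0 := by
    rw [hp]
    exact mul_ne_zero hh' hμ
  have hpa : ((a : ℝ) : ℂ) ≠ p := sub_ne_zero.1 hap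
  set α := Real.arctan hi with hα
  set β := Real.arctan lo with hβ
  set θ := Real.arctan μ with hθ
  have a1 : β < θ := Real.arctan_strictMono h1
  have a2 : θ < α := Real.arctan_strictMono h2
  have a3 : -(Real.pi / 2) < β := Real.neg_pi_div_two_lt_arctan lo
  have a4 : α < Real.pi / 2 := Real.arctan_lt_pi_div_two hi
  have cθ : 0 < Real.cos θ := Real.cos_arctan_pos μ
  have hW := wedge Pool.Agent.H59.IR.mkg Pool.Agent.H31.IR.mh hpa (t1 := α - θ) (t2 := θ - β)
    (by linarith) (by linarith) (by linarith)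
  have hsub' : B ⊆ fin (wd p ((a : ℝ) : ℂ) (α - θ) (θ - β)) := by
    intro q hq
    obtain ⟨z, rfl, Y, s, hY, hs1, hs2, hz⟩ := hsub q hq
    refine ⟨z, ?_, rfl⟩
    have e : (z - p) / (((a : ℝ) : ℂ) - p) =
        ((Y : ℝ) : ℂ) * (((s : ℝ) : ℂ) + I) / (((μ : ℝ) : ℂ) + I) := by
      rw [hz, hp, mul_div_mul_left _ _ hh']
    have hsI : ((s : ℝ) : ℂ) + I ≠ 0 := by
      intro h
      have := congrArg Complex.im h
      simp at this
    refine ⟨?_, ?_, ?_⟩
    · intro h
      rw [h, sub_self] at hz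
      exact mul_ne_zero hh' (mul_ne_zero (Complex.ofReal_ne_zero.2 hY.ne') hsI) hz.symm
    · rw [e, arg_frac hY]
      have := Real.arctan_strictMono hs2
      linarith
    · rw [e, arg_frac hY]
      have := Real.arctan_strictMono hs1
      linarith
  have hconv : IsConnected {w : ℂ | -(α - θ) < w.re ∧ w.re < θ - β} := by
    have hc : Convex ℝ {w : ℂ | -(α - θ) < w.re ∧ w.re < θ - β} := by
      have := strip_convex (-(α - θ)) (θ - β) 0 0
      simpa using this
    exact ⟨⟨0, by constructor <;> simp <;> linarith⟩, hc.isPreconnected⟩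
  have hconn : IsConnected (wd p ((a : ℝ) : ℂ) (α - θ) (θ - β)) := by
    rw [wd_eq hpa (by linarith) (by linarith)]
    exact hconv.image _ (by fun_prop)
  have haW : ((a : ℝ) : ℂ) ∈ wd p ((a : ℝ) : ℂ) (α - θ) (θ - β) := by
    refine ⟨hpa, ?_, ?_⟩ <;> rw [div_self hap, arg_one] <;> linarith
  have h3 := mono_ir (wd_open hpa (by linarith) (by linarith)) hconn haW hW hBo hBc haB hsub' hρ
  refine h3.trans ?_
  have h4 := trig a3 a1 a2 a4
  have e1 : α - θ + (θ - β) = α - β := by ring
  rw [Real.tan_arctan, Real.tan_arctan] at h4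
  have hn : ‖((a : ℝ) : ℂ) - p‖ = |h| / Real.cos θ := by
    rw [hp, norm_mul, norm_neg, Complex.norm_real, Real.norm_eq_abs, hθ, Real.cos_arctan,
      div_div_eq_mul_div, div_one]
    congr 1
    rw [← Real.sqrt_sq (norm_nonneg (((μ : ℝ) : ℂ) + I)), Complex.sq_norm, Complex.normSq_apply]
    congr 1
    simp
    ring
  rw [e1, hn]
  have hh0 : 0 < |h| := abs_pos.2 hh
  calc 2 * (α - β) / Real.pi * Real.sin (Real.pi * (α - θ) / (α - β)) * (|h| / Real.cos θ) =
      2 * |h| / (Real.pi * Real.cos θ) * ((α - β) * Real.sin (Real.pi * (α - θ) / (α - β))) := by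
        field_simp
    _ ≤ 2 * |h| / (Real.pi * Real.cos θ) * (Real.cos θ * (hi - lo)) :=
        mul_le_mul_of_nonneg_left h4 (by positivity)
    _ = 2 * (|h| * (hi - lo)) / Real.pi := by
        field_simp

/-- a domain between two lines -/
theorem chord {a c d m1 m2 : ℝ} (hca : c < a) (had : a < d) {B : Set (OnePoint ℂ)}
    (hBo : IsOpen B) (hBc : IsConnected B) (haB : ((((a : ℝ) : ℂ)) : OnePoint ℂ) ∈ B)
    (hsub : B ⊆ fin {z : ℂ | c < z.re - m1 * z.im ∧ z.re - m2 * z.im < d}) {ρ : ℝ}
    (hρ : HasIR B ((a : ℝ) : ℂ) ρ) : ρ ≤ 2 * (d - c) / Real.pi := by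
  have hpi := Real.pi_pos
  by_cases hm : m1 = m2
  · subst hm
    have hW := tilt Pool.Agent.H59.IR.mkg Pool.Agent.H31.IR.mh m1 hca had
    have hopen : IsOpen {z : ℂ | c < z.re - m1 * z.im ∧ z.re - m1 * z.im < d} :=
      (isOpen_lt continuous_const (contf m1)).inter (isOpen_lt (contf m1) continuous_const)
    have haW : ((a : ℝ) : ℂ) ∈ {z : ℂ | c < z.re - m1 * z.im ∧ z.re - m1 * z.im < d} := by
      constructor <;> simp [hca, had]
    have h3 := mono_ir hopen ⟨⟨_, haW⟩, (strip_convex c d m1 m1).isPreconnected⟩ haW hW hBo hBc haB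
      hsub hρ
    refine h3.trans ?_
    have h4 : 1 ≤ ‖(1 : ℂ) + m1 * I‖ := by
      have := Complex.abs_re_le_norm ((1 : ℂ) + m1 * I)
      simpa using this
    have h5 := Real.sin_le_one (Real.pi * (a - c) / (d - c))
    have h6 : 0 ≤ 2 * (d - c) / Real.pi := by
      have : 0 < d - c := by linarith
      positivity
    rw [div_le_iff₀ (by linarith)]
    nlinarith
  · set h : ℝ := (d - c) / (m1 - m2) with hh
    have hm' : m1 - m2 ≠ 0 := sub_ne_zero.2 hm
    have hdc : 0 < d - c := by linarith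
    have hh0 : h ≠ 0 := div_ne_zero hdc.ne' hm'
    have hhm : h * (m1 - m2) = d - c := by
      rw [hh]
      field_simp
    set μ : ℝ := m1 - (a - c) / h with hμ
    have hμ1 : h * (m1 - μ) = a - c := by
      rw [hμ]
      field_simp
      ring
    have hμ2 : h * (μ - m2) = d - a := by
      have : h * (μ - m2) = h * (m1 - m2) - h * (m1 - μ) := by ring
      rw [this, hhm, hμ1]
      ring
    set p : ℂ := ⟨c + m1 * h, h⟩ with hp
    have hpe : ((a : ℝ) : ℂ) - p = -((h : ℝ) : ℂ) * (((μ : ℝ) : ℂ) + I) := by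
      apply Complex.ext
      · simp [hp]
        linarith
      · simp [hp]
    have gen : ∀ Y s : ℝ, -((h : ℝ) : ℂ) * (((Y : ℝ) : ℂ) * (((s : ℝ) : ℂ) + I)) =
        ⟨-(h * (Y * s)), -(h * Y)⟩ := by
      intro Y s
      apply Complex.ext <;> simp
    have hpt : ∀ z : ℂ, z - p = -((h : ℝ) : ℂ) * ((((h - z.im) / h : ℝ) : ℂ) *
        (((-(z.re - c - m1 * h) / (h - z.im) : ℝ) : ℂ) + I)) ∨ h - z.im = 0 := by
      intro z
      by_cases hz : h - z.im = 0
      · right
        exact hz
      · left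
        rw [gen]
        apply Complex.ext
        · show z.re - (c + m1 * h) =
            -(h * ((h - z.im) / h * (-(z.re - c - m1 * h) / (h - z.im))))
          field_simp
          ring
        · show z.im - h = -(h * ((h - z.im) / h))
          field_simp
          ring
    have hfin : ∀ q ∈ B, ∃ z : ℂ, q = (z : OnePoint ℂ) ∧ c < z.re - m1 * z.im ∧
        z.re - m2 * z.im < d := by
      intro q hq
      obtain ⟨z, hz, rfl⟩ := hsub hq
      exact ⟨z, rfl, hz.1, hz.2⟩
    rcases lt_or_gt_of_ne hm with hlt | hgt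
    · -- `m1 < m2`, `h < 0`
      have hneg : h < 0 := by
        rw [hh]
        exact div_neg_of_pos_of_neg hdc (by linarith)
      have b1 : m1 < μ := by
        by_contra hcon
        push Not at hcon
        have : h * (m1 - μ) ≤ 0 := mul_nonpos_of_nonpos_of_nonneg hneg.le (by linarith)
        linarith
      have b2 : μ < m2 := by
        by_contra hcon
        push Not at hcon
        have : h * (μ - m2) ≤ 0 := mul_nonpos_of_nonpos_of_nonneg hneg.le (by linarith)
        linarith
      have h7 := wedge_bound hh0 b1 b2 hpe hBo hBc haB (fun q hq => by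
        obtain ⟨z, hz0, hz1, hz2⟩ := hfin q hq
        have f1 : (m2 - m1) * (h - z.im) < 0 := by nlinarith
        have f2 : h - z.im < 0 := by
          by_contra hcon
          push Not at hcon
          have : 0 ≤ (m2 - m1) * (h - z.im) := mul_nonneg (by linarith) hcon
          linarith
        refine ⟨z, hz0, (h - z.im) / h, -(z.re - c - m1 * h) / (h - z.im), ?_, ?_, ?_, ?_⟩
        · exact div_pos_of_neg_of_neg f2 hneg
        · rw [lt_div_iff_of_neg f2]
          nlinarith
        · rw [div_lt_iff_of_neg f2]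
          nlinarith
        · rcases hpt z with h8 | h8
          · exact h8
          · exact absurd h8 f2.ne) hρ
      rw [abs_of_neg hneg] at h7
      have e : -h * (m2 - m1) = d - c := by linarith
      rw [e] at h7
      exact h7
    · have hpos : 0 < h := by
        rw [hh]
        exact div_pos hdc (by linarith)
      have b1 : μ < m1 := by
        by_contra hcon
        push Not at hcon
        have : h * (m1 - μ) ≤ 0 := mul_nonpos_of_nonneg_of_nonpos hpos.le (by linarith)
        linarith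
      have b2 : m2 < μ := by
        by_contra hcon
        push Not at hcon
        have : h * (μ - m2) ≤ 0 := mul_nonpos_of_nonneg_of_nonpos hpos.le (by linarith)
        linarith
      have h7 := wedge_bound hh0 b2 b1 hpe hBo hBc haB (fun q hq => by
        obtain ⟨z, hz0, hz1, hz2⟩ := hfin q hq
        have f1 : 0 < (m1 - m2) * (h - z.im) := by nlinarith
        have f2 : 0 < h - z.im := by
          by_contra hcon
          push Not at hcon
          have : (m1 - m2) * (h - z.im) ≤ 0 :=
            mul_nonpos_of_nonneg_of_nonpos (by linarith) hcon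
          linarith
        refine ⟨z, hz0, (h - z.im) / h, -(z.re - c - m1 * h) / (h - z.im), ?_, ?_, ?_, ?_⟩
        · exact div_pos f2 hpos
        · rw [lt_div_iff₀ f2]
          nlinarith
        · rw [div_lt_iff₀ f2]
          nlinarith
        · rcases hpt z with h8 | h8
          · exact h8
          · exact absurd h8 f2.ne') hρ
      rw [abs_of_pos hpos] at h7
      rw [hhm] at h7
      exact h7

end Pool.Agent.H89.R18
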