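import Pool.Agent.H89.R18.Main

/-!
# Near-extremal pole systems are equidistributed
-/

set_option autoImplicit false

open Finset

namespace Pool.Agent.H89.R18

open Pool.Agent.H86.IR

theorem phi_sqrt {t : ℝ} (ht : 0 < t) : |t - 1| ≤ 2 * Real.sqrt (phi t) + phi t := by
  have h1 := Real.log_le_sub_one_of_pos (Real.sqrt_pos.2 ht)
  rw [Real.log_sqrt ht.le] at h1
  have h2 := Real.sq_sqrt ht.le
  set s := Real.sqrt t with hs
  have hs0 : 0 < s := Real.sqrt_pos.2 ht
  have h3 : (s - 1) ^ 2 ≤ phi t := by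
    unfold phi
    nlinarith
  have h4 : |s - 1| ≤ Real.sqrt (phi t) := Real.abs_le_sqrt h3
  have h5 : t - 1 = (s - 1) * (s + 1) := by nlinarith
  have h6 : 0 ≤ Real.sqrt (phi t) := Real.sqrt_nonneg _
  have h7 := Real.sq_sqrt (phi_nonneg ht)
  have h8 : s + 1 ≤ 2 + Real.sqrt (phi t) := by
    have := (abs_le.1 h4).2
    linarith
  rw [h5, abs_mul, abs_of_pos (by linarith : 0 < s + 1)]
  calc |s - 1| * (s + 1) ≤ Real.sqrt (phi t) * (2 + Real.sqrt (phi t)) := by
        apply mul_le_mul h4 h8 (by linarith) h6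
    _ = 2 * Real.sqrt (phi t) + phi t := by nlinarith

/-- every pole is close to its place in the equidistributed system -/
theorem pole_close {n : ℕ} (hn : 2 ≤ n) {x : ℕ → ℝ} (hx : ∀ i j, i < j → j < n → x i < x j)
    (hseg : ∀ k < n, |x k| ≤ 1) {K : ℝ} (hK : defect n x ≤ K) {m : ℕ} (hm : m < n) :
    |x m + 1 - 2 * m / n| ≤ 4 * Real.sqrt (K / n) + 3 * K / n := by
  have hn0 : (0 : ℝ) < n := by
    have : (2 : ℝ) ≤ n := by exact_mod_cast hn
    linarith
  set t : ℕ → ℝ := fun k => n * (x (k + 1) - x k) / 2 with ht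
  have htp : ∀ k < n - 1, 0 < t k := by
    intro k hk
    have := sub_pos.2 (hx k (k + 1) (by omega) (by omega))
    simp only [ht]
    positivity
  have hphi : ∀ k ∈ range (n - 1), 0 ≤ phi (t k) := fun k hk =>
    phi_nonneg (htp k (mem_range.1 hk))
  have h1 := (abs_le.1 (hseg (n - 1) (by omega))).2
  have h2 := (abs_le.1 (hseg 0 (by omega))).1
  have hS0 : 0 ≤ ∑ k ∈ range (n - 1), phi (t k) := sum_nonneg hphi
  have hd : ∑ k ∈ range (n - 1), phi (t k) + n * (2 - (x (n - 1) - x 0)) ≤ K := hK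
  have hd1 : 0 ≤ n * (2 - (x (n - 1) - x 0)) := mul_nonneg hn0.le (by linarith)
  have hK0 : 0 ≤ K := by linarith
  -- the sum of the first gaps
  have hsub : range m ⊆ range (n - 1) := range_subset_range.2 (by omega)
  have hSm : ∑ k ∈ range m, phi (t k) ≤ K :=
    (sum_le_sum_of_subset_of_nonneg hsub fun k hk _ => hphi k hk).trans (by linarith)
  have h3 : |∑ k ∈ range m, (t k - 1)| ≤ 2 * Real.sqrt (n * K) + K := by
    have a1 : |∑ k ∈ range m, (t k - 1)| ≤ ∑ k ∈ range m, (2 * Real.sqrt (phi (t k)) + phi (t k)) :=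
      (abs_sum_le_sum_abs _ _).trans (sum_le_sum fun k hk =>
        phi_sqrt (htp k (mem_range.1 (hsub hk))))
    have a2 : ∑ k ∈ range m, Real.sqrt (phi (t k)) ≤ Real.sqrt (n * K) := by
      apply Real.le_sqrt_of_sq_le
      refine (sq_sum_le_card_mul_sum_sq).trans ?_
      have a3 : ∑ k ∈ range m, Real.sqrt (phi (t k)) ^ 2 = ∑ k ∈ range m, phi (t k) :=
        sum_congr rfl fun k hk => Real.sq_sqrt (hphi k (hsub hk))
      rw [a3, card_range]
      have a4 : (m : ℝ) ≤ n := by exact_mod_cast hm.le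
      exact mul_le_mul a4 hSm (sum_nonneg fun k hk => hphi k (hsub hk)) hn0.le
    rw [sum_add_distrib, ← mul_sum] at a1
    linarith
  have h4 : x m + 1 - 2 * m / n = (x 0 + 1) + 2 / n * ∑ k ∈ range m, (t k - 1) := by
    have a1 : ∑ k ∈ range m, (t k - 1) = n * (x m - x 0) / 2 - m := by
      rw [sum_sub_distrib]
      simp only [ht, sum_const, card_range, nsmul_eq_mul, mul_one]
      rw [← sum_div, ← mul_sum, sum_range_sub]
    rw [a1]
    field_simp
    ring
  have h5 : 0 ≤ x 0 + 1 := by linarith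
  have h6 : x 0 + 1 ≤ K / n := by
    rw [le_div_iff₀ hn0]
    nlinarith
  have h7 : Real.sqrt (n * K) = n * Real.sqrt (K / n) := by
    rw [show (n : ℝ) * K = (n : ℝ) ^ 2 * (K / n) by field_simp, Real.sqrt_mul (by positivity),
      Real.sqrt_sq hn0.le]
  rw [h4]
  calc |(x 0 + 1) + 2 / n * ∑ k ∈ range m, (t k - 1)| ≤
        |x 0 + 1| + |2 / n * ∑ k ∈ range m, (t k - 1)| := abs_add_le _ _
    _ = (x 0 + 1) + 2 / n * |∑ k ∈ range m, (t k - 1)| := by
        rw [abs_of_nonneg h5, abs_mul, abs_of_pos (by positivity : (0 : ℝ) < 2 / n)]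
    _ ≤ K / n + 2 / n * (2 * Real.sqrt (n * K) + K) := by
        gcongr
    _ = 4 * Real.sqrt (K / n) + 3 * K / n := by
        rw [h7]
        field_simp
        ring

theorem defect_le {n : ℕ} (hn : 2 ≤ n) {x : ℕ → ℝ} {κ : ℝ} (hκ : 0 < κ) {P : ℝ}
    (h1 : P ≤ 10 ^ 5 * (4 / (Real.pi * n)) ^ n * Real.exp (-(defect n x / 4)))
    (h2 : κ * (4 / (Real.pi * n)) ^ n ≤ P) : defect n x ≤ 4 * Real.log (10 ^ 5 / κ) := by
  have hpi := Real.pi_pos
  have hn0 : (0 : ℝ) < n := by
    have : (2 : ℝ) ≤ n := by exact_mod_cast hn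
    linarith
  have h3 : κ ≤ 10 ^ 5 * Real.exp (-(defect n x / 4)) := by
    have h4 := h2.trans h1
    rw [mul_right_comm] at h4
    exact le_of_mul_le_mul_right h4 (by positivity)
  have h5 : Real.exp (defect n x / 4) ≤ 10 ^ 5 / κ := by
    rw [le_div_iff₀ hκ]
    have h6 : Real.exp (defect n x / 4) * κ ≤
        Real.exp (defect n x / 4) * (10 ^ 5 * Real.exp (-(defect n x / 4))) :=
      mul_le_mul_of_nonneg_left h3 (Real.exp_pos _).le
    have h7 : Real.exp (defect n x / 4) * (10 ^ 5 * Real.exp (-(defect n x / 4))) = 10 ^ 5 := by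
      rw [mul_left_comm, ← Real.exp_add, add_neg_cancel, Real.exp_zero, mul_one]
    linarith
  have h8 := (Real.le_log_iff_exp_le (by positivity)).2 h5
  linarith

end Pool.Agent.H89.R18
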