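import Mathlib

/-!
# Logarithmic functionals of sums of exponentials (Frullani)

`Rep F A V`: `F t = ∑ c i * exp (- l i * t)`, `A = ∑ c i`, `V = ∑ c i * log (l i)`.
-/

set_option autoImplicit false

open Topology Filter MeasureTheory Set

namespace Pool.Agent.H89.R18

/-- `F` has a logarithmic potential `R` with `R 0 = V` -/
def Rep (F : ℝ → ℝ) (A V : ℝ) : Prop :=
  (∀ y : ℝ, 0 ≤ y → IntegrableOn (fun t => F t * Real.exp (-(y * t))) (Ioi 0)) ∧
    ∃ R : ℝ → ℝ, (∀ y : ℝ, 0 ≤ y →
      HasDerivAt R (∫ t in Ioi (0 : ℝ), F t * Real.exp (-(y * t))) y) ∧ R 0 = V ∧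
      Tendsto (fun y => R y - A * Real.log y) atTop (𝓝 0)

theorem rep_zero : Rep (fun _ => 0) 0 0 := by
  refine ⟨fun y _ => ?_, fun _ => 0, fun y _ => ?_, rfl, ?_⟩
  · simp only [zero_mul]
    exact integrableOn_zero
  · simp only [zero_mul, integral_zero]
    exact hasDerivAt_const y (0 : ℝ)
  · simp

theorem rep_exp {l : ℝ} (hl : 0 < l) (c : ℝ) :
    Rep (fun t => c * Real.exp (-(l * t))) c (c * Real.log l) := by
  have e : ∀ y t : ℝ, c * Real.exp (-(l * t)) * Real.exp (-(y * t)) =
      c * Real.exp (-(l + y) * t) := by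
    intro y t
    rw [mul_assoc, ← Real.exp_add]
    congr 2
    ring
  refine ⟨fun y hy => ?_, fun y => c * Real.log (l + y), fun y hy => ?_, by simp, ?_⟩
  · simp only [e]
    exact (integrableOn_exp_mul_Ioi (by linarith) 0).const_mul c
  · simp only [e]
    rw [integral_const_mul, integral_exp_mul_Ioi (by linarith) 0]
    have h1 : HasDerivAt (fun y : ℝ => l + y) 1 y := by
      simpa using (hasDerivAt_id y).const_add l
    have h2 := (h1.log (by linarith)).const_mul c
    have h3 : c * (1 / (l + y)) = c * (-Real.exp (-(l + y) * 0) / -(l + y)) := by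
      rw [mul_zero, Real.exp_zero]
      have : l + y ≠ 0 := by positivity
      field_simp
    rw [← h3]
    exact h2
  · have h1 : Tendsto (fun y : ℝ => c * Real.log (1 + l / y)) atTop (𝓝 (c * 0)) := by
      refine Tendsto.const_mul _ ?_
      have h2 : Tendsto (fun y : ℝ => 1 + l / y) atTop (𝓝 (1 + 0)) :=
        tendsto_const_nhds.add (tendsto_const_nhds.div_atTop tendsto_id)
      rw [add_zero] at h2
      have h3 := (Real.continuousAt_log one_ne_zero).tendsto.comp h2
      rw [Real.log_one] at h3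
      exact h3
    rw [mul_zero] at h1
    refine h1.congr' ?_
    filter_upwards [eventually_gt_atTop 0] with y hy
    have h3 : l + y = (1 + l / y) * y := by
      field_simp
      ring
    have h4 : 0 < 1 + l / y := by positivity
    rw [h3, Real.log_mul h4.ne' hy.ne']
    ring

theorem rep_add {F G : ℝ → ℝ} {A B V W : ℝ} (hF : Rep F A V) (hG : Rep G B W) :
    Rep (fun t => F t + G t) (A + B) (V + W) := by
  obtain ⟨h1, R, h2, h3, h4⟩ := hF
  obtain ⟨k1, Q, k2, k3, k4⟩ := hG
  refine ⟨fun y hy => ?_, fun y => R y + Q y, fun y hy => ?_, by simp only [h3, k3], ?_⟩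
  · simp only [add_mul]
    exact (h1 y hy).add (k1 y hy)
  · simp only [add_mul]
    rw [integral_add (h1 y hy) (k1 y hy)]
    exact (h2 y hy).add (k2 y hy)
  · have := h4.add k4
    rw [add_zero] at this
    refine this.congr fun y => ?_
    ring

theorem rep_mul {F : ℝ → ℝ} {A V : ℝ} (hF : Rep F A V) (c : ℝ) :
    Rep (fun t => c * F t) (c * A) (c * V) := by
  obtain ⟨h1, R, h2, h3, h4⟩ := hF
  refine ⟨fun y hy => ?_, fun y => c * R y, fun y hy => ?_, by simp only [h3], ?_⟩
  · simp only [mul_assoc]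
    exact (h1 y hy).const_mul c
  · simp only [mul_assoc]
    rw [integral_const_mul]
    exact (h2 y hy).const_mul c
  · have := h4.const_mul c
    rw [mul_zero] at this
    refine this.congr fun y => ?_
    ring

theorem rep_sum {ι : Type*} (s : Finset ι) {F : ι → ℝ → ℝ} {A V : ι → ℝ}
    (h : ∀ i ∈ s, Rep (F i) (A i) (V i)) :
    Rep (fun t => ∑ i ∈ s, F i t) (∑ i ∈ s, A i) (∑ i ∈ s, V i) := by
  classical
  induction s using Finset.induction_on with
  | empty =>
    simp only [Finset.sum_empty]
    exact rep_zero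
  | insert i s hi ih =>
    simp only [Finset.sum_insert hi]
    exact rep_add (h i (Finset.mem_insert_self i s))
      (ih fun j hj => h j (Finset.mem_insert_of_mem hj))

/-- the Frullani inequality -/
theorem fru {F : ℝ → ℝ} {V : ℝ} (hF : Rep F 0 V) (h : ∀ t : ℝ, 0 < t → 0 ≤ F t) : V ≤ 0 := by
  obtain ⟨h1, R, h2, h3, h4⟩ := hF
  have hmono : MonotoneOn R (Ici 0) := by
    apply monotoneOn_of_deriv_nonneg (convex_Ici 0)
    · intro l hl
      exact (h2 l hl).continuousAt.continuousWithinAt
    · intro l hl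
      rw [interior_Ici] at hl
      exact (h2 l (le_of_lt hl)).differentiableAt.differentiableWithinAt
    · intro l hl
      rw [interior_Ici] at hl
      rw [(h2 l (le_of_lt hl)).deriv]
      refine setIntegral_nonneg measurableSet_Ioi fun t ht => ?_
      exact mul_nonneg (h t ht) (Real.exp_pos _).le
  have h5 : Tendsto R atTop (𝓝 0) := by simpa using h4
  rw [← h3]
  refine ge_of_tendsto h5 ?_
  filter_upwards [eventually_ge_atTop 0] with y hy
  exact hmono (mem_Ici.2 le_rfl) (mem_Ici.2 hy) hy

end Pool.Agent.H89.R18
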