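import Pool.Agent.H89.R18.Sto

/-!
# The Green function of a strip and conformal transfer
-/

set_option autoImplicit false

open Complex Topology Filter InnerProductSpace
open scoped OnePoint

namespace Pool.Agent.H89.R18

open Pool.Agent.H86.IR Pool.Agent.H21.IR

/-- the Green function of a vertical strip -/
theorem strip_green {a c d : ℝ} (hca : c < a) (had : a < d) :
    ∃ G H : ℂ → ℝ, (∀ z : ℂ, z ∈ {z : ℂ | c < z.re ∧ z.re < d} → z ≠ ((a : ℝ) : ℂ) → HarmonicAt G z) ∧
      HarmonicAt H ((a : ℝ) : ℂ) ∧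
      H ((a : ℝ) : ℂ) = Real.log (2 * (d - c) / Real.pi * Real.sin (Real.pi * (a - c) / (d - c))) ∧
      (∀ᶠ z in 𝓝[≠] ((a : ℝ) : ℂ), G z = H z - Real.log ‖z - ((a : ℝ) : ℂ)‖) ∧
      (∀ z : ℂ, z.re = c ∨ z.re = d →
        Tendsto G (𝓝[{z : ℂ | c < z.re ∧ z.re < d}] z) (𝓝 0)) ∧
      Tendsto G (cocompact ℂ ⊓ 𝓟 {z : ℂ | c < z.re ∧ z.re < d}) (𝓝 0) := by
  have hpi := Real.pi_pos
  have hw : 0 < d - c := by linarith
  set b : ℝ := Real.pi / (2 * (d - c)) with hb
  have hb0 : 0 < b := by positivity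
  set p : ℝ := 2 * c - a with hp
  have hbd : b * (d - c) = Real.pi / 2 := by
    rw [hb]
    field_simp
  -- the arguments
  have hP : ∀ z : ℂ, c ≤ z.re → z.re ≤ d → 0 < Real.sin (b * (z.re - p)) := by
    intro z h1 h2
    apply Real.sin_pos_of_pos_of_lt_pi
    · apply mul_pos hb0
      rw [hp]
      linarith
    · have : b * (z.re - p) < b * (2 * (d - c)) := by
        apply mul_lt_mul_of_pos_left _ hb0
        rw [hp]
        linarith
      linarith
  have hQ : ∀ z : ℂ, c ≤ z.re → z.re ≤ d → |b * (z.re - a)| < Real.pi := by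
    intro z h1 h2
    rw [abs_mul, abs_of_pos hb0]
    have : b * |z.re - a| ≤ b * (d - c) := by
      apply mul_le_mul_of_nonneg_left _ hb0.le
      rw [abs_le]
      constructor <;> linarith
    linarith
  have hharm : ∀ z : ℂ, sin (vv b p z) ≠ 0 → HarmonicAt (fun z => Real.log ‖sin (vv b p z)‖) z := by
    intro z hz
    exact AnalyticAt.harmonicAt_log_norm (f := fun z => sin (vv b p z))
      (by have := vv_an b p z; fun_prop) hz
  have hopen : IsOpen {z : ℂ | c < z.re ∧ z.re < d} :=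
    (isOpen_lt continuous_const Complex.continuous_re).inter
      (isOpen_lt Complex.continuous_re continuous_const)
  have hsin : 0 < Real.sin (Real.pi * (a - c) / (d - c)) := by
    apply Real.sin_pos_of_pos_of_lt_pi
    · have : 0 < a - c := by linarith
      positivity
    · rw [div_lt_iff₀ hw]
      apply mul_lt_mul_of_pos_left _ hpi
      linarith
  have hr0 : 0 < 2 * (d - c) / Real.pi * Real.sin (Real.pi * (a - c) / (d - c)) := by positivity
  have hpa : vv b p ((a : ℝ) : ℂ) = ((Real.pi * (a - c) / (d - c) : ℝ) : ℂ) := by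
    unfold vv
    rw [← Complex.ofReal_sub, ← Complex.ofReal_mul]
    congr 1
    rw [hb, hp]
    field_simp
    ring
  have haa : vv b a ((a : ℝ) : ℂ) = 0 := by
    unfold vv
    rw [sub_self, mul_zero]
  refine ⟨fun z => Real.log ‖sin (vv b p z)‖ - Real.log ‖sin (vv b a z)‖,
    fun z => Real.log ‖sin (vv b p z)‖ - Real.log ‖sc (vv b a z)‖ - Real.log b,
    ?_, ?_, ?_, ?_, ?_, ?_⟩
  · intro z hz hza
    exact (hharm z (sin_vv_ne (hP z hz.1.le hz.2.le).ne')).sub
      (AnalyticAt.harmonicAt_log_norm (f := fun z => sin (vv b a z))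
        (by have := vv_an b a z; fun_prop) (sin_vv_ne' hb0 (hQ z hz.1.le hz.2.le) hza))
  · refine HarmonicAt.sub (HarmonicAt.sub (hharm _ ?_) ?_) (harmonicAt_const _)
    · exact sin_vv_ne (hP _ (by simpa using hca.le) (by simpa using had.le)).ne'
    · refine AnalyticAt.harmonicAt_log_norm (f := fun z => sc (vv b a z)) ?_ ?_
      · exact (sc_diff.analyticAt _).fun_comp (vv_an b a _)
      · rw [haa, sc_zero]
        exact one_ne_zero
  · simp only [haa, hpa, sc_zero, norm_one, Real.log_one, sub_zero]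
    rw [← Complex.ofReal_sin, Complex.norm_real, Real.norm_eq_abs, abs_of_pos hsin,
      ← Real.log_div hsin.ne' hb0.ne']
    congr 1
    rw [hb]
    field_simp
  · have hu : ∀ᶠ z in 𝓝[≠] ((a : ℝ) : ℂ), sc (vv b a z) ≠ 0 := by
      have h1 : ContinuousAt (fun z => sc (vv b a z)) ((a : ℝ) : ℂ) :=
        ((sc_diff.analyticAt _).fun_comp (vv_an b a _)).continuousAt
      have h2 : sc (vv b a ((a : ℝ) : ℂ)) ≠ 0 := by
        rw [haa, sc_zero]
        exact one_ne_zero
      exact (h1.eventually_ne h2).filter_mono nhdsWithin_le_nhds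
    filter_upwards [hu, self_mem_nhdsWithin] with z hz hza
    have hza' : z - ((a : ℝ) : ℂ) ≠ 0 := sub_ne_zero.2 hza
    have h3 : ‖sin (vv b a z)‖ = b * ‖z - ((a : ℝ) : ℂ)‖ * ‖sc (vv b a z)‖ := by
      rw [sin_eq_sc, norm_mul]
      congr 1
      unfold vv
      rw [norm_mul, Complex.norm_real, Real.norm_eq_abs, abs_of_pos hb0]
    rw [h3, Real.log_mul (mul_ne_zero hb0.ne' (norm_ne_zero_iff.2 hza')) (norm_ne_zero_iff.2 hz),
      Real.log_mul hb0.ne' (norm_ne_zero_iff.2 hza')]
    ring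
  · intro z hz1
    have hz2 : c ≤ z.re ∧ z.re ≤ d := by
      rcases hz1 with h | h <;> rw [h] <;> constructor <;> linarith
    have hza : z ≠ ((a : ℝ) : ℂ) := by
      rintro rfl
      rw [Complex.ofReal_re] at hz1
      rcases hz1 with h | h <;> linarith
    have hc := sin_vv_ne (hP z hz2.1 hz2.2).ne'
    have hs := sin_vv_ne' hb0 (hQ z hz2.1 hz2.2) hza
    have hG : Real.log ‖sin (vv b p z)‖ - Real.log ‖sin (vv b a z)‖ = 0 := by
      have h1 := sq_norm_sin (vv b p z)
      have h2 := sq_norm_sin (vv b a z)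
      rw [vv_re, vv_im] at h1 h2
      have h3 : Real.sin (b * (z.re - p)) ^ 2 = Real.sin (b * (z.re - a)) ^ 2 := by
        rcases hz1 with h | h
        · rw [h, show b * (c - p) = -(b * (c - a)) by rw [hp]; ring, Real.sin_neg]
          ring
        · rw [h, show b * (d - p) = Real.pi - b * (d - a) by
            rw [hp]
            linear_combination 2 * hbd, Real.sin_pi_sub]
      have h4 : ‖sin (vv b p z)‖ = ‖sin (vv b a z)‖ := by
        rw [← sq_eq_sq₀ (norm_nonneg _) (norm_nonneg _), h1, h2, h3]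
      rw [h4, sub_self]
    have hcG : ContinuousAt (fun z => Real.log ‖sin (vv b p z)‖ - Real.log ‖sin (vv b a z)‖) z := by
      have hu := (vv_an b p z).continuousAt
      have hu' := (vv_an b a z).continuousAt
      exact ((Complex.continuous_sin.continuousAt.comp hu).norm.log (norm_ne_zero_iff.2 hc)).sub
        ((Complex.continuous_sin.continuousAt.comp hu').norm.log (norm_ne_zero_iff.2 hs))
    have := hcG.tendsto
    simp only [hG] at this
    exact this.mono_left nhdsWithin_le_nhds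
  · have hlim : Tendsto (fun z : ℂ => 1 / (2 * b ^ 2 * (‖z‖ - (|c| + |d|)) ^ 2))
        (cocompact ℂ) (𝓝 0) := by
      have h1 : Tendsto (fun z : ℂ => ‖z‖ - (|c| + |d|)) (cocompact ℂ) atTop :=
        tendsto_atTop_add_const_right _ _ (tendsto_norm_cocompact_atTop (E := ℂ))
      have h2 : Tendsto (fun z : ℂ => 2 * b ^ 2 * (‖z‖ - (|c| + |d|)) ^ 2) (cocompact ℂ) atTop :=
        ((tendsto_pow_atTop two_ne_zero).comp h1).const_mul_atTop (by positivity)
      exact h2.const_div_atTop _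
    have hev : ∀ᶠ z in cocompact ℂ ⊓ 𝓟 {z : ℂ | c < z.re ∧ z.re < d},
        -(1 / (2 * b ^ 2 * (‖z‖ - (|c| + |d|)) ^ 2)) ≤
          Real.log ‖sin (vv b p z)‖ - Real.log ‖sin (vv b a z)‖ ∧
        Real.log ‖sin (vv b p z)‖ - Real.log ‖sin (vv b a z)‖ ≤
          1 / (2 * b ^ 2 * (‖z‖ - (|c| + |d|)) ^ 2) := by
      have h1 : ∀ᶠ z in cocompact ℂ, |c| + |d| < ‖z‖ :=
        (tendsto_norm_cocompact_atTop (E := ℂ)).eventually_gt_atTop _
      rw [eventually_inf_principal]
      filter_upwards [h1] with z hz hzS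
      have hzS' : c < z.re ∧ z.re < d := hzS
      have h2 : |z.re| ≤ |c| + |d| := by
        rw [abs_le]
        have k1 := neg_abs_le c
        have k2 := le_abs_self d
        have k3 := abs_nonneg c
        have k4 := abs_nonneg d
        constructor <;> linarith [hzS'.1, hzS'.2]
      have h3 := Complex.norm_le_abs_re_add_abs_im z
      have h4 : 0 < ‖z‖ - (|c| + |d|) := by linarith
      have h5 : ‖z‖ - (|c| + |d|) ≤ |z.im| := by linarith
      have h6 : z.im ≠ 0 := by
        intro h0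
        rw [h0, abs_zero] at h5
        linarith
      have hza : z ≠ ((a : ℝ) : ℂ) := by
        rintro rfl
        exact h6 (Complex.ofReal_im a)
      have hc := sin_vv_ne (hP z hzS'.1.le hzS'.2.le).ne'
      have hs := sin_vv_ne' hb0 (hQ z hzS'.1.le hzS'.2.le) hza
      have h9 : (‖z‖ - (|c| + |d|)) ^ 2 ≤ z.im ^ 2 := by
        rw [← sq_abs z.im]
        exact pow_le_pow_left₀ h4.le h5 2
      have h10 : 1 / (2 * b ^ 2 * z.im ^ 2) ≤ 1 / (2 * b ^ 2 * (‖z‖ - (|c| + |d|)) ^ 2) := by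
        apply one_div_le_one_div_of_le (by positivity)
        gcongr
      have h11 := diff_bound hb0 h6 hc hs
      have h12 := diff_bound hb0 h6 hs hc
      constructor <;> linarith
    have hlim' : Tendsto (fun z : ℂ => -(1 / (2 * b ^ 2 * (‖z‖ - (|c| + |d|)) ^ 2)))
        (cocompact ℂ) (𝓝 0) := by
      have := hlim.neg
      rwa [neg_zero] at this
    exact tendsto_of_tendsto_of_tendsto_of_le_of_le' (hlim'.mono_left inf_le_left)
      (hlim.mono_left inf_le_left) (hev.mono fun z h => h.1) (hev.mono fun z h => h.2)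

/-- transfer of the Green function of the strip by a holomorphic function -/
theorem pull (hMKG : T_MKG) (hMH : T_MH) {S : Set ℂ} {a : ℂ} {u : ℂ → ℂ} {c A d : ℝ} (hcA : c < A)
    (hAd : A < d) (hS : IsOpen S) (haS : a ∈ S) (huA : u a = ((A : ℝ) : ℂ))
    (hu : ∀ z ∈ S, AnalyticAt ℂ u z) (hmap : ∀ z ∈ S, u z ∈ {z : ℂ | c < z.re ∧ z.re < d})
    (hinj : ∀ z ∈ S, z ≠ a → u z ≠ ((A : ℝ) : ℂ)) (hd : deriv u a ≠ 0)
    (hb : ∀ z ∈ frontier S, (∃ w : ℂ, (w.re = c ∨ w.re = d) ∧
        Tendsto u (𝓝[S] z) (𝓝 w)) ∨ Tendsto u (𝓝[S] z) (cocompact ℂ))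
    (hinf : Tendsto u (cocompact ℂ ⊓ 𝓟 S) (cocompact ℂ)) :
    HasIR (fin S) a (2 * (d - c) / Real.pi * Real.sin (Real.pi * (A - c) / (d - c)) /
      ‖deriv u a‖) := by
  have hpi := Real.pi_pos
  have hw : 0 < d - c := by linarith
  have hsin : 0 < Real.sin (Real.pi * (A - c) / (d - c)) := by
    apply Real.sin_pos_of_pos_of_lt_pi
    · have : 0 < A - c := by linarith
      positivity
    · rw [div_lt_iff₀ hw]
      apply mul_lt_mul_of_pos_left _ hpi
      linarith
  have hr0 : 0 < 2 * (d - c) / Real.pi * Real.sin (Real.pi * (A - c) / (d - c)) := by positivity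
  have hd0 : 0 < ‖deriv u a‖ := norm_pos_iff.2 hd
  obtain ⟨G, H, g1, g2, g3, g4, g5, g6⟩ := strip_green hcA hAd
  have hua := hu a haS
  have hq : AnalyticAt ℂ (dslope u a) a := by
    obtain ⟨V, hV, hVu⟩ := hua.exists_mem_nhds_analyticOnNhd
    have h1 : DifferentiableOn ℂ u V := hVu.differentiableOn
    have h2 := (Complex.differentiableOn_dslope hV).2 h1
    exact h2.analyticAt hV
  have hq0 : dslope u a a ≠ 0 := by
    rw [dslope_same]
    exact hd
  have hmapS : ∀ {F : Filter ℂ}, F ≤ 𝓟 S → ∀ {L : Filter ℂ}, Tendsto u F L →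
      Tendsto u F (L ⊓ 𝓟 {z : ℂ | c < z.re ∧ z.re < d}) := by
    intro F hF L hL
    rw [tendsto_inf]
    refine ⟨hL, ?_⟩
    rw [tendsto_principal]
    exact (le_principal_iff.1 hF : S ∈ F) |> fun h => Filter.mem_of_superset h hmap
  refine hMKG S a (fun z => G (u z)) (fun z => H (u z) - Real.log ‖dslope u a z‖) _ hS haS
    (div_pos hr0 hd0) ?_ ?_ ?_ ?_ ?_ ?_
  · intro z hz hza
    exact hMH G u z (hu z hz) (g1 _ (hmap z hz) (hinj z hz hza))
  · refine HarmonicAt.sub (hMH H u a hua (by rw [huA]; exact g2)) ?_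
    exact AnalyticAt.harmonicAt_log_norm hq hq0
  · simp only [huA, g3, dslope_same]
    rw [Real.log_div hr0.ne' hd0.ne']
  · have h1 : Tendsto u (𝓝[≠] a) (𝓝[≠] ((A : ℝ) : ℂ)) := by
      refine tendsto_nhdsWithin_iff.2 ⟨?_, ?_⟩
      · rw [← huA]
        exact hua.continuousAt.tendsto.mono_left nhdsWithin_le_nhds
      · have h2 : ∀ᶠ z in 𝓝[≠] a, z ∈ S := nhdsWithin_le_nhds (hS.mem_nhds haS)
        filter_upwards [h2, self_mem_nhdsWithin] with z hz hza
        exact hinj z hz hza
    have h3 : ∀ᶠ z in 𝓝[≠] a, dslope u a z ≠ 0 :=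
      (hq.continuousAt.eventually_ne hq0).filter_mono nhdsWithin_le_nhds
    filter_upwards [h1.eventually g4, h3, self_mem_nhdsWithin] with z hz hz3 hza
    have hza' : z - a ≠ 0 := sub_ne_zero.2 hza
    have h4 : u z - ((A : ℝ) : ℂ) = (z - a) * dslope u a z := by
      have := sub_smul_dslope u a z
      rw [smul_eq_mul, huA] at this
      exact this.symm
    rw [hz, h4, norm_mul, Real.log_mul (norm_ne_zero_iff.2 hza') (norm_ne_zero_iff.2 hz3)]
    ring
  · intro z hz
    rcases hb z hz with ⟨w, hw, hu2⟩ | h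
    · have := hmapS (F := 𝓝[S] z) inf_le_right hu2
      exact (g5 w hw).comp this
    · have := hmapS (F := 𝓝[S] z) inf_le_right h
      exact g6.comp this
  · have := hmapS (F := cocompact ℂ ⊓ 𝓟 S) inf_le_right hinf
    exact g6.comp this

end Pool.Agent.H89.R18
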