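import Pool.Agent.H86.IR.Targets2

/-!
# The alternating energy of the kernel `exp (- t |x - y|)`
-/

set_option autoImplicit false

open Finset

namespace Pool.Agent.H89.R18

open Pool.Agent.H86.IR

theorem sgn_sq (N : ℕ) : ((-1 : ℝ) ^ N) * (-1) ^ N = 1 := by
  rw [← mul_pow]
  norm_num

theorem wt_succ {N k : ℕ} (hN : 1 ≤ N) (hk : k ∈ range (N + 1)) :
    wt (N + 1) k = wt N k + (if k = N then (-1 : ℝ) ^ N / 2 else 0) := by
  rw [mem_range] at hk
  unfold wt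
  by_cases h0 : k = 0
  · subst h0
    rw [if_pos rfl, if_pos rfl, if_neg (by omega), add_zero]
  · rw [if_neg h0, if_neg (by omega), if_neg h0]
    by_cases h1 : k = N
    · subst h1
      rw [if_pos rfl, if_pos rfl]
      ring
    · rw [if_neg h1, if_neg h1, add_zero]

theorem wt_last (N : ℕ) : wt (N + 1) (N + 1) = -((-1 : ℝ) ^ N) / 2 := by
  unfold wt
  rw [if_neg (by omega), if_pos rfl, pow_succ]
  ring

theorem sum_succ {N : ℕ} (hN : 1 ≤ N) (f : ℕ → ℝ) :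
    ∑ k ∈ range (N + 1), wt (N + 1) k * f k =
      ∑ k ∈ range (N + 1), wt N k * f k + (-1 : ℝ) ^ N / 2 * f N := by
  have h : ∀ k ∈ range (N + 1), wt (N + 1) k * f k =
      wt N k * f k + (if k = N then (-1 : ℝ) ^ N / 2 * f N else 0) := by
    intro k hk
    rw [wt_succ hN hk]
    by_cases h1 : k = N
    · subst h1
      rw [if_pos rfl, if_pos rfl]
      ring
    · rw [if_neg h1, if_neg h1]
      ring
  rw [sum_congr rfl h, sum_add_distrib, sum_ite_eq' (range (N + 1)) N, if_pos (by simp)]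

/-- the energy -/
noncomputable def SS (K : ℕ → ℕ → ℝ) (N : ℕ) : ℝ :=
  ∑ k ∈ range (N + 1), ∑ j ∈ range (N + 1), wt N k * wt N j * K k j

/-- the potential at the last point -/
noncomputable def UU (K : ℕ → ℕ → ℝ) (N : ℕ) : ℝ :=
  (-1 : ℝ) ^ N * ∑ k ∈ range (N + 1), wt N k * K k N

theorem uu_succ {K : ℕ → ℕ → ℝ} {N : ℕ} {e : ℝ} (hN : 1 ≤ N)
    (h1 : ∀ k, K k k = 1) (he : ∀ k ≤ N, K k (N + 1) = e * K k N) :
    UU K (N + 1) = (1 - e) / 2 - e * UU K N := by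
  unfold UU
  rw [sum_range_succ, sum_succ hN, wt_last, h1, he N le_rfl, h1]
  have h2 : ∑ k ∈ range (N + 1), wt N k * K k (N + 1) =
      e * ∑ k ∈ range (N + 1), wt N k * K k N := by
    rw [mul_sum]
    refine sum_congr rfl fun k hk => ?_
    rw [he k (by rw [mem_range] at hk; omega)]
    ring
  rw [h2, pow_succ]
  linear_combination ((1 - e) / 2) * sgn_sq N

theorem ss_succ {K : ℕ → ℕ → ℝ} {N : ℕ} {e : ℝ} (hN : 1 ≤ N)
    (h1 : ∀ k, K k k = 1) (hs : ∀ k j, K k j = K j k) (he : ∀ k ≤ N, K k (N + 1) = e * K k N) :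
    SS K (N + 1) = SS K N + (1 - e) / 2 + UU K N * (1 - e) := by
  have h2 : ∑ k ∈ range (N + 1), wt N k * K k (N + 1) =
      e * ∑ k ∈ range (N + 1), wt N k * K k N := by
    rw [mul_sum]
    refine sum_congr rfl fun k hk => ?_
    rw [he k (by rw [mem_range] at hk; omega)]
    ring
  have h3 : ∀ N (f : ℕ → ℕ → ℝ) (s : Finset ℕ), ∑ k ∈ s, ∑ j ∈ range (N + 1),
      wt N k * wt N j * f k j = ∑ k ∈ s, wt N k * ∑ j ∈ range (N + 1), wt N j * f k j := by
    intro N f s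
    refine sum_congr rfl fun k _ => ?_
    rw [mul_sum]
    exact sum_congr rfl fun j _ => by ring
  have h4 : ∀ k, ∑ j ∈ range (N + 1 + 1), wt (N + 1) j * K k j =
      ∑ j ∈ range (N + 1), wt N j * K k j + (-1 : ℝ) ^ N / 2 * K k N -
        (-1 : ℝ) ^ N / 2 * K k (N + 1) := by
    intro k
    rw [sum_range_succ, sum_succ hN, wt_last]
    ring
  unfold SS UU
  rw [h3, h3]
  simp only [h4]
  rw [sum_range_succ, sum_succ hN, wt_last, h1, h1, hs (N + 1) N, he N le_rfl, h1]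
  have h5 : ∑ j ∈ range (N + 1), wt N j * K N j = ∑ k ∈ range (N + 1), wt N k * K k N :=
    sum_congr rfl fun j _ => by rw [hs N j]
  have h6 : ∑ j ∈ range (N + 1), wt N j * K (N + 1) j = ∑ k ∈ range (N + 1), wt N k * K k (N + 1) :=
    sum_congr rfl fun j _ => by rw [hs (N + 1) j]
  rw [h5, h6, h2]
  have h7 : ∑ k ∈ range (N + 1), wt N k * (∑ j ∈ range (N + 1), wt N j * K k j +
      (-1 : ℝ) ^ N / 2 * K k N - (-1 : ℝ) ^ N / 2 * K k (N + 1)) =
      ∑ k ∈ range (N + 1), wt N k * ∑ j ∈ range (N + 1), wt N j * K k j +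
      (-1 : ℝ) ^ N / 2 * ∑ k ∈ range (N + 1), wt N k * K k N -
      (-1 : ℝ) ^ N / 2 * ∑ k ∈ range (N + 1), wt N k * K k (N + 1) := by
    rw [mul_sum, mul_sum, ← sum_add_distrib, ← sum_sub_distrib]
    exact sum_congr rfl fun k _ => by ring
  rw [h7, h2]
  linear_combination ((1 - e) / 2) * sgn_sq N

theorem ss_one {K : ℕ → ℕ → ℝ} {e : ℝ} (h1 : ∀ k, K k k = 1) (hs : ∀ k j, K k j = K j k)
    (he : K 0 1 = e) : SS K 1 = (1 - e) / 2 ∧ UU K 1 = (1 - e) / 2 := by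
  have w0 : wt 1 0 = 1 / 2 := by simp [wt]
  have w1 : wt 1 1 = -1 / 2 := by
    unfold wt
    rw [if_neg one_ne_zero, if_pos rfl]
    norm_num
  constructor
  · unfold SS
    simp only [sum_range_succ, sum_range_zero, w0, w1, h1, hs 1 0, he]
    ring
  · unfold UU
    simp only [sum_range_succ, sum_range_zero, w0, w1, h1, he]
    ring

/-- the bound of the energy and of the potential at the last point -/
theorem star_ind {K : ℕ → ℕ → ℝ} {e : ℕ → ℝ} (h1 : ∀ k, K k k = 1) (hs : ∀ k j, K k j = K j k)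
    {M : ℕ} (he : ∀ N < M, ∀ k ≤ N, K k (N + 1) = e N * K k N) (hpos : ∀ N < M, 0 < e N)
    (hlt : ∀ N < M, e N < 1) (N : ℕ) (hN : N + 1 ≤ M) :
    SS K (N + 1) + UU K (N + 1) ^ 2 ≤ 3 / 4 - e 0 + e 0 ^ 2 / 4 +
      ∑ k ∈ range N, (1 - e (k + 1)) / (1 + e (k + 1)) := by
  induction N with
  | zero =>
    have he0 : K 0 1 = e 0 := by rw [he 0 (by omega) 0 le_rfl, h1, mul_one]
    obtain ⟨a, b⟩ := ss_one h1 hs he0
    rw [a, b, sum_range_zero]
    nlinarith
  | succ N ih =>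
    have h2 := ih (by omega)
    have h3 := he (N + 1) (by omega)
    have h4 := hpos (N + 1) (by omega)
    have h5 := hlt (N + 1) (by omega)
    rw [ss_succ (by omega) h1 hs h3, uu_succ (by omega) h1 h3, sum_range_succ]
    set u := UU K (N + 1) with hu
    set q := e (N + 1) with hq
    have key : (1 - q) / (1 + q) + u ^ 2 - ((1 - q) / 2 + u * (1 - q) +
        ((1 - q) / 2 - q * u) ^ 2) =
        (1 - q ^ 2) * (u - (1 - q) / (2 * (1 + q))) ^ 2 := by
      have : (1 + q) ≠ 0 := by positivity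
      field_simp
      ring
    have h6 : 0 ≤ (1 - q ^ 2) * (u - (1 - q) / (2 * (1 + q))) ^ 2 :=
      mul_nonneg (by nlinarith) (sq_nonneg _)
    linarith

/-- the inequality with both ends -/
theorem star_all {K : ℕ → ℕ → ℝ} {e : ℕ → ℝ} (h1 : ∀ k, K k k = 1) (hs : ∀ k j, K k j = K j k)
    {N : ℕ} (he : ∀ m < N + 2, ∀ k ≤ m, K k (m + 1) = e m * K k m) (hpos : ∀ m < N + 2, 0 < e m)
    (hlt : ∀ m < N + 2, e m < 1) :
    SS K (N + 2) ≤ 3 / 4 - e 0 + e 0 ^ 2 / 4 + (3 / 4 - e (N + 1) + e (N + 1) ^ 2 / 4) +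
      ∑ k ∈ range N, (1 - e (k + 1)) / (1 + e (k + 1)) := by
  have h2 := star_ind h1 hs he hpos hlt N (by omega)
  rw [ss_succ (by omega) h1 hs (he (N + 1) (by omega))]
  nlinarith [sq_nonneg (UU K (N + 1) - (1 - e (N + 1)) / 2)]

end Pool.Agent.H89.R18
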