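import Pool.Agent.H89.R18.Fru
import Pool.Agent.H89.R18.Star

/-!
# The sharp bound of the alternating energy by the gaps (KXG)
-/

set_option autoImplicit false

open Finset Topology Filter

namespace Pool.Agent.H89.R18

open Pool.Agent.H86.IR

theorem wt_sum (N : ℕ) : ∑ k ∈ range (N + 1 + 1), wt (N + 1) k = 0 := by
  induction N with
  | zero => norm_num [sum_range_succ, wt]
  | succ N ih =>
    rw [sum_range_succ, wt_last]
    have h := sum_succ (N := N + 1) (by omega) fun _ => (1 : ℝ)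
    simp only [mul_one] at h
    rw [h, ih]
    ring

theorem wt_sq (N : ℕ) : ∑ k ∈ range (N + 1 + 1), wt (N + 1) k * wt (N + 1) k = N + 1 / 2 := by
  induction N with
  | zero => norm_num [sum_range_succ, wt]
  | succ N ih =>
    rw [sum_range_succ, wt_last]
    have h2 : ∑ k ∈ range (N + 1 + 1), wt (N + 1 + 1) k * wt (N + 1 + 1) k =
        ∑ k ∈ range (N + 1 + 1), (wt (N + 1) k * wt (N + 1) k +
          (if k = N + 1 then 3 / 4 else 0)) := by
      refine sum_congr rfl fun k hk => ?_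
      rw [wt_succ (by omega) hk]
      by_cases h1 : k = N + 1
      · subst h1
        rw [if_pos rfl, if_pos rfl]
        have : wt (N + 1) (N + 1) = (-1 : ℝ) ^ (N + 1) / 2 := by
          unfold wt
          rw [if_neg (by omega), if_pos rfl]
        rw [this]
        linear_combination (3 / 4) * sgn_sq (N + 1)
      · rw [if_neg h1, if_neg h1]
        ring
    rw [h2, sum_add_distrib, ih, sum_ite_eq' (range (N + 1 + 1)) (N + 1), if_pos (by simp)]
    push_cast
    linear_combination (1 / 4) * sgn_sq (N + 1)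

theorem tau_eq {e : ℝ} (h0 : 0 < e) (M : ℕ) :
    1 + (∑ m ∈ range M, ((-2) * e ^ (2 * m + 1) + 2 * e ^ (2 * m + 2)) + (-1) * e ^ (2 * M + 1)) =
      (1 - e) / (1 + e) * (1 + e ^ (2 * M + 1)) := by
  induction M with
  | zero =>
    have : 1 + e ≠ 0 := by positivity
    simp only [range_zero, sum_empty, mul_zero, zero_add, pow_one]
    field_simp
    ring
  | succ M ih =>
    rw [sum_range_succ]
    have : 1 + e ≠ 0 := by positivity
    have h2 : (1 - e) / (1 + e) * (1 + e ^ (2 * (M + 1) + 1)) =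
        (1 - e) / (1 + e) * (1 + e ^ (2 * M + 1)) - e ^ (2 * M + 1) * (1 - e) ^ 2 := by
      field_simp
      ring
    rw [h2, ← ih]
    ring

theorem tau_le {e : ℝ} (h0 : 0 < e) (h1 : e < 1) (M : ℕ) :
    (1 - e) / (1 + e) ≤ 1 + (∑ m ∈ range M, ((-2) * e ^ (2 * m + 1) + 2 * e ^ (2 * m + 2)) +
      (-1) * e ^ (2 * M + 1)) := by
  rw [tau_eq h0]
  have h2 : 0 ≤ (1 - e) / (1 + e) := div_nonneg (by linarith) (by linarith)
  have h3 : 0 < e ^ (2 * M + 1) := by positivity
  nlinarith

theorem exp_pow (g t : ℝ) (m : ℕ) : Real.exp (-(g * t)) ^ m = Real.exp (-(m * g * t)) := by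
  rw [← Real.exp_nat_mul]
  congr 1
  ring

theorem kxg_fin (N M : ℕ) (x : ℕ → ℝ) (hx : ∀ i j, i < j → j ≤ N + 2 → x i < x j) :
    (-1 * Real.log (x 1 - x 0) + 1 / 4 * Real.log (2 * (x 1 - x 0))) +
    (-1 * Real.log (x (N + 2) - x (N + 1)) + 1 / 4 * Real.log (2 * (x (N + 2) - x (N + 1)))) +
    ∑ k ∈ range N, (∑ m ∈ range M, ((-2) * Real.log (((2 * m + 1 : ℕ) : ℝ) * (x (k + 2) - x (k + 1)))
      + 2 * Real.log (((2 * m + 2 : ℕ) : ℝ) * (x (k + 2) - x (k + 1)))) +
      (-1) * Real.log (((2 * M + 1 : ℕ) : ℝ) * (x (k + 2) - x (k + 1)))) +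
    (-1) * ∑ k ∈ range (N + 3), ∑ j ∈ range (N + 3),
      wt (N + 2) k * wt (N + 2) j * Real.log |x k - x j| ≤ 0 := by
  have hg : ∀ k < N + 2, 0 < x (k + 1) - x k := fun k hk =>
    sub_pos.2 (hx k (k + 1) (by omega) (by omega))
  have r1 : ∀ g : ℝ, 0 < g → Rep (fun t => -1 * Real.exp (-(g * t)) + 1 / 4 *
      Real.exp (-(2 * g * t))) (-1 + 1 / 4) (-1 * Real.log g + 1 / 4 * Real.log (2 * g)) :=
    fun g hg => rep_add (rep_exp hg _) (rep_exp (by positivity) _)
  have r2 : ∀ g : ℝ, 0 < g → Rep (fun t => ∑ m ∈ range M,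
      ((-2) * Real.exp (-(((2 * m + 1 : ℕ) : ℝ) * g * t)) +
        2 * Real.exp (-(((2 * m + 2 : ℕ) : ℝ) * g * t))) +
      (-1) * Real.exp (-(((2 * M + 1 : ℕ) : ℝ) * g * t)))
      (∑ m ∈ range M, ((-2 : ℝ) + 2) + (-1))
      (∑ m ∈ range M, ((-2) * Real.log (((2 * m + 1 : ℕ) : ℝ) * g)
      + 2 * Real.log (((2 * m + 2 : ℕ) : ℝ) * g)) + (-1) * Real.log (((2 * M + 1 : ℕ) : ℝ) * g)) := by
    intro g hg
    refine rep_add (rep_sum (range M) fun m _ => rep_add (rep_exp ?_ _) (rep_exp ?_ _))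
      (rep_exp ?_ _) <;> positivity
  have r3 : Rep (fun t => (-1) * ∑ k ∈ range (N + 3), ∑ j ∈ range (N + 3),
      wt (N + 2) k * wt (N + 2) j * (if k = j then 0 else Real.exp (-(|x k - x j| * t))))
      ((-1) * ∑ k ∈ range (N + 3), ∑ j ∈ range (N + 3),
        wt (N + 2) k * wt (N + 2) j * (if k = j then 0 else 1))
      ((-1) * ∑ k ∈ range (N + 3), ∑ j ∈ range (N + 3),
        wt (N + 2) k * wt (N + 2) j * Real.log |x k - x j|) := by
    refine rep_mul (rep_sum _ fun k hk => rep_sum _ fun j hj => ?_) _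
    by_cases hkj : k = j
    · subst hkj
      simp only [if_true, mul_zero, sub_self, abs_zero, Real.log_zero]
      exact rep_zero
    · simp only [if_neg hkj, mul_one]
      refine rep_exp ?_ _
      rw [mem_range] at hk hj
      rw [abs_pos, sub_ne_zero]
      rcases lt_or_gt_of_ne hkj with h | h
      · exact (hx k j h (by omega)).ne
      · exact (hx j k h (by omega)).ne'
  have r := rep_add (rep_add (rep_add (r1 (x 1 - x 0) (hg 0 (by omega)))
    (r1 (x (N + 2) - x (N + 1)) (hg (N + 1) (by omega))))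
    (rep_sum (range N) fun k hk => r2 (x (k + 2) - x (k + 1))
      (hg (k + 1) (by rw [mem_range] at hk; omega)))) r3
  have hA : (-1 + 1 / 4 + (-1 + 1 / 4) + ∑ k ∈ range N, (∑ m ∈ range M, ((-2 : ℝ) + 2) + (-1)) +
      (-1) * ∑ k ∈ range (N + 3), ∑ j ∈ range (N + 3),
        wt (N + 2) k * wt (N + 2) j * (if k = j then 0 else 1)) = 0 := by
    have h1 : ∑ k ∈ range (N + 3), ∑ j ∈ range (N + 3),
        wt (N + 2) k * wt (N + 2) j * (if k = j then (0 : ℝ) else 1) =
        (∑ k ∈ range (N + 3), wt (N + 2) k) * (∑ j ∈ range (N + 3), wt (N + 2) j) -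
        ∑ k ∈ range (N + 3), wt (N + 2) k * wt (N + 2) k := by
      rw [sum_mul_sum, ← sum_sub_distrib]
      refine sum_congr rfl fun k hk => ?_
      have : ∀ j ∈ range (N + 3), wt (N + 2) k * wt (N + 2) j * (if k = j then (0 : ℝ) else 1) =
          wt (N + 2) k * wt (N + 2) j - (if k = j then wt (N + 2) k * wt (N + 2) j else 0) := by
        intro j _
        by_cases h : k = j
        · rw [if_pos h, if_pos h]
          ring
        · rw [if_neg h, if_neg h]
          ring
      rw [sum_congr rfl this, sum_sub_distrib, sum_ite_eq (range (N + 3)) k, if_pos hk]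
    rw [h1, wt_sum (N + 1), wt_sq (N + 1)]
    simp only [neg_add_cancel, sum_const_zero, zero_add, sum_const, card_range, nsmul_eq_mul]
    push_cast
    ring
  rw [hA] at r
  refine fru r fun t ht => ?_
  -- the inequality for the kernel
  have h1 : ∀ k, (fun k j => Real.exp (-(|x k - x j| * t))) k k = 1 := by
    intro k
    simp
  have hs : ∀ k j, (fun k j => Real.exp (-(|x k - x j| * t))) k j =
      (fun k j => Real.exp (-(|x k - x j| * t))) j k := by
    intro k j
    simp only
    rw [abs_sub_comm]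
  have he : ∀ m < N + 2, ∀ k ≤ m, (fun k j => Real.exp (-(|x k - x j| * t))) k (m + 1) =
      Real.exp (-((x (m + 1) - x m) * t)) *
        (fun k j => Real.exp (-(|x k - x j| * t))) k m := by
    intro m hm k hk
    simp only
    rw [← Real.exp_add]
    congr 1
    have h3 : x k ≤ x m := by
      rcases hk.eq_or_lt with h | h
      · rw [h]
      · exact (hx k m h (by omega)).le
    have h4 := hg m hm
    rw [abs_of_nonpos (by linarith), abs_of_nonpos (by linarith)]
    ring
  have hlt : ∀ m < N + 2, Real.exp (-((x (m + 1) - x m) * t)) < 1 := by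
    intro m hm
    rw [Real.exp_lt_one_iff]
    have := mul_pos (hg m hm) ht
    linarith
  have hall := star_all (K := fun k j => Real.exp (-(|x k - x j| * t)))
    (e := fun m => Real.exp (-((x (m + 1) - x m) * t))) h1 hs he (fun m _ => Real.exp_pos _) hlt
  have hS : SS (fun k j => Real.exp (-(|x k - x j| * t))) (N + 2) =
      (N + 1 : ℕ) + 1 / 2 + ∑ k ∈ range (N + 3), ∑ j ∈ range (N + 3),
      wt (N + 2) k * wt (N + 2) j * (if k = j then 0 else Real.exp (-(|x k - x j| * t))) := by
    unfold SS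
    rw [← wt_sq (N + 1), ← sum_add_distrib]
    refine sum_congr rfl fun k hk => ?_
    have : ∀ j ∈ range (N + 3), wt (N + 2) k * wt (N + 2) j * Real.exp (-(|x k - x j| * t)) =
        (if k = j then wt (N + 2) k * wt (N + 2) j else 0) +
        wt (N + 2) k * wt (N + 2) j * (if k = j then 0 else Real.exp (-(|x k - x j| * t))) := by
      intro j _
      by_cases h : k = j
      · subst h
        simp
      · rw [if_neg h, if_neg h]
        ring
    rw [sum_congr rfl this, sum_add_distrib, sum_ite_eq (range (N + 3)) k, if_pos hk]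
  rw [hS] at hall
  have htau : ∑ k ∈ range N, (1 - Real.exp (-((x (k + 1 + 1) - x (k + 1)) * t))) /
      (1 + Real.exp (-((x (k + 1 + 1) - x (k + 1)) * t))) ≤
      N + ∑ k ∈ range N, (∑ m ∈ range M,
      ((-2) * Real.exp (-(((2 * m + 1 : ℕ) : ℝ) * (x (k + 2) - x (k + 1)) * t)) +
        2 * Real.exp (-(((2 * m + 2 : ℕ) : ℝ) * (x (k + 2) - x (k + 1)) * t))) +
      (-1) * Real.exp (-(((2 * M + 1 : ℕ) : ℝ) * (x (k + 2) - x (k + 1)) * t))) := by
    have e1 : (N : ℝ) = ∑ k ∈ range N, (1 : ℝ) := by simp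
    rw [e1, ← sum_add_distrib]
    refine sum_le_sum fun k hk => ?_
    have hk' : k + 1 < N + 2 := by rw [mem_range] at hk; omega
    have h5 := tau_le (Real.exp_pos _) (hlt (k + 1) hk') M
    simp only [exp_pow] at h5
    exact h5
  have e2 : Real.exp (-((x (0 + 1) - x 0) * t)) ^ 2 = Real.exp (-(2 * (x 1 - x 0) * t)) := by
    rw [exp_pow]
    norm_num
  have e3 : Real.exp (-((x (N + 1 + 1) - x (N + 1)) * t)) ^ 2 =
      Real.exp (-(2 * (x (N + 2) - x (N + 1)) * t)) := by
    rw [exp_pow]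
    norm_num
  simp only [e2, e3, zero_add] at hall
  push_cast at hall htau ⊢
  linarith

/-- KXG -/
theorem kxg (N : ℕ) (x : ℕ → ℝ) (hx : ∀ i j, i < j → j ≤ N + 2 → x i < x j) :
    -(∑ k ∈ range (N + 3), ∑ j ∈ range (N + 3),
      wt (N + 2) k * wt (N + 2) j * Real.log |x k - x j|) ≤
    ∑ k ∈ range N, Real.log (2 / Real.pi * (x (k + 2) - x (k + 1))) +
      3 / 4 * (Real.log (x 1 - x 0) + Real.log (x (N + 2) - x (N + 1))) -
      1 / 2 * Real.log 2 := by
  have hg : ∀ k < N + 2, 0 < x (k + 1) - x k := fun k hk =>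
    sub_pos.2 (hx k (k + 1) (by omega) (by omega))
  set E := ∑ k ∈ range (N + 3), ∑ j ∈ range (N + 3),
      wt (N + 2) k * wt (N + 2) j * Real.log |x k - x j| with hE
  have hW : ∀ (M : ℕ) (g : ℝ), 0 < g →
      ∑ m ∈ range M, ((-2) * Real.log (((2 * m + 1 : ℕ) : ℝ) * g)
      + 2 * Real.log (((2 * m + 2 : ℕ) : ℝ) * g)) + (-1) * Real.log (((2 * M + 1 : ℕ) : ℝ) * g) =
      Real.log (Real.Wallis.W M) - Real.log g := by
    intro M g hg
    induction M with
    | zero => simp [Real.Wallis.W]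
    | succ M ih =>
      have e0 : Real.log ((2 * (M : ℝ) + 2) / (2 * M + 1) * ((2 * M + 2) / (2 * M + 3))) =
          2 * Real.log (2 * M + 2) - Real.log (2 * M + 1) - Real.log (2 * M + 3) := by
        rw [Real.log_mul (by positivity) (by positivity),
          Real.log_div (by positivity) (by positivity),
          Real.log_div (by positivity) (by positivity)]
        ring
      rw [sum_range_succ, Real.Wallis.W_succ, Real.log_mul (Real.Wallis.W_pos M).ne' (by positivity),
        e0]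
      have e1 : Real.log (((2 * M + 1 : ℕ) : ℝ) * g) = Real.log (2 * M + 1) + Real.log g := by
        rw [Real.log_mul (by positivity) hg.ne']
        push_cast
        rfl
      have e2 : Real.log (((2 * M + 2 : ℕ) : ℝ) * g) = Real.log (2 * M + 2) + Real.log g := by
        rw [Real.log_mul (by positivity) hg.ne']
        push_cast
        rfl
      have e3 : Real.log (((2 * (M + 1) + 1 : ℕ) : ℝ) * g) = Real.log (2 * M + 3) + Real.log g := by
        rw [Real.log_mul (by positivity) hg.ne']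
        push_cast
        ring_nf
      rw [e1] at ih
      rw [e1, e2, e3]
      linarith
  have h1 : ∀ M : ℕ, (N : ℝ) * Real.log (Real.Wallis.W M) +
      ((-1 * Real.log (x 1 - x 0) + 1 / 4 * Real.log (2 * (x 1 - x 0))) +
      (-1 * Real.log (x (N + 2) - x (N + 1)) + 1 / 4 * Real.log (2 * (x (N + 2) - x (N + 1)))) -
      ∑ k ∈ range N, Real.log (x (k + 2) - x (k + 1)) - E) ≤ 0 := by
    intro M
    have h2 := kxg_fin N M x hx
    have h3 : ∑ k ∈ range N, (∑ m ∈ range M,
        ((-2) * Real.log (((2 * m + 1 : ℕ) : ℝ) * (x (k + 2) - x (k + 1)))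
        + 2 * Real.log (((2 * m + 2 : ℕ) : ℝ) * (x (k + 2) - x (k + 1)))) +
        (-1) * Real.log (((2 * M + 1 : ℕ) : ℝ) * (x (k + 2) - x (k + 1)))) =
        (N : ℝ) * Real.log (Real.Wallis.W M) - ∑ k ∈ range N, Real.log (x (k + 2) - x (k + 1)) := by
      rw [sum_congr rfl fun k hk => hW M (x (k + 2) - x (k + 1))
        (hg (k + 1) (by rw [mem_range] at hk; omega)), sum_sub_distrib]
      simp
    rw [h3] at h2
    linarith
  have h2 : Tendsto (fun M : ℕ => (N : ℝ) * Real.log (Real.Wallis.W M) +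
      ((-1 * Real.log (x 1 - x 0) + 1 / 4 * Real.log (2 * (x 1 - x 0))) +
      (-1 * Real.log (x (N + 2) - x (N + 1)) + 1 / 4 * Real.log (2 * (x (N + 2) - x (N + 1)))) -
      ∑ k ∈ range N, Real.log (x (k + 2) - x (k + 1)) - E)) atTop
      (𝓝 ((N : ℝ) * Real.log (Real.pi / 2) +
      ((-1 * Real.log (x 1 - x 0) + 1 / 4 * Real.log (2 * (x 1 - x 0))) +
      (-1 * Real.log (x (N + 2) - x (N + 1)) + 1 / 4 * Real.log (2 * (x (N + 2) - x (N + 1)))) -
      ∑ k ∈ range N, Real.log (x (k + 2) - x (k + 1)) - E))) := by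
    refine Tendsto.add_const _ (Tendsto.const_mul _ ?_)
    exact ((Real.continuousAt_log (by positivity)).tendsto.comp
      Real.Wallis.tendsto_W_nhds_pi_div_two)
  have h3 := le_of_tendsto' h2 h1
  have h4 : ∑ k ∈ range N, Real.log (2 / Real.pi * (x (k + 2) - x (k + 1))) =
      -((N : ℝ) * Real.log (Real.pi / 2)) + ∑ k ∈ range N, Real.log (x (k + 2) - x (k + 1)) := by
    rw [sum_congr rfl fun k hk => Real.log_mul (by positivity)
      (hg (k + 1) (by rw [mem_range] at hk; omega)).ne', sum_add_distrib]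
    simp only [sum_const, card_range, nsmul_eq_mul]
    rw [← inv_div Real.pi 2, Real.log_inv]
    ring
  rw [Real.log_mul two_ne_zero (hg 0 (by omega)).ne',
    Real.log_mul two_ne_zero (hg (N + 1) (by omega)).ne'] at h3
  rw [h4]
  linarith

end Pool.Agent.H89.R18
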