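import Pool.Agent.H86.IR.Targets2
import Pool.Agent.H89.R18.Kxg

/-!
# The upper bound for every pole system, in terms of the energy inequality
-/

set_option autoImplicit false

open Finset

namespace Pool.Agent.H89.R18

open Pool.Agent.H86.IR

/-- `t - 1 - log t` -/
noncomputable def phi (t : ℝ) : ℝ := t - 1 - Real.log t

/-- the defect of the poles `x 0 < … < x (n - 1)` of the segment `[-1, 1]` -/
noncomputable def defect (n : ℕ) (x : ℕ → ℝ) : ℝ :=
  ∑ k ∈ range (n - 1), phi (n * (x (k + 1) - x k) / 2) + n * (2 - (x (n - 1) - x 0))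

theorem phi_nonneg {t : ℝ} (ht : 0 < t) : 0 ≤ phi t := by
  have := Real.log_le_sub_one_of_pos ht
  unfold phi
  linarith

/-- the bound for `m` poles on a segment of length `L` -/
theorem pbl (hEIB : T_EIB) (hNUM : T_NUM) {m : ℕ} (hm : 2 ≤ m) {y δ : ℕ → ℝ} (h : EI m y δ)
    {L : ℝ} (hL : 0 < L) (hy : y (m - 1) - y 0 ≤ L) :
    ∑ k ∈ range m, δ k ≤ Real.log (10 ^ 5) + m * Real.log (4 / (Real.pi * m)) +
      m * Real.log (L / 2) := by
  have hm0 : (0 : ℝ) < m := by
    have : (2 : ℝ) ≤ m := by exact_mod_cast hm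
    linarith
  have h1 := (hEIB m y δ h).2.2.1 (2 / L) (by positivity)
  have h2 := hNUM m hm _ _ h1 (by
    show 2 / L * y (m - 1) - 2 / L * y 0 ≤ 2
    rw [← mul_sub, div_mul_eq_mul_div, div_le_iff₀ hL]
    linarith)
  rw [sum_add_distrib] at h2
  simp only [sum_const, card_range, nsmul_eq_mul] at h2
  rw [← inv_div L 2, Real.log_inv] at h2
  linarith

theorem log_frac_le {m n : ℝ} (hm : 0 < m) (hmn : m ≤ n) :
    m * Real.log (4 / (Real.pi * m)) ≤ m * Real.log (4 / (Real.pi * n)) + (n - m) := by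
  have hn : 0 < n := by linarith
  have hpi := Real.pi_pos
  have h1 : Real.log (4 / (Real.pi * m)) = Real.log (4 / (Real.pi * n)) + Real.log (n / m) := by
    rw [← Real.log_mul (by positivity) (by positivity)]
    congr 1
    field_simp
  have h2 := Real.log_le_sub_one_of_pos (div_pos hn hm)
  rw [h1, mul_add]
  have h3 : m * Real.log (n / m) ≤ m * (n / m - 1) := mul_le_mul_of_nonneg_left h2 hm.le
  have h4 : m * (n / m - 1) = n - m := by field_simp
  linarith

/-- a lower bound for a single radius -/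
theorem gam_ge (hEIB : T_EIB) (hNUM : T_NUM) {n : ℕ} (hn : 3 ≤ n) {x γ : ℕ → ℝ} (h : EI n x γ)
    (hx : x (n - 1) - x 0 ≤ 2) {m : ℕ} (hm : m < n) :
    ∑ k ∈ range n, γ k - Real.log (10 ^ 5) - (n - 1) * Real.log (4 / (Real.pi * n)) - 1 ≤ γ m := by
  obtain ⟨h1, h2⟩ := (hEIB n x γ h).2.1 m hm
  have hlen : skip m x (n - 1 - 1) - skip m x 0 ≤ 2 := by
    have ha : skip m x (n - 1 - 1) ≤ x (n - 1) := by
      unfold skip
      split_ifs with h3
      · exact (h.1 _ _ (by omega) (by omega)).le
      · rw [show n - 1 - 1 + 1 = n - 1 by omega]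
    have hb : x 0 ≤ skip m x 0 := by
      unfold skip
      split_ifs with h3
      · exact le_rfl
      · exact (h.1 _ _ (by omega) (by omega)).le
    linarith
  have h3 := hNUM (n - 1) (by omega) _ _ h1 hlen
  rw [h2] at h3
  have hn' : (3 : ℝ) ≤ n := by exact_mod_cast hn
  have hc : ((n - 1 : ℕ) : ℝ) = n - 1 := by
    rw [Nat.cast_sub (by omega)]
    simp
  rw [hc] at h3
  have h4 := log_frac_le (m := (n : ℝ) - 1) (n := n) (by linarith) (by linarith)
  linarith

theorem log_two_gt : 0.6931 < Real.log 2 := by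
  have := Real.log_two_gt_d9
  linarith

theorem log_two_lt : Real.log 2 < 0.6932 := by
  have := Real.log_two_lt_d9
  linarith

theorem log_big : 11.49 < Real.log (10 ^ 5) := by
  have h1 : (199 : ℝ) * Real.log 2 ≤ 12 * Real.log (10 ^ 5) := by
    rw [← Real.log_rpow two_pos, ← Real.log_rpow (by norm_num : (0 : ℝ) < 10 ^ 5)]
    apply Real.log_le_log (by positivity)
    rw [show (199 : ℝ) = ((199 : ℕ) : ℝ) by norm_num, show (12 : ℝ) = ((12 : ℕ) : ℝ) by norm_num,
      Real.rpow_natCast, Real.rpow_natCast]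
    norm_num
  have h2 := Real.log_two_gt_d9
  generalize Real.log (10 ^ 5) = v at *
  linarith

theorem log_pi_two : Real.log (Real.pi / 2) < 0.4521 := by
  -- π / 2 < 1.5708 and log 1.5708 = log 2 - log (2 / 1.5708)
  have h1 := Real.pi_lt_d4
  have h2 : Real.log (Real.pi / 2) ≤ Real.log 1.5708 :=
    Real.log_le_log (by positivity) (by linarith)
  have h3 : Real.log 1.5708 * 23 ≤ 15 * Real.log 2 := by
    rw [mul_comm, ← Real.log_rpow (by norm_num), ← Real.log_rpow two_pos]
    apply Real.log_le_log (by positivity)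
    rw [show (23 : ℝ) = ((23 : ℕ) : ℝ) by norm_num, show (15 : ℝ) = ((15 : ℕ) : ℝ) by norm_num,
      Real.rpow_natCast, Real.rpow_natCast]
    norm_num
  have h4 := Real.log_two_lt_d9
  linarith

/-- the first gap -/
theorem first_gap (hEIB : T_EIB) (hNUM : T_NUM) {n : ℕ} (hn : 3 ≤ n) {x γ : ℕ → ℝ}
    (h : EI n x γ) (hx : x (n - 1) - x 0 ≤ 2) :
    6 * Real.log (n * (x 1 - x 0) / 2) ≤
      Real.log (10 ^ 5) - (∑ k ∈ range n, γ k - n * Real.log (4 / (Real.pi * n))) + 17.1 := by
  have hpi := Real.pi_pos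
  have hg : 0 < x 1 - x 0 := sub_pos.2 (h.1 0 1 (by omega) (by omega))
  have hn' : (3 : ℝ) ≤ n := by exact_mod_cast hn
  have hup := hNUM n (by omega) x γ h hx
  rcases eq_or_lt_of_le hn with h3 | h4
  · -- three poles
    subst h3
    have hg2 : x 1 - x 0 ≤ 2 := by
      have := h.1 1 2 (by omega) (by omega)
      simp only [Nat.reduceSub] at hx
      linarith
    have h5 : Real.log (((3 : ℕ) : ℝ) * (x 1 - x 0) / 2) ≤ ((3 : ℕ) : ℝ) * (x 1 - x 0) / 2 - 1 :=
      Real.log_le_sub_one_of_pos (by positivity)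
    push_cast at h5 hup ⊢
    linarith
  · have h4' : (4 : ℝ) ≤ n := by exact_mod_cast h4
    obtain ⟨p, rfl⟩ : ∃ p, n = p + 2 := ⟨n - 2, by omega⟩
    have h5 := ((hEIB _ x γ h).2.1 0 (by omega)).1
    have h6 := ((hEIB _ _ _ h5).2.1 0 (by omega)).1
    simp only [Nat.add_one_sub_one] at h6
    have e1 : ∀ y : ℕ → ℝ, skip 0 (skip 0 y) = fun k => y (k + 2) := by
      intro y
      funext k
      simp [skip]
    rw [e1, e1] at h6
    have h7 : x (p - 1 + 2) - x (0 + 2) ≤ 2 - (x 1 - x 0) := by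
      have a1 := h.1 1 2 (by omega) (by omega)
      have a2 : p - 1 + 2 = p + 2 - 1 := by omega
      rw [a2]
      simp only [zero_add]
      linarith
    have hL : 0 < 2 - (x 1 - x 0) := by
      have a1 := h.1 1 (p + 2 - 1) (by omega) (by omega)
      linarith
    have h8 := pbl hEIB hNUM (m := p) (by omega) h6 hL h7
    have h9 := (hEIB _ x γ h).1 0 1 (by omega) (by omega)
    have h10 : ∑ k ∈ range (p + 2), γ k = ∑ k ∈ range p, γ (k + 2) + γ 1 + γ 0 := by
      rw [sum_range_succ', sum_range_succ']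
    have hp : (2 : ℝ) ≤ p := by
      push_cast at h4'
      linarith
    have hc : ((p + 2 : ℕ) : ℝ) = (p : ℝ) + 2 := by push_cast; ring
    rw [hc] at hup ⊢
    have h11 := log_frac_le (m := p) (n := (p : ℝ) + 2) (by linarith) (by linarith)
    set b := Real.log (4 / (Real.pi * ((p : ℝ) + 2))) with hb
    set g := x 1 - x 0 with hgdef
    -- log g in terms of t
    have h12 : Real.log g = b + Real.log (Real.pi / 2) + Real.log (((p : ℝ) + 2) * g / 2) := by
      rw [hb, ← Real.log_mul (by positivity) (by positivity),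
        ← Real.log_mul (by positivity) (by positivity)]
      congr 1
      field_simp
      ring
    set t := ((p : ℝ) + 2) * g / 2 with ht
    have htpos : 0 < t := by positivity
    have h13 : Real.log ((2 - g) / 2) ≤ (2 - g) / 2 - 1 :=
      Real.log_le_sub_one_of_pos (by positivity)
    have h14 : (p : ℝ) * Real.log ((2 - g) / 2) ≤ -(t / 2) := by
      have a1 : (p : ℝ) * Real.log ((2 - g) / 2) ≤ p * ((2 - g) / 2 - 1) :=
        mul_le_mul_of_nonneg_left h13 (by linarith)
      have a2 : (p : ℝ) * ((2 - g) / 2 - 1) = -(p * g / 2) := by ring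
      have a3 : t / 2 ≤ p * g / 2 := by
        rw [ht]
        nlinarith
      linarith
    have h15 : Real.log t ≤ t / 16 + 4 * Real.log 2 - 1 := by
      have a1 := Real.log_le_sub_one_of_pos (show 0 < t / 16 by positivity)
      have a2 : Real.log (t / 16) = Real.log t - 4 * Real.log 2 := by
        rw [Real.log_div htpos.ne' (by norm_num), show (16 : ℝ) = 2 ^ 4 by norm_num, Real.log_pow]
        norm_num
      linarith
    have h16 := log_pi_two
    have h17 := log_two_lt
    rw [h10]
    rw [h10] at hup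
    nlinarith

end Pool.Agent.H89.R18
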