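import Pool.Agent.H89.R18.Cfg
import Pool.Agent.H89.R18.Up

/-!
# The lower bound for every pole system
-/

set_option autoImplicit false

open Finset

namespace Pool.Agent.H89.R18

open Pool.Agent.H86.IR

theorem sin_ge {u : ℝ} (h0 : 0 < u) (h1 : u < 1) : (4 * u * (1 - u)) ^ 2 ≤ Real.sin (Real.pi * u) := by
  have hpi := Real.pi_pos
  set y := 1 - 2 * u with hy
  have e : 4 * u * (1 - u) = 1 - y ^ 2 := by rw [hy]; ring
  rw [e]
  have hy1 : |y| < 1 := by
    rw [abs_lt, hy]
    constructor <;> linarith
  have hy2 : 0 ≤ |y| := abs_nonneg y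
  have hsq : |y| ^ 2 = y ^ 2 := sq_abs y
  by_cases h : y ^ 2 ≤ 3 / 4
  · have h2 : Real.sin (Real.pi * u) = Real.cos (Real.pi * y / 2) := by
      rw [← Real.cos_pi_div_two_sub]
      congr 1
      rw [hy]
      ring
    have h3 := Real.one_sub_sq_div_two_le_cos (x := Real.pi * y / 2)
    have h4 : Real.pi ^ 2 ≤ 10 := by
      have := Real.pi_lt_d2
      nlinarith
    rw [h2]
    refine le_trans ?_ h3
    have h5 : (Real.pi * y / 2) ^ 2 / 2 ≤ 5 / 4 * y ^ 2 := by
      have : (Real.pi * y / 2) ^ 2 / 2 = Real.pi ^ 2 * y ^ 2 / 8 := by ring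
      rw [this]
      nlinarith [sq_nonneg y]
    nlinarith [sq_nonneg y]
  · push Not at h
    -- `1 - |y| ≤ sin (π u)`
    have h2 : 1 - |y| ≤ Real.sin (Real.pi * u) := by
      rcases le_total 0 y with h3 | h3
      · rw [abs_of_nonneg h3]
        have h4 := Real.mul_le_sin (x := Real.pi * u) (by positivity) (by nlinarith)
        have h5 : 2 / Real.pi * (Real.pi * u) = 2 * u := by field_simp
        linarith
      · rw [abs_of_nonpos h3]
        have h4 := Real.mul_le_sin (x := Real.pi * (1 - u))
          (mul_nonneg hpi.le (by linarith)) (by nlinarith)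
        have h5 : 2 / Real.pi * (Real.pi * (1 - u)) = 2 * (1 - u) := by field_simp
        have h6 : Real.sin (Real.pi * (1 - u)) = Real.sin (Real.pi * u) := by
          rw [show Real.pi * (1 - u) = Real.pi - Real.pi * u by ring, Real.sin_pi_sub]
        linarith
    refine le_trans ?_ h2
    have h3 : (1 - y ^ 2) ^ 2 = (1 - |y|) * ((1 - y ^ 2) * (1 + |y|)) := by
      rw [← hsq]
      ring
    rw [h3]
    have h4 : (1 - y ^ 2) * (1 + |y|) ≤ 1 := by nlinarith
    nlinarith

theorem strip_log {s t : ℝ} (hs : 0 < s) (ht : 0 < t) :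
    1 / 2 * (Real.log s + Real.log t) - 3 / 2 * (phi s + phi t) ≤
      Real.log ((s + t) / 2 * Real.sin (Real.pi * (s / (s + t)))) := by
  have hst : 0 < s + t := by positivity
  have hu0 : 0 < s / (s + t) := by positivity
  have hu1 : s / (s + t) < 1 := by
    rw [div_lt_one hst]
    linarith
  have h1 := sin_ge hu0 hu1
  have e : 4 * (s / (s + t)) * (1 - s / (s + t)) = s * t / ((s + t) / 2) ^ 2 := by
    field_simp
    ring
  rw [e] at h1
  have hv : 0 < s * t / ((s + t) / 2) ^ 2 := by positivity
  have h2 : 2 * Real.log (s * t / ((s + t) / 2) ^ 2) ≤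
      Real.log (Real.sin (Real.pi * (s / (s + t)))) := by
    rw [← Nat.cast_ofNat (R := ℝ) (n := 2), ← Real.log_pow]
    exact Real.log_le_log (by positivity) h1
  have hsin : 0 < Real.sin (Real.pi * (s / (s + t))) := lt_of_lt_of_le (by positivity) h1
  have h3 : Real.log (s * t / ((s + t) / 2) ^ 2) =
      Real.log s + Real.log t - 2 * Real.log ((s + t) / 2) := by
    rw [Real.log_div (by positivity) (by positivity), Real.log_mul hs.ne' ht.ne', Real.log_pow]
    norm_num
  have h4 := Real.log_le_sub_one_of_pos (show 0 < (s + t) / 2 by positivity)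
  rw [Real.log_mul (by positivity) hsin.ne']
  unfold phi
  linarith

/-- the walls in the middle of the gaps -/
noncomputable def mid (x : ℕ → ℝ) (k : ℕ) : ℝ := (x (k - 1) + x k) / 2

theorem walls_mid {n : ℕ} {x : ℕ → ℝ} (hx : ∀ i j, i < j → j < n → x i < x j) :
    Walls n (mid x) x := by
  refine ⟨fun k h0 hk => ?_, fun k hk => ?_⟩
  · have := hx (k - 1) k (by omega) hk
    unfold mid
    linarith
  · have := hx k (k + 1) (by omega) hk
    unfold mid
    rw [Nat.add_sub_cancel]
    linarith

theorem low_log {N : ℕ} {x : ℕ → ℝ} (hx : ∀ i j, i < j → j < N + 2 → x i < x j)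
    (hL : x (N + 1) - x 0 ≤ 2) :
    2 * Real.log (Real.pi / 2) + (N + 2 : ℕ) * Real.log (4 / (Real.pi * (N + 2 : ℕ))) -
      4 * defect (N + 2) x ≤ ∑ k ∈ range (N + 2), Real.log (gR (N + 2) (mid x) x k) := by
  have hpi := Real.pi_pos
  have hn0 : (0 : ℝ) < ((N + 2 : ℕ) : ℝ) := by positivity
  have hg : ∀ k < N + 1, 0 < x (k + 1) - x k := fun k hk =>
    sub_pos.2 (hx k (k + 1) (by omega) (by omega))
  set nn : ℝ := ((N + 2 : ℕ) : ℝ) with hnn
  set b := Real.log (4 / (Real.pi * nn)) with hb
  set t : ℕ → ℝ := fun k => nn * (x (k + 1) - x k) / 2 with ht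
  have htp : ∀ k < N + 1, 0 < t k := by
    intro k hk
    have := hg k hk
    simp only [ht]
    positivity
  have e0 : Real.log (gR (N + 2) (mid x) x 0) = b + Real.log (Real.pi / 2) + Real.log (t 0) := by
    have := hg 0 (by omega)
    unfold gR mid
    rw [if_pos rfl, hb, ht, ← Real.log_mul (by positivity) (by positivity),
      ← Real.log_mul (by positivity) (by positivity)]
    congr 1
    simp only [Nat.sub_self, zero_add]
    field_simp
    ring
  have e1 : Real.log (gR (N + 2) (mid x) x (N + 1)) =
      b + Real.log (Real.pi / 2) + Real.log (t N) := by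
    have := hg N (by omega)
    unfold gR mid
    rw [if_neg (by omega), if_pos rfl, hb, ht, ← Real.log_mul (by positivity) (by positivity),
      ← Real.log_mul (by positivity) (by positivity)]
    congr 1
    simp only [Nat.add_sub_cancel]
    field_simp
    ring
  have e2 : ∀ k ∈ range N, b + (1 / 2 * (Real.log (t k) + Real.log (t (k + 1))) -
      3 / 2 * (phi (t k) + phi (t (k + 1)))) ≤ Real.log (gR (N + 2) (mid x) x (k + 1)) := by
    intro k hk
    rw [mem_range] at hk
    have h1 := htp k (by omega)
    have h2 := htp (k + 1) (by omega)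
    have h3 := strip_log h1 h2
    have h4 : gR (N + 2) (mid x) x (k + 1) = 4 / (Real.pi * nn) *
        ((t k + t (k + 1)) / 2 * Real.sin (Real.pi * (t k / (t k + t (k + 1))))) := by
      have a1 := hg k (by omega)
      have a2 := hg (k + 1) (by omega)
      have a3 : 0 < x (k + 1 + 1) - x k := by linarith
      have a4 : 0 < x (k + 1 + 1) - x (k + 1) + (x (k + 1) - x k) := by linarith
      have e5 : Real.pi * (x (k + 1) - mid x (k + 1)) / (mid x (k + 1 + 1) - mid x (k + 1)) =
          Real.pi * (t k / (t k + t (k + 1))) := by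
        have b1 : mid x (k + 1 + 1) - mid x (k + 1) = (x (k + 1 + 1) - x k) / 2 := by
          unfold mid
          simp only [Nat.add_sub_cancel]
          ring
        have b2 : x (k + 1) - mid x (k + 1) = (x (k + 1) - x k) / 2 := by
          unfold mid
          simp only [Nat.add_sub_cancel]
          ring
        have b3 : t k + t (k + 1) = nn * (x (k + 1 + 1) - x k) / 2 := by
          simp only [ht]
          ring
        rw [b1, b2, b3]
        simp only [ht]
        field_simp
      unfold gR
      rw [if_neg (by omega), if_neg (by omega), e5]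
      have e6 : 2 * (mid x (k + 1 + 1) - mid x (k + 1)) / Real.pi =
          4 / (Real.pi * nn) * ((t k + t (k + 1)) / 2) := by
        unfold mid
        simp only [Nat.add_sub_cancel, ht]
        field_simp
        ring
      rw [e6]
      ring
    have h5 : 0 < (t k + t (k + 1)) / 2 * Real.sin (Real.pi * (t k / (t k + t (k + 1)))) := by
      apply mul_pos (by positivity)
      apply Real.sin_pos_of_pos_of_lt_pi (by positivity)
      have : t k / (t k + t (k + 1)) < 1 := by
        rw [div_lt_one (by positivity)]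
        linarith
      nlinarith
    rw [h4, Real.log_mul (by positivity) h5.ne', ← hb]
    linarith
  have e3 := sum_le_sum e2
  rw [sum_range_succ, sum_range_succ', e0, e1]
  have e4 : ∑ k ∈ range N, (b + (1 / 2 * (Real.log (t k) + Real.log (t (k + 1))) -
      3 / 2 * (phi (t k) + phi (t (k + 1))))) = N * b +
      (∑ k ∈ range (N + 1), Real.log (t k) - 1 / 2 * Real.log (t 0) - 1 / 2 * Real.log (t N)) -
      3 * (∑ k ∈ range (N + 1), phi (t k) - 1 / 2 * phi (t 0) - 1 / 2 * phi (t N)) := by
    have f : ∀ u : ℕ → ℝ, ∑ k ∈ range N, (u k + u (k + 1)) =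
        2 * ∑ k ∈ range (N + 1), u k - u 0 - u N := by
      intro u
      have f1 := sum_range_succ u N
      have f2 := sum_range_succ' u N
      rw [sum_add_distrib]
      linarith
    rw [sum_add_distrib, sum_sub_distrib, ← mul_sum, ← mul_sum, f fun k => Real.log (t k),
      f fun k => phi (t k)]
    simp only [sum_const, card_range, nsmul_eq_mul]
    ring
  rw [e4] at e3
  have e5 : defect (N + 2) x = ∑ k ∈ range (N + 1), phi (t k) + nn * (2 - (x (N + 1) - x 0)) := rfl
  have e6 : ∑ k ∈ range (N + 1), Real.log (t k) =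
      nn * (x (N + 1) - x 0) / 2 - (N + 1) - ∑ k ∈ range (N + 1), phi (t k) := by
    have f1 : ∑ k ∈ range (N + 1), t k = nn * (x (N + 1) - x 0) / 2 := by
      rw [← sum_range_sub x (N + 1), mul_sum, sum_div]
    rw [← f1]
    unfold phi
    rw [sum_sub_distrib, sum_sub_distrib]
    simp only [sum_const, card_range, nsmul_eq_mul, mul_one]
    push_cast
    ring
  have e7 : 0 ≤ phi (t 0) := phi_nonneg (htp 0 (by omega))
  have e8 : 0 ≤ phi (t N) := phi_nonneg (htp N (by omega))
  have e9 : Real.log (t 0) = t 0 - 1 - phi (t 0) := by unfold phi; ring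
  have e10 : Real.log (t N) = t N - 1 - phi (t N) := by unfold phi; ring
  have e11 := htp 0 (by omega)
  have e12 := htp N (by omega)
  have hNn : nn = (N : ℝ) + 2 := by
    rw [hnn]
    push_cast
    ring
  have hnb : nn * b = N * b + 2 * b := by rw [hNn]; ring
  set w := nn * (2 - (x (N + 1) - x 0)) with hw
  have hw0 : 0 ≤ w := by
    rw [hw]
    exact mul_nonneg hn0.le (by linarith)
  have e13 : nn * (x (N + 1) - x 0) / 2 = nn - w / 2 := by
    rw [hw]
    ring
  have hS : 0 ≤ ∑ k ∈ range (N + 1), phi (t k) :=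
    sum_nonneg fun k hk => phi_nonneg (htp k (by rw [mem_range] at hk; omega))
  rw [e5]
  rw [e6, e13, e9, e10] at e3
  rw [hnb, e9, e10]
  linarith

end Pool.Agent.H89.R18
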