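import Pool.Agent.H89.R18.Up

/-!
# The upper bound for every pole system: main estimate
-/

set_option autoImplicit false

open Finset

namespace Pool.Agent.H89.R18

open Pool.Agent.H86.IR

theorem up_two (hEIB : T_EIB) {x γ : ℕ → ℝ} (h : EI 2 x γ) (hx : x 1 - x 0 ≤ 2) :
    ∑ k ∈ range 2, γ k ≤ Real.log (10 ^ 5) + (2 : ℕ) * Real.log (4 / (Real.pi * (2 : ℕ))) -
      defect 2 x / 4 := by
  have h1 := (hEIB _ x γ h).1 0 1 (by omega) (by omega)
  have hg : 0 < x 1 - x 0 := sub_pos.2 (h.1 0 1 (by omega) (by omega))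
  have hpi := Real.pi_pos
  have h2 : Real.log (4 / (Real.pi * (2 : ℕ))) = -Real.log (Real.pi / 2) := by
    rw [← Real.log_inv]
    congr 1
    push_cast
    field_simp
    norm_num
  have h3 : defect 2 x = 3 - (x 1 - x 0) - Real.log (x 1 - x 0) := by
    unfold defect phi
    simp only [Nat.add_one_sub_one, sum_range_one, zero_add]
    push_cast
    rw [mul_div_assoc, mul_div_cancel₀ _ (two_ne_zero)]
    ring
  have h4 := log_pi_two
  have h5 := log_big
  have h6 := Real.log_le_sub_one_of_pos hg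
  rw [h2, h3, sum_range_succ, sum_range_one]
  push_cast
  generalize Real.log (10 ^ 5) = v at *
  linarith

theorem wt_gam (N : ℕ) (γ : ℕ → ℝ) :
    ∑ k ∈ range (N + 3), wt (N + 2) k ^ 2 * γ k =
      ∑ k ∈ range (N + 3), γ k - 3 / 4 * γ 0 - 3 / 4 * γ (N + 2) := by
  have h : ∀ k ∈ range (N + 3), wt (N + 2) k ^ 2 * γ k = γ k - (if k = 0 then 3 / 4 * γ 0 else 0) -
      (if k = N + 2 then 3 / 4 * γ (N + 2) else 0) := by
    intro k _
    unfold wt
    by_cases h0 : k = 0
    · subst h0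
      rw [if_pos rfl, if_pos rfl, if_neg (by omega)]
      ring
    · rw [if_neg h0, if_neg h0]
      by_cases h1 : k = N + 2
      · subst h1
        rw [if_pos rfl, if_pos rfl]
        linear_combination (γ (N + 2) / 4) * sgn_sq (N + 2)
      · rw [if_neg h1, if_neg h1]
        linear_combination γ k * sgn_sq k
  rw [sum_congr rfl h, sum_sub_distrib, sum_sub_distrib, sum_ite_eq' (range (N + 3)) 0,
    sum_ite_eq' (range (N + 3)) (N + 2), if_pos (by simp), if_pos (by simp)]

theorem up_ei (hEIB : T_EIB) (hNUM : T_NUM) {n : ℕ} (hn : 2 ≤ n) {x γ : ℕ → ℝ} (h : EI n x γ)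
    (hx : x (n - 1) - x 0 ≤ 2) :
    ∑ k ∈ range n, γ k ≤ Real.log (10 ^ 5) + n * Real.log (4 / (Real.pi * n)) -
      defect n x / 4 := by
  rcases eq_or_lt_of_le hn with h2 | h3
  · subst h2
    exact up_two hEIB h hx
  obtain ⟨N, rfl⟩ : ∃ N, n = N + 3 := ⟨n - 3, by omega⟩
  have hpi := Real.pi_pos
  have hn0 : (0 : ℝ) < ((N + 3 : ℕ) : ℝ) := by positivity
  have hg : ∀ k < N + 2, 0 < x (k + 1) - x k := fun k hk =>
    sub_pos.2 (h.1 k (k + 1) (by omega) (by omega))
  -- the inequalities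
  have a1 := h.2 (wt (N + 2)) (wt_sum (N + 1))
  rw [wt_gam] at a1
  have a2 := kxg N x fun i j hij hj => h.1 i j hij (by omega)
  have a3 := (hEIB _ x γ h).1 0 1 (by omega) (by omega)
  have a4 := (hEIB _ x γ h).1 (N + 1) (N + 2) (by omega) (by omega)
  have a5 := gam_ge hEIB hNUM (by omega) h hx (m := 1) (by omega)
  have a6 := gam_ge hEIB hNUM (by omega) h hx (m := N + 1) (by omega)
  have a7 := first_gap hEIB hNUM (by omega) h hx
  have hrefl := (hEIB _ x γ h).2.2.2
  have a8 := first_gap hEIB hNUM (by omega) hrefl (by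
    show -x (N + 3 - 1 - (N + 3 - 1)) - -x (N + 3 - 1 - 0) ≤ 2
    rw [Nat.sub_self, Nat.sub_zero]
    linarith)
  have hsum : ∑ k ∈ range (N + 3), γ (N + 3 - 1 - k) = ∑ k ∈ range (N + 3), γ k :=
    sum_range_reflect γ (N + 3)
  simp only [hsum] at a8
  have e8 : -x (N + 3 - 1 - 1) - -x (N + 3 - 1 - 0) = x (N + 2) - x (N + 1) := by
    rw [show N + 3 - 1 - 1 = N + 1 by omega, show N + 3 - 1 - 0 = N + 2 by omega]
    ring
  rw [e8] at a8
  have hL : 0 < x (N + 3 - 1) - x 0 := sub_pos.2 (h.1 _ _ (by omega) (by omega))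
  have a9 := pbl hEIB hNUM (by omega) h hL le_rfl
  have a10 := Real.log_le_sub_one_of_pos (half_pos hL)
  have e9 : x (N + 3 - 1) = x (N + 2) := rfl
  rw [e9] at a9 a10
  -- the logarithms
  set nn : ℝ := ((N + 3 : ℕ) : ℝ) with hnn
  set b := Real.log (4 / (Real.pi * nn)) with hb
  set lt : ℕ → ℝ := fun k => Real.log (nn * (x (k + 1) - x k) / 2) with hlt
  have e1 : ∀ k < N + 2, Real.log (x (k + 1) - x k) = b + Real.log (Real.pi / 2) + lt k := by
    intro k hk
    have := hg k hk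
    rw [hb, hlt, ← Real.log_mul (by positivity) (by positivity),
      ← Real.log_mul (by positivity) (by positivity)]
    congr 1
    field_simp
    ring
  have e2 : ∀ k < N + 2, Real.log (2 / Real.pi * (x (k + 1) - x k)) = b + lt k := by
    intro k hk
    have := hg k hk
    rw [hb, hlt, ← Real.log_mul (by positivity) (by positivity)]
    congr 1
    field_simp
    ring
  have e3 : ∑ k ∈ range N, Real.log (2 / Real.pi * (x (k + 2) - x (k + 1))) =
      N * b + ∑ k ∈ range N, lt (k + 1) := by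
    rw [sum_congr rfl fun k hk => e2 (k + 1) (by rw [mem_range] at hk; omega), sum_add_distrib]
    simp
  rw [e3] at a2
  have e4 := e1 0 (by omega)
  have e5 := e1 (N + 1) (by omega)
  rw [zero_add] at e4
  rw [show N + 1 + 1 = N + 2 by omega] at e5
  have e6 : Real.log (nn * (x 1 - x 0) / 2) = lt 0 := by
    rw [hlt]
  have e7 : Real.log (nn * (x (N + 2) - x (N + 1)) / 2) = lt (N + 1) := by
    rw [hlt]
  rw [e4, e5] at a2
  rw [e4] at a3
  rw [e5] at a4
  rw [e6] at a7
  rw [e7] at a8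
  -- the defect
  have hNn : nn = (N : ℝ) + 3 := by
    rw [hnn]
    push_cast
    ring
  have e10 : defect (N + 3) x = nn * (x (N + 2) - x 0) / 2 - (N + 2) - (∑ k ∈ range N, lt (k + 1) +
      lt 0 + lt (N + 1)) + nn * (2 - (x (N + 2) - x 0)) := by
    unfold defect phi
    rw [show N + 3 - 1 = N + 2 by omega, sum_sub_distrib, sum_sub_distrib]
    have f1 : ∑ k ∈ range (N + 2), ((N + 3 : ℕ) : ℝ) * (x (k + 1) - x k) / 2 =
        nn * (x (N + 2) - x 0) / 2 := by
      rw [← sum_range_sub x (N + 2), mul_sum, sum_div]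
    have f2 : ∑ k ∈ range (N + 2), Real.log (((N + 3 : ℕ) : ℝ) * (x (k + 1) - x k) / 2) =
        ∑ k ∈ range N, lt (k + 1) + lt 0 + lt (N + 1) := by
      rw [sum_range_succ, sum_range_succ']
    rw [f1, f2]
    simp only [sum_const, card_range, nsmul_eq_mul, mul_one]
    rw [← hnn, show x (N + 2) = x (N + 2) from rfl]
    push_cast
    ring
  have c1 := log_pi_two
  have c2 := log_big
  have c3 := log_two_gt
  have a11 : nn * Real.log ((x (N + 2) - x 0) / 2) ≤ nn * ((x (N + 2) - x 0) / 2 - 1) :=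
    mul_le_mul_of_nonneg_left a10 hn0.le
  have a12 : nn * ((x (N + 2) - x 0) / 2 - 1) = -(nn * (2 - (x (N + 2) - x 0)) / 2) := by ring
  rw [e10]
  set G := ∑ k ∈ range (N + 3), γ k with hG
  set Lm := ∑ k ∈ range N, lt (k + 1) with hLm
  set w := nn * (2 - (x (N + 2) - x 0)) with hw
  have hw0 : 0 ≤ w := by
    rw [hw]
    exact mul_nonneg hn0.le (by rw [e9] at hx; linarith)
  have e11 : nn * (x (N + 2) - x 0) / 2 = nn - w / 2 := by
    rw [hw]
    ring
  rw [e11]
  rw [show N + 1 + 1 = N + 2 by omega] at *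
  generalize Real.log (10 ^ 5) = v at *
  generalize Real.log (Real.pi / 2) = p at *
  generalize Real.log 2 = l2 at *
  have hNb : nn * b = N * b + 3 * b := by rw [hNn]; ring
  have hNb1 : (nn - 1) * b = N * b + 2 * b := by rw [hNn]; ring
  rw [hNb1] at a5 a6
  rw [hNb] at a7 a8 a9 ⊢
  linarith

end Pool.Agent.H89.R18
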