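import Pool.Agent.H86.IR.All
import Pool.Agent.H89.R18.Up2
import Pool.Agent.H89.R18.Low

/-!
# The maximal product of inner radii for every pole system
-/

set_option autoImplicit false

open Complex Topology Filter
open scoped OnePoint

namespace Pool.Agent.H89.R18

open Pool.Agent.H86.IR Pool.Agent.H21.IR

/-- the poles as points of the plane -/
noncomputable def pol (n : ℕ) (x : ℕ → ℝ) (k : Fin n) : ℂ := ((x k : ℝ) : ℂ)

theorem ei_of_adm {n : ℕ} (hn : 2 ≤ n) {x : ℕ → ℝ} (hx : ∀ i j, i < j → j < n → x i < x j)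
    {B : Fin n → Set (OnePoint ℂ)} (hA : Adm n B (pol n x)) {r : Fin n → ℝ}
    (hr : ∀ k, HasIR (B k) (pol n x k) (r k)) : EI n x (xt fun k => Real.log (r k)) := by
  refine ⟨hx, ?_⟩
  intro α hα
  have h1 : ∑ k : Fin n, α k = 0 := by
    rw [← hα, Finset.sum_range]
  have h2 := All.es n B (pol n x) r hn
    (fun k => (hA.op _).1) (fun j k hjk => hA.dis hjk)
    (fun k => hA.mem _) (fun k => hr _) (fun k => α k) h1
  rw [Finset.sum_range, Finset.sum_range]
  refine le_of_eq_of_le ?_ h2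
  congr 1
  · refine Finset.sum_congr rfl fun k _ => ?_
    rw [xt_fin]
  · refine Finset.sum_congr rfl fun k _ => ?_
    rw [Finset.sum_range]
    refine Finset.sum_congr rfl fun j _ => ?_
    congr 2
    unfold pol
    rw [← Complex.ofReal_sub, Complex.norm_real, Real.norm_eq_abs]

theorem upper_main {n : ℕ} (hn : 2 ≤ n) {x : ℕ → ℝ} (hx : ∀ i j, i < j → j < n → x i < x j)
    {B : Fin n → Set (OnePoint ℂ)} (hA : Adm n B (pol n x)) {r : Fin n → ℝ}
    (hr : ∀ k, HasIR (B k) (pol n x k) (r k)) :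
    ∏ k, r k ≤ 10 ^ 5 * (4 / (Real.pi * n)) ^ n * Real.exp (-(defect n x / 4)) := by
  have hpi := Real.pi_pos
  have hn0 : (0 : ℝ) < n := by
    have : (2 : ℝ) ≤ n := by exact_mod_cast hn
    linarith
  have h0 := ei_of_adm hn hx hA hr
  have hL : x (n - 1) - x 0 ≤ 2 := by
    have h1 := (abs_le.1 (hA.seg ⟨n - 1, by omega⟩).2).2
    have h2 := (abs_le.1 (hA.seg ⟨0, by omega⟩).2).1
    simp only [pol, Complex.ofReal_re] at h1 h2
    linarith
  have h1 := up_ei All.eib All.num hn h0 hL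
  have h2 : ∑ k ∈ Finset.range n, xt (fun k => Real.log (r k)) k = Real.log (∏ k, r k) := by
    rw [Finset.sum_range, Real.log_prod (fun k _ => (hr k).1.ne')]
    exact Finset.sum_congr rfl fun k _ => xt_fin _ k
  rw [h2] at h1
  have h3 : 0 < ∏ k, r k := Finset.prod_pos fun k _ => (hr k).1
  have h4 : Real.log (10 ^ 5 * (4 / (Real.pi * n)) ^ n * Real.exp (-(defect n x / 4))) =
      Real.log (10 ^ 5) + n * Real.log (4 / (Real.pi * n)) - defect n x / 4 := by
    rw [Real.log_mul (by positivity) (Real.exp_pos _).ne', Real.log_exp,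
      Real.log_mul (by positivity) (by positivity), Real.log_pow (n := n)]
    ring
  rw [← h4] at h1
  exact (Real.log_le_log_iff h3 (by positivity)).1 h1

theorem upper_gen {n : ℕ} (hn : 2 ≤ n) {x : ℕ → ℝ} (hx : ∀ i j, i < j → j < n → x i < x j)
    {B : Fin n → Set (OnePoint ℂ)} (hA : Adm n B (pol n x)) {r : Fin n → ℝ}
    (hr : ∀ k, GenIR (B k) (pol n x k) (r k)) :
    ∏ k, r k ≤ 10 ^ 5 * (4 / (Real.pi * n)) ^ n * Real.exp (-(defect n x / 4)) := by
  have h1 : ∀ k, ∃ u : ℕ → ℝ, Tendsto u atTop (𝓝 (r k)) ∧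
      ∀ m, u m ∈ {ρ : ℝ | ∃ D ⊆ B k, IsOpen D ∧ IsConnected D ∧
        ((pol n x k : ℂ) : OnePoint ℂ) ∈ D ∧ HasIR D (pol n x k) ρ} := by
    intro k
    obtain ⟨u, -, -, hu, hu'⟩ := (hr k).exists_seq_monotone_tendsto (hr k).nonempty
    exact ⟨u, hu, hu'⟩
  choose u hu hu' using h1
  have h2 : Tendsto (fun m => ∏ k, u k m) atTop (𝓝 (∏ k, r k)) :=
    tendsto_finsetProd _ fun k _ => hu k
  refine le_of_tendsto' h2 fun m => ?_
  choose D hD using fun k => hu' k m
  refine upper_main (B := D) (r := fun k => u k m) hn hx ?_ fun k => (hD k).2.2.2.2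
  exact
    { op := fun k => ⟨(hD k).2.1, (hD k).2.2.1⟩
      dis := fun j k hjk => (hA.dis hjk).mono (hD j).1 (hD k).1
      mem := fun k => (hD k).2.2.2.1
      seg := hA.seg }

theorem lower_main {n : ℕ} (hn : 2 ≤ n) {x : ℕ → ℝ} (hx : ∀ i j, i < j → j < n → x i < x j)
    (hseg : ∀ k < n, |x k| ≤ 1) :
    ∃ (B : Fin n → Set (OnePoint ℂ)) (r : Fin n → ℝ), Adm n B (pol n x) ∧
      (∀ k, HasIR (B k) (pol n x k) (r k)) ∧
      Real.pi ^ 2 / 4 * (4 / (Real.pi * n)) ^ n * Real.exp (-(4 * defect n x)) ≤ ∏ k, r k := by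
  have hpi := Real.pi_pos
  have hW := walls_mid hx
  refine ⟨fun k => fin (gS n (mid x) k), fun k => gR n (mid x) x k, gS_adm hW hseg,
    fun k => gS_ir Pool.Agent.H59.IR.mkg All.hpl hn hW k.2, ?_⟩
  obtain ⟨N, rfl⟩ : ∃ N, n = N + 2 := ⟨n - 2, by omega⟩
  have hL : x (N + 1) - x 0 ≤ 2 := by
    have h1 := (abs_le.1 (hseg (N + 1) (by omega))).2
    have h2 := (abs_le.1 (hseg 0 (by omega))).1
    linarith
  have h1 := low_log hx hL
  have hpos : ∀ k ∈ Finset.range (N + 2), 0 < gR (N + 2) (mid x) x k := fun k hk =>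
    (gS_ir Pool.Agent.H59.IR.mkg All.hpl hn hW (Finset.mem_range.1 hk)).1
  rw [← Real.log_prod (fun k hk => (hpos k hk).ne')] at h1
  rw [Fin.prod_univ_eq_prod_range (fun k => gR (N + 2) (mid x) x k) (N + 2)]
  have h4 : Real.log (Real.pi ^ 2 / 4 * (4 / (Real.pi * (N + 2 : ℕ))) ^ (N + 2) *
      Real.exp (-(4 * defect (N + 2) x))) = 2 * Real.log (Real.pi / 2) +
      (N + 2 : ℕ) * Real.log (4 / (Real.pi * (N + 2 : ℕ))) - 4 * defect (N + 2) x := by
    rw [Real.log_mul (by positivity) (Real.exp_pos _).ne', Real.log_exp,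
      Real.log_mul (by positivity) (by positivity), Real.log_pow (n := N + 2),
      show Real.pi ^ 2 / 4 = (Real.pi / 2) ^ 2 by ring, Real.log_pow]
    push_cast
    ring
  rw [← h4] at h1
  exact (Real.log_le_log_iff (by positivity) (Finset.prod_pos hpos)).1 h1

end Pool.Agent.H89.R18
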