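import Pool.Agent.H89.R18.Chord
import Pool.Agent.H89.R18.Main
import Pool.Agent.H86.IR.LO2

/-!
# Linearly separated systems of domains
-/

set_option autoImplicit false

open Complex Topology Filter InnerProductSpace
open scoped OnePoint

namespace Pool.Agent.H89.R18

open Pool.Agent.H86.IR Pool.Agent.H21.IR

/-- `A` and `B` are separated by a straight line of the plane -/
def LineSep (A B : Set (OnePoint ℂ)) : Prop :=
  ∃ α β s : ℝ, A ⊆ fin {z : ℂ | α * z.re + β * z.im < s} ∧
    B ⊆ fin {z : ℂ | s < α * z.re + β * z.im}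

/-- the line crosses the real axis between the poles -/
theorem sep_line {A B : Set (OnePoint ℂ)} (h : LineSep A B) {a b : ℝ} (hab : a < b)
    (ha : ((((a : ℝ) : ℂ)) : OnePoint ℂ) ∈ A) (hb : ((((b : ℝ) : ℂ)) : OnePoint ℂ) ∈ B) :
    ∃ m p : ℝ, a < p ∧ p < b ∧ A ⊆ fin {z : ℂ | z.re - m * z.im < p} ∧
      B ⊆ fin {z : ℂ | p < z.re - m * z.im} := by
  obtain ⟨α, β, s, hA, hB⟩ := h
  obtain ⟨z, hz, hza⟩ := hA ha
  obtain ⟨w, hw, hwb⟩ := hB hb
  rw [OnePoint.coe_injective hza] at hz
  rw [OnePoint.coe_injective hwb] at hw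
  have h1 : α * a < s := by simpa using hz
  have h2 : s < α * b := by simpa using hw
  have hα : 0 < α := by
    by_contra hcon
    push Not at hcon
    nlinarith
  have key : ∀ z : ℂ, z.re - -(β / α) * z.im = (α * z.re + β * z.im) / α := by
    intro z
    field_simp
    ring
  refine ⟨-(β / α), s / α, ?_, ?_, ?_, ?_⟩
  · rw [lt_div_iff₀ hα]
    linarith
  · rw [div_lt_iff₀ hα]
    linarith
  · rintro q hq
    obtain ⟨z, hz, rfl⟩ := hA hq
    refine ⟨z, ?_, rfl⟩
    show z.re - -(β / α) * z.im < s / α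
    rw [key]
    exact div_lt_div_of_pos_right hz hα
  · rintro q hq
    obtain ⟨z, hz, rfl⟩ := hB hq
    refine ⟨z, ?_, rfl⟩
    show s / α < z.re - -(β / α) * z.im
    rw [key]
    exact div_lt_div_of_pos_right hz hα

theorem half_convex_lt (m d : ℝ) : Convex ℝ {z : ℂ | z.re - m * z.im < d} := by
  intro z hz w hw s t hs ht hst
  have h1 : z.re - m * z.im < d := hz
  have h2 : w.re - m * w.im < d := hw
  show (s • z + t • w).re - m * (s • z + t • w).im < d
  have e1 : (s • z + t • w).re = s * z.re + t * w.re := by simp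
  have e2 : (s • z + t • w).im = s * z.im + t * w.im := by simp
  rw [e1, e2]
  have : d = s * d + t * d := by rw [← add_mul, hst, one_mul]
  rcases hs.eq_or_lt with h | h
  · rw [← h] at hst ⊢
    rw [zero_add] at hst
    rw [hst]
    linarith
  · nlinarith [mul_lt_mul_of_pos_left h1 h, mul_le_mul_of_nonneg_left h2.le ht]

theorem half_convex_gt (m d : ℝ) : Convex ℝ {z : ℂ | d < z.re - m * z.im} := by
  intro z hz w hw s t hs ht hst
  have h1 : d < z.re - m * z.im := hz
  have h2 : d < w.re - m * w.im := hw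
  show d < (s • z + t • w).re - m * (s • z + t • w).im
  have e1 : (s • z + t • w).re = s * z.re + t * w.re := by simp
  have e2 : (s • z + t • w).im = s * z.im + t * w.im := by simp
  rw [e1, e2]
  have : d = s * d + t * d := by rw [← add_mul, hst, one_mul]
  rcases hs.eq_or_lt with h | h
  · rw [← h] at hst ⊢
    rw [zero_add] at hst
    rw [hst]
    linarith
  · nlinarith [mul_lt_mul_of_pos_left h1 h, mul_le_mul_of_nonneg_left h2.le ht]

/-- the points `x 0`, the walls, `x (n - 1)` -/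
noncomputable def qq (n : ℕ) (x p : ℕ → ℝ) (k : ℕ) : ℝ :=
  if k = 0 then x 0 else if k = n then x (n - 1) else p (k - 1)

/-- the factors -/
noncomputable def cc (n k : ℕ) : ℝ := if k = 0 ∨ k + 1 = n then 2 else 2 / Real.pi

/-- the bound for the radii of linearly separated domains -/
theorem sep_bound {n : ℕ} (hn : 2 ≤ n) {x : ℕ → ℝ} (hx : ∀ i j, i < j → j < n → x i < x j)
    {B : Fin n → Set (OnePoint ℂ)} (hA : Adm n B (pol n x))
    (hs : ∀ (k : ℕ) (h : k + 1 < n), LineSep (B ⟨k, by omega⟩) (B ⟨k + 1, h⟩)) :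
    ∃ p : ℕ → ℝ, (∀ k, k + 1 < n → x k < p k ∧ p k < x (k + 1)) ∧
      ∀ (k : Fin n) (D : Set (OnePoint ℂ)) (ρ : ℝ), D ⊆ B k → IsOpen D → IsConnected D →
        ((pol n x k : ℂ) : OnePoint ℂ) ∈ D → HasIR D (pol n x k) ρ →
        ρ ≤ cc n k * (qq n x p (k + 1) - qq n x p k) := by
  have h1 : ∀ k : ℕ, ∃ m p : ℝ, ∀ h : k + 1 < n, x k < p ∧ p < x (k + 1) ∧
      B ⟨k, by omega⟩ ⊆ fin {z : ℂ | z.re - m * z.im < p} ∧
      B ⟨k + 1, h⟩ ⊆ fin {z : ℂ | p < z.re - m * z.im} := by
    intro k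
    by_cases h : k + 1 < n
    · obtain ⟨m, p, h2, h3, h4, h5⟩ := sep_line (hs k h) (hx k (k + 1) (by omega) h)
        (hA.mem ⟨k, by omega⟩) (hA.mem ⟨k + 1, h⟩)
      exact ⟨m, p, fun _ => ⟨h2, h3, h4, h5⟩⟩
    · exact ⟨0, 0, fun h' => absurd h' h⟩
  choose m p hp using h1
  refine ⟨p, fun k hk => ⟨(hp k hk).1, (hp k hk).2.1⟩, ?_⟩
  intro k D ρ hD hDo hDc haD hρ
  have hmkg := Pool.Agent.H59.IR.mkg
  by_cases h0 : (k : ℕ) = 0
  · -- the first domain
    have hk1 : (k : ℕ) + 1 < n := by omega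
    obtain ⟨q1, q2, q3, q4⟩ := hp k hk1
    obtain ⟨R, hR, hIR⟩ := half_tilt hmkg (a := x k) (d := p k) (m k) q1
    have haW : ((x k : ℝ) : ℂ) ∈ {z : ℂ | z.re - m k * z.im < p k} := by simpa using q1
    have h3 := mono_ir (isOpen_lt (contf (m k)) continuous_const)
      ⟨⟨_, haW⟩, (half_convex_lt (m k) (p k)).isPreconnected⟩ haW hIR hDo hDc haD (hD.trans q3) hρ
    have e1 : qq n x p ((k : ℕ) + 1) = p k := by
      unfold qq
      rw [if_neg (by omega), if_neg (by omega), Nat.add_sub_cancel]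
    have e2 : qq n x p k = x k := by
      unfold qq
      rw [if_pos h0, h0]
    have e3 : cc n k = 2 := by
      unfold cc
      rw [if_pos (Or.inl h0)]
    rw [e1, e2, e3]
    exact h3.trans hR
  · obtain ⟨j, hj⟩ : ∃ j, (k : ℕ) = j + 1 := ⟨k - 1, by omega⟩
    have hjn : j + 1 < n := by rw [← hj]; exact k.2
    have hkj : k = ⟨j + 1, hjn⟩ := Fin.ext hj
    obtain ⟨q1, q2, q3, q4⟩ := hp j hjn
    have e2 : qq n x p k = p j := by
      unfold qq
      rw [if_neg h0, if_neg (by omega), hj, Nat.add_sub_cancel]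
    have hDk : D ⊆ fin {z : ℂ | p j < z.re - m j * z.im} := by
      rw [hkj] at hD
      exact hD.trans q4
    have hxk : x (j + 1) = x k := by rw [hj]
    by_cases h1 : (k : ℕ) + 1 = n
    · obtain ⟨R, hR, hIR⟩ := half_tilt' hmkg (a := x k) (d := p j) (m j) (by rw [← hxk]; exact q2)
      have haW : ((x k : ℝ) : ℂ) ∈ {z : ℂ | p j < z.re - m j * z.im} := by
        rw [← hxk]
        simpa using q2
      have h3 := mono_ir (isOpen_lt continuous_const (contf (m j)))
        ⟨⟨_, haW⟩, (half_convex_gt (m j) (p j)).isPreconnected⟩ haW hIR hDo hDc haD hDk hρ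
      have e1 : qq n x p ((k : ℕ) + 1) = x k := by
        unfold qq
        rw [if_neg (by omega), if_pos h1]
        congr 1
        omega
      have e3 : cc n k = 2 := by
        unfold cc
        rw [if_pos (Or.inr h1)]
      rw [e1, e2, e3]
      exact h3.trans hR
    · have hk1 : (k : ℕ) + 1 < n := by have := k.2; omega
      obtain ⟨r1, r2, r3, r4⟩ := hp k hk1
      have e1 : qq n x p ((k : ℕ) + 1) = p k := by
        unfold qq
        rw [if_neg (by omega), if_neg h1, Nat.add_sub_cancel]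
      have e3 : cc n k = 2 / Real.pi := by
        unfold cc
        rw [if_neg (by omega)]
      have hDW : D ⊆ fin {z : ℂ | p j < z.re - m j * z.im ∧ z.re - m k * z.im < p k} := by
        intro q hq
        obtain ⟨z, hz, rfl⟩ := hDk hq
        obtain ⟨w, hw, hwz⟩ := r3 (hD hq)
        rw [OnePoint.coe_injective hwz] at hw
        exact ⟨z, ⟨hz, hw⟩, rfl⟩
      have h3 := chord (m1 := m j) (m2 := m k) (by rw [← hxk]; exact q2) r1 hDo hDc haD hDW hρ
      rw [e1, e2, e3]
      calc ρ ≤ 2 * (p k - p j) / Real.pi := h3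
        _ = 2 / Real.pi * (p k - p j) := by ring

theorem cc_pos (n k : ℕ) : 0 < cc n k := by
  unfold cc
  split_ifs
  · norm_num
  · have := Real.pi_pos
    positivity

theorem cc_sum {n : ℕ} (hn : 2 ≤ n) :
    ∑ k ∈ Finset.range n, Real.log (cc n k) =
      2 * Real.log Real.pi + n * Real.log (2 / Real.pi) := by
  obtain ⟨N, rfl⟩ : ∃ N, n = N + 2 := ⟨n - 2, by omega⟩
  have hpi := Real.pi_pos
  rw [Finset.sum_range_succ, Finset.sum_range_succ']
  have h1 : ∀ k ∈ Finset.range N, Real.log (cc (N + 2) (k + 1)) = Real.log (2 / Real.pi) := by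
    intro k hk
    rw [Finset.mem_range] at hk
    unfold cc
    rw [if_neg (by omega)]
  have h2 : cc (N + 2) 0 = 2 := by
    unfold cc
    rw [if_pos (Or.inl rfl)]
  have h3 : cc (N + 2) (N + 1) = 2 := by
    unfold cc
    rw [if_pos (Or.inr rfl)]
  rw [Finset.sum_congr rfl h1, h2, h3, Real.log_div two_ne_zero hpi.ne']
  simp only [Finset.sum_const, Finset.card_range, nsmul_eq_mul]
  push_cast
  ring

theorem sep_upper {n : ℕ} (hn : 2 ≤ n) {x : ℕ → ℝ} (hx : ∀ i j, i < j → j < n → x i < x j)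
    {B : Fin n → Set (OnePoint ℂ)} (hA : Adm n B (pol n x))
    (hs : ∀ (k : ℕ) (h : k + 1 < n), LineSep (B ⟨k, by omega⟩) (B ⟨k + 1, h⟩))
    {r : Fin n → ℝ}
    (hr : (∀ k, HasIR (B k) (pol n x k) (r k)) ∨ (∀ k, GenIR (B k) (pol n x k) (r k))) :
    ∏ k, r k ≤ Real.pi ^ 2 * (4 / (Real.pi * n)) ^ n := by
  have hpi := Real.pi_pos
  have hr0 : ∀ k, 0 < r k := by
    intro k
    rcases hr with h | h
    · exact (h k).1
    · obtain ⟨ρ, hρ⟩ := (h k).nonempty
      have h1 := (h k).1 hρ
      obtain ⟨D, _, _, _, _, h5⟩ := hρ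
      exact h5.1.trans_le h1
  have hn0 : (0 : ℝ) < n := by
    have : (2 : ℝ) ≤ n := by exact_mod_cast hn
    linarith
  obtain ⟨p, hp, hb⟩ := sep_bound hn hx hA hs
  have hle : ∀ k : Fin n, r k ≤ cc n k * (qq n x p (k + 1) - qq n x p k) := by
    intro k
    rcases hr with h | h
    · exact hb k (B k) (r k) subset_rfl (hA.op k).1 (hA.op k).2 (hA.mem k) (h k)
    · refine (h k).2 ?_
      rintro ρ ⟨D, h1, h2, h3, h4, h5⟩
      exact hb k D ρ h1 h2 h3 h4 h5
  have hq : ∀ k < n, 0 < qq n x p (k + 1) - qq n x p k := by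
    intro k hk
    have h1 := (hr0 ⟨k, hk⟩).trans_le (hle ⟨k, hk⟩)
    exact (mul_pos_iff_of_pos_left (cc_pos n k)).1 h1
  have h1 : ∏ k, r k ≤ ∏ k : Fin n, cc n k * (qq n x p (k + 1) - qq n x p k) :=
    Finset.prod_le_prod (fun k _ => (hr0 k).le) fun k _ => hle k
  refine h1.trans ?_
  rw [Fin.prod_univ_eq_prod_range (fun k => cc n k * (qq n x p (k + 1) - qq n x p k)) n]
  have hpos : ∀ k ∈ Finset.range n, 0 < cc n k * (qq n x p (k + 1) - qq n x p k) := fun k hk =>
    mul_pos (cc_pos n k) (hq k (Finset.mem_range.1 hk))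
  rw [← Real.log_le_log_iff (Finset.prod_pos hpos) (by positivity),
    Real.log_prod (fun k hk => (hpos k hk).ne')]
  have h2 : ∀ k ∈ Finset.range n, Real.log (cc n k * (qq n x p (k + 1) - qq n x p k)) ≤
      Real.log (cc n k) + (Real.log (2 / n) + (n / 2 * (qq n x p (k + 1) - qq n x p k) - 1)) := by
    intro k hk
    have h3 := hq k (Finset.mem_range.1 hk)
    have h4 : Real.log (qq n x p (k + 1) - qq n x p k) =
        Real.log (2 / n) + Real.log (n / 2 * (qq n x p (k + 1) - qq n x p k)) := by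
      rw [← Real.log_mul (by positivity) (by positivity)]
      congr 1
      field_simp
    have h5 := Real.log_le_sub_one_of_pos
      (show 0 < n / 2 * (qq n x p (k + 1) - qq n x p k) by positivity)
    rw [Real.log_mul (cc_pos n k).ne' h3.ne', h4]
    linarith
  refine (Finset.sum_le_sum h2).trans ?_
  rw [Finset.sum_add_distrib, cc_sum hn, Finset.sum_add_distrib, Finset.sum_sub_distrib,
    ← Finset.mul_sum, Finset.sum_range_sub (qq n x p) n]
  simp only [Finset.sum_const, Finset.card_range, nsmul_eq_mul, mul_one]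
  have e1 : qq n x p n = x (n - 1) := by
    unfold qq
    rw [if_neg (by omega), if_pos rfl]
  have e2 : qq n x p 0 = x 0 := by
    unfold qq
    rw [if_pos rfl]
  have hL : x (n - 1) - x 0 ≤ 2 := by
    have h1 := (abs_le.1 (hA.seg ⟨n - 1, by omega⟩).2).2
    have h2 := (abs_le.1 (hA.seg ⟨0, by omega⟩).2).1
    simp only [pol, Complex.ofReal_re] at h1 h2
    linarith
  have h6 : (n : ℝ) / 2 * (x (n - 1) - x 0) ≤ n := by
    have := mul_le_mul_of_nonneg_left hL (show (0 : ℝ) ≤ n / 2 by positivity)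
    linarith
  have h7 : Real.log (Real.pi ^ 2 * (4 / (Real.pi * n)) ^ n) =
      2 * Real.log Real.pi + n * Real.log (2 / Real.pi) + n * Real.log (2 / n) := by
    rw [Real.log_mul (by positivity) (by positivity), Real.log_pow, Real.log_pow,
      show 4 / (Real.pi * (n : ℝ)) = 2 / Real.pi * (2 / n) by
        field_simp
        norm_num,
      Real.log_mul (by positivity) (by positivity)]
    push_cast
    ring
  rw [h7, e1, e2]
  linarith

/-- disjoint open convex sets are separated by a line -/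
theorem conv_sep {D E : Set ℂ} (hD : Convex ℝ D) (hDo : IsOpen D) (hE : Convex ℝ E)
    (hEo : IsOpen E) (h : Disjoint D E) : LineSep (fin D) (fin E) := by
  obtain ⟨f, u, h1, h2⟩ := geometric_hahn_banach_open_open hD hDo hE hEo h
  have hf : ∀ z : ℂ, f z = f 1 * z.re + f I * z.im := by
    intro z
    have e : z = z.re • (1 : ℂ) + z.im • I := by
      apply Complex.ext <;> simp
    conv_lhs => rw [e]
    rw [map_add, map_smul, map_smul, smul_eq_mul, smul_eq_mul]
    ring
  refine ⟨f 1, f I, u, ?_, ?_⟩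
  · rintro _ ⟨z, hz, rfl⟩
    refine ⟨z, ?_, rfl⟩
    show f 1 * z.re + f I * z.im < u
    rw [← hf]
    exact h1 z hz
  · rintro _ ⟨z, hz, rfl⟩
    refine ⟨z, ?_, rfl⟩
    show u < f 1 * z.re + f I * z.im
    rw [← hf]
    exact h2 z hz

/-- the products for the systems whose neighbours are separated by straight lines -/
def SepProds (n : ℕ) : Set ℝ :=
  {P | ∃ (B : Fin n → Set (OnePoint ℂ)) (x : ℕ → ℝ) (r : Fin n → ℝ),
    (∀ i j, i < j → j < n → x i < x j) ∧ Adm n B (pol n x) ∧
    (∀ (k : ℕ) (h : k + 1 < n), LineSep (B ⟨k, by omega⟩) (B ⟨k + 1, h⟩)) ∧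
    (∀ k, HasIR (B k) (pol n x k) (r k)) ∧ P = ∏ k, r k}

/-- the products for the systems of convex domains -/
def ConvProds (n : ℕ) : Set ℝ :=
  {P | ∃ (D : Fin n → Set ℂ) (a : Fin n → ℂ) (r : Fin n → ℝ), (∀ k, Convex ℝ (D k)) ∧
    Adm n (fun k => fin (D k)) a ∧ (∀ k, HasIR (fin (D k)) (a k) (r k)) ∧ P = ∏ k, r k}

theorem fin_open {D : Set ℂ} (h : IsOpen (fin D)) : IsOpen D := by
  have := h.preimage OnePoint.continuous_coe
  have e : (fun z : ℂ => (z : OnePoint ℂ)) ⁻¹' fin D = D :=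
    Set.preimage_image_eq D OnePoint.coe_injective
  rwa [e] at this

theorem fin_disj {D E : Set ℂ} (h : Disjoint (fin D) (fin E)) : Disjoint D E :=
  (Set.disjoint_image_iff OnePoint.coe_injective).1 h

theorem lA_mono {n : ℕ} (hn : 2 ≤ n) {i j : ℕ} (hij : i < j) (hj : j < n) : lA n i < lA n j := by
  have hn0 : (0 : ℝ) < n := by
    have : (2 : ℝ) ≤ n := by exact_mod_cast hn
    linarith
  have h1 := (lA_mem hn (by omega : i < n)).2 (by omega)
  have h2 := (lA_mem hn hj).1 (by omega)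
  rw [Complex.ofReal_re] at h1 h2
  have h3 : 2 * ((i : ℝ) + 1) / n ≤ 2 * (j : ℝ) / n := by
    apply div_le_div_of_nonneg_right _ hn0.le
    have : (i : ℝ) + 1 ≤ j := by exact_mod_cast hij
    linarith
  linarith

theorem lS_adm {n : ℕ} (hn : 2 ≤ n) : Adm n (fun k => fin (lS n k)) (pol n (lA n)) := by
  refine ⟨fun k => ⟨?_, ?_⟩, ?_, fun k => ?_, fun k => ?_⟩
  · exact OnePoint.isOpenEmbedding_coe.isOpenMap _ (lS_open n k)
  · refine ⟨⟨_, ((lA n k : ℝ) : ℂ), lA_mem hn k.2, rfl⟩, ?_⟩
    exact (lS_convex n k).isPreconnected.image _ OnePoint.continuous_coe.continuousOn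
  · have key : ∀ j k : Fin n, (j : ℕ) < k → Disjoint (fin (lS n j)) (fin (lS n k)) := by
      intro j k hjk
      rw [Set.disjoint_left]
      rintro _ ⟨z, hz, rfl⟩ ⟨w, hw, hzw⟩
      have : w = z := OnePoint.coe_injective hzw
      subst this
      have h1 := hz.2 (by omega)
      have h2 := hw.1 (by omega)
      have h3 : 2 * (((j : ℕ) : ℝ) + 1) / n ≤ 2 * ((k : ℕ) : ℝ) / n := by
        have hn0 : (0 : ℝ) < n := by
          have : (2 : ℝ) ≤ n := by exact_mod_cast hn
          linarith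
        apply div_le_div_of_nonneg_right _ hn0.le
        have : ((j : ℕ) : ℝ) + 1 ≤ ((k : ℕ) : ℝ) := by exact_mod_cast hjk
        linarith
      linarith
    intro j k hjk
    rcases lt_or_gt_of_ne (fun h => hjk (Fin.ext h) : (j : ℕ) ≠ k) with h | h
    · exact key j k h
    · exact (key k j h).symm
  · exact ⟨_, lA_mem hn k.2, rfl⟩
  · refine ⟨Complex.ofReal_im _, ?_⟩
    show |((lA n k : ℝ) : ℂ).re| ≤ 1
    rw [Complex.ofReal_re]
    exact lA_seg hn k.2

theorem sep_greatest {n : ℕ} (hn : 2 ≤ n) :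
    IsGreatest (SepProds n) (Real.pi ^ 2 * (4 / (Real.pi * n)) ^ n) := by
  constructor
  · refine ⟨fun k => fin (lS n k), lA n, fun k => lR n k, fun i j hij hj => lA_mono hn hij hj,
      lS_adm hn, fun k h => ?_, fun k => lS_ir All.hpl All.str hn k.2, ?_⟩
    · refine ⟨1, 0, -1 + 2 * ((k : ℝ) + 1) / n, ?_, ?_⟩
      · rintro _ ⟨z, hz, rfl⟩
        refine ⟨z, ?_, rfl⟩
        show 1 * z.re + 0 * z.im < -1 + 2 * ((k : ℝ) + 1) / n
        have := hz.2 h
        linarith
      · rintro _ ⟨z, hz, rfl⟩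
        refine ⟨z, ?_, rfl⟩
        show -1 + 2 * ((k : ℝ) + 1) / n < 1 * z.re + 0 * z.im
        have h1 : -1 + 2 * (((k + 1 : ℕ) : ℝ)) / n < z.re := hz.1 (Nat.succ_pos k)
        push_cast at h1
        linarith
    · exact (lR_prod hn).symm
  · rintro P ⟨B, x, r, hx, hA, hs, hr, rfl⟩
    exact sep_upper hn hx hA hs (Or.inl hr)

theorem conv_greatest {n : ℕ} (hn : 2 ≤ n) :
    IsGreatest (ConvProds n) (Real.pi ^ 2 * (4 / (Real.pi * n)) ^ n) := by
  constructor
  · exact ⟨fun k => lS n k, pol n (lA n), fun k => lR n k, fun k => lS_convex n k, lS_adm hn,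
      fun k => lS_ir All.hpl All.str hn k.2, (lR_prod hn).symm⟩
  · rintro P ⟨D, a, r, hD, hA, hr, rfl⟩
    have hinj : Function.Injective fun k => (a k).re := by
      intro j k h
      by_contra hne
      have h1 : a j = a k := Complex.ext h (by rw [(hA.seg j).1, (hA.seg k).1])
      have h2 := hA.dis hne
      have h3 := hA.mem j
      rw [h1] at h3
      exact Set.disjoint_left.1 h2 h3 (hA.mem k)
    set σ := Tuple.sort fun k => (a k).re with hσ
    have hmono : StrictMono fun k => (a (σ k)).re := by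
      have h1 : Monotone fun k => (a (σ k)).re := Tuple.monotone_sort fun k => (a k).re
      have h2 : Function.Injective fun k => (a (σ k)).re := hinj.comp σ.injective
      exact h1.strictMono_of_injective h2
    have hpol : ∀ k : Fin n, pol n (xt fun k => (a (σ k)).re) k = a (σ k) := by
      intro k
      unfold pol
      rw [xt_fin]
      exact Complex.ext (by rw [Complex.ofReal_re]) (by rw [Complex.ofReal_im, (hA.seg (σ k)).1])
    have hA' : Adm n (fun k => fin (D (σ k))) (pol n (xt fun k => (a (σ k)).re)) := by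
      refine ⟨fun k => hA.op (σ k), fun j k hjk => hA.dis fun h => hjk (σ.injective h),
        fun k => ?_, fun k => ?_⟩
      · rw [hpol]
        exact hA.mem (σ k)
      · rw [hpol]
        exact hA.seg (σ k)
    have h1 := sep_upper hn (x := xt fun k => (a (σ k)).re) (B := fun k => fin (D (σ k)))
      (r := fun k => r (σ k)) (fun i j hij hj => by
        unfold xt
        rw [dif_pos (hij.trans hj), dif_pos hj]
        exact hmono (by exact hij)) hA' (fun k h => by
        have hne : σ ⟨k, by omega⟩ ≠ σ ⟨k + 1, h⟩ := by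
          intro he
          have := σ.injective he
          rw [Fin.mk.injEq] at this
          omega
        exact conv_sep (hD _) (fin_open (hA.op _).1) (hD _) (fin_open (hA.op _).1)
          (fin_disj (hA.dis hne)))
      (Or.inl fun k => by
        rw [hpol]
        exact hr (σ k))
    rwa [Equiv.prod_comp σ r] at h1

end Pool.Agent.H89.R18
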