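import Pool.Agent.H21.IR.STR

/-!
# The inner radius of a strip at an arbitrary point
-/

set_option autoImplicit false

open Complex Topology Filter InnerProductSpace
open scoped OnePoint

namespace Pool.Agent.H89.R18

open Pool.Agent.H86.IR Pool.Agent.H21.IR

section

variable (b p : ℝ)

/-- the variable -/
noncomputable def vv (z : ℂ) : ℂ := ((b : ℝ) : ℂ) * (z - ((p : ℝ) : ℂ))

theorem vv_re (z : ℂ) : (vv b p z).re = b * (z.re - p) := by
  unfold vv
  rw [Complex.re_ofReal_mul, Complex.sub_re, Complex.ofReal_re]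

theorem vv_im (z : ℂ) : (vv b p z).im = b * z.im := by
  unfold vv
  rw [Complex.im_ofReal_mul, Complex.sub_im, Complex.ofReal_im, sub_zero]

theorem vv_an (z : ℂ) : AnalyticAt ℂ (vv b p) z := by
  unfold vv
  fun_prop

end

theorem sin_vv_ne {b p : ℝ} {z : ℂ} (h : Real.sin (b * (z.re - p)) ≠ 0) : sin (vv b p z) ≠ 0 := by
  intro h0
  have h1 := sq_norm_sin (vv b p z)
  rw [h0, norm_zero, vv_re] at h1
  have h2 : 0 < Real.sin (b * (z.re - p)) ^ 2 := by positivity
  nlinarith [sq_nonneg (Real.sinh (vv b p z).im)]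

theorem sin_vv_ne' {b p : ℝ} {z : ℂ} (hb : 0 < b) (h : |b * (z.re - p)| < Real.pi)
    (hz : z ≠ ((p : ℝ) : ℂ)) : sin (vv b p z) ≠ 0 := by
  intro h0
  have h1 := sq_norm_sin (vv b p z)
  rw [h0, norm_zero, vv_re] at h1
  have h2 := sq_nonneg (Real.sin (b * (z.re - p)))
  have h3 := sq_nonneg (Real.sinh (vv b p z).im)
  have hs : Real.sinh (vv b p z).im = 0 := by
    have h4 : Real.sinh (vv b p z).im ^ 2 = 0 := by linarith
    exact pow_eq_zero_iff (two_ne_zero) |>.1 h4
  have hs' : Real.sin (b * (z.re - p)) = 0 := by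
    have h4 : Real.sin (b * (z.re - p)) ^ 2 = 0 := by linarith
    exact pow_eq_zero_iff (two_ne_zero) |>.1 h4
  obtain ⟨h4, h5⟩ := abs_lt.1 h
  have h6 : b * (z.re - p) = 0 := (Real.sin_eq_zero_iff_of_lt_of_lt h4 h5).1 hs'
  have h7 : (vv b p z).im = 0 := Real.sinh_eq_zero.1 hs
  rw [vv_im] at h7
  apply hz
  apply Complex.ext
  · rw [Complex.ofReal_re]
    have := (mul_eq_zero.1 h6).resolve_left hb.ne'
    linarith
  · rw [Complex.ofReal_im]
    exact (mul_eq_zero.1 h7).resolve_left hb.ne'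

/-- the difference of two logarithms of sines far away -/
theorem diff_bound {b p q : ℝ} {z : ℂ} (hb : 0 < b) (hy : z.im ≠ 0)
    (hp : sin (vv b p z) ≠ 0) (hq : sin (vv b q z) ≠ 0) :
    Real.log ‖sin (vv b p z)‖ - Real.log ‖sin (vv b q z)‖ ≤ 1 / (2 * b ^ 2 * z.im ^ 2) := by
  have hp' : 0 < ‖sin (vv b p z)‖ ^ 2 := by positivity
  have hq' : 0 < ‖sin (vv b q z)‖ ^ 2 := by positivity
  have hG : Real.log ‖sin (vv b p z)‖ - Real.log ‖sin (vv b q z)‖ =
      1 / 2 * Real.log (‖sin (vv b p z)‖ ^ 2 / ‖sin (vv b q z)‖ ^ 2) := by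
    rw [Real.log_div hp'.ne' hq'.ne', Real.log_pow, Real.log_pow]
    push_cast
    ring
  have h1 := sq_norm_sin (vv b p z)
  have h2 := sq_norm_sin (vv b q z)
  rw [vv_im] at h1 h2
  have h9 : (b * z.im) ^ 2 ≤ Real.sinh (b * z.im) ^ 2 := by
    rw [sq_le_sq]
    rcases le_total 0 (b * z.im) with h10 | h10
    · rw [abs_of_nonneg h10, abs_of_nonneg (Real.sinh_nonneg_iff.2 h10)]
      exact Real.self_le_sinh_iff.2 h10
    · rw [abs_of_nonpos h10, abs_of_nonpos (Real.sinh_nonpos_iff.2 h10)]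
      exact neg_le_neg (Real.sinh_le_self_iff.2 h10)
  have h10 : 0 < (b * z.im) ^ 2 := by positivity
  have h11 : (b * z.im) ^ 2 ≤ ‖sin (vv b q z)‖ ^ 2 := by
    rw [h2]
    nlinarith [sq_nonneg (Real.sin (vv b q z).re)]
  rw [hG]
  have h12 := Real.log_le_sub_one_of_pos (div_pos hp' hq')
  have h13 : ‖sin (vv b p z)‖ ^ 2 / ‖sin (vv b q z)‖ ^ 2 - 1 ≤ 1 / (b * z.im) ^ 2 := by
    rw [div_sub_one hq'.ne']
    have h14 : ‖sin (vv b p z)‖ ^ 2 - ‖sin (vv b q z)‖ ^ 2 ≤ 1 := by
      rw [h1, h2]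
      have := Real.sin_sq_le_one (vv b p z).re
      nlinarith [sq_nonneg (Real.sin (vv b q z).re)]
    calc (‖sin (vv b p z)‖ ^ 2 - ‖sin (vv b q z)‖ ^ 2) / ‖sin (vv b q z)‖ ^ 2
        ≤ 1 / ‖sin (vv b q z)‖ ^ 2 := div_le_div_of_nonneg_right h14 hq'.le
      _ ≤ 1 / (b * z.im) ^ 2 := one_div_le_one_div_of_le h10 h11
  have h15 : 1 / 2 * (1 / (b * z.im) ^ 2) = 1 / (2 * b ^ 2 * z.im ^ 2) := by
    field_simp
  rw [← h15]
  linarith

theorem sto (hMKG : T_MKG) {a c d : ℝ} (hca : c < a) (had : a < d) :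
    HasIR (fin {z : ℂ | c < z.re ∧ z.re < d}) ((a : ℝ) : ℂ)
      (2 * (d - c) / Real.pi * Real.sin (Real.pi * (a - c) / (d - c))) := by
  have hpi := Real.pi_pos
  have hw : 0 < d - c := by linarith
  set b : ℝ := Real.pi / (2 * (d - c)) with hb
  have hb0 : 0 < b := by positivity
  set p : ℝ := 2 * c - a with hp
  have hbd : b * (d - c) = Real.pi / 2 := by
    rw [hb]
    field_simp
  -- the arguments
  have hP : ∀ z : ℂ, c ≤ z.re → z.re ≤ d → 0 < Real.sin (b * (z.re - p)) := by
    intro z h1 h2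
    apply Real.sin_pos_of_pos_of_lt_pi
    · apply mul_pos hb0
      rw [hp]
      linarith
    · have : b * (z.re - p) < b * (2 * (d - c)) := by
        apply mul_lt_mul_of_pos_left _ hb0
        rw [hp]
        linarith
      linarith
  have hQ : ∀ z : ℂ, c ≤ z.re → z.re ≤ d → |b * (z.re - a)| < Real.pi := by
    intro z h1 h2
    rw [abs_mul, abs_of_pos hb0]
    have : b * |z.re - a| ≤ b * (d - c) := by
      apply mul_le_mul_of_nonneg_left _ hb0.le
      rw [abs_le]
      constructor <;> linarith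
    linarith
  have hharm : ∀ z : ℂ, sin (vv b p z) ≠ 0 → HarmonicAt (fun z => Real.log ‖sin (vv b p z)‖) z := by
    intro z hz
    exact AnalyticAt.harmonicAt_log_norm (f := fun z => sin (vv b p z))
      (by have := vv_an b p z; fun_prop) hz
  have hopen : IsOpen {z : ℂ | c < z.re ∧ z.re < d} :=
    (isOpen_lt continuous_const Complex.continuous_re).inter
      (isOpen_lt Complex.continuous_re continuous_const)
  have hsin : 0 < Real.sin (Real.pi * (a - c) / (d - c)) := by
    apply Real.sin_pos_of_pos_of_lt_pi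
    · have : 0 < a - c := by linarith
      positivity
    · rw [div_lt_iff₀ hw]
      apply mul_lt_mul_of_pos_left _ hpi
      linarith
  have hr0 : 0 < 2 * (d - c) / Real.pi * Real.sin (Real.pi * (a - c) / (d - c)) := by positivity
  have hpa : vv b p ((a : ℝ) : ℂ) = ((Real.pi * (a - c) / (d - c) : ℝ) : ℂ) := by
    unfold vv
    rw [← Complex.ofReal_sub, ← Complex.ofReal_mul]
    congr 1
    rw [hb, hp]
    field_simp
    ring
  have haa : vv b a ((a : ℝ) : ℂ) = 0 := by
    unfold vv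
    rw [sub_self, mul_zero]
  refine hMKG {z : ℂ | c < z.re ∧ z.re < d} ((a : ℝ) : ℂ)
    (fun z => Real.log ‖sin (vv b p z)‖ - Real.log ‖sin (vv b a z)‖)
    (fun z => Real.log ‖sin (vv b p z)‖ - Real.log ‖sc (vv b a z)‖ - Real.log b)
    _ hopen ⟨by simpa using hca, by simpa using had⟩ hr0 ?_ ?_ ?_ ?_ ?_ ?_
  · intro z hz hza
    exact (hharm z (sin_vv_ne (hP z hz.1.le hz.2.le).ne')).sub
      (AnalyticAt.harmonicAt_log_norm (f := fun z => sin (vv b a z))
        (by have := vv_an b a z; fun_prop) (sin_vv_ne' hb0 (hQ z hz.1.le hz.2.le) hza))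
  · refine HarmonicAt.sub (HarmonicAt.sub (hharm _ ?_) ?_) (harmonicAt_const _)
    · exact sin_vv_ne (hP _ (by simpa using hca.le) (by simpa using had.le)).ne'
    · refine AnalyticAt.harmonicAt_log_norm (f := fun z => sc (vv b a z)) ?_ ?_
      · exact (sc_diff.analyticAt _).fun_comp (vv_an b a _)
      · rw [haa, sc_zero]
        exact one_ne_zero
  · simp only [haa, hpa, sc_zero, norm_one, Real.log_one, sub_zero]
    rw [← Complex.ofReal_sin, Complex.norm_real, Real.norm_eq_abs, abs_of_pos hsin,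
      ← Real.log_div hsin.ne' hb0.ne']
    congr 1
    rw [hb]
    field_simp
  · have hu : ∀ᶠ z in 𝓝[≠] ((a : ℝ) : ℂ), sc (vv b a z) ≠ 0 := by
      have h1 : ContinuousAt (fun z => sc (vv b a z)) ((a : ℝ) : ℂ) :=
        ((sc_diff.analyticAt _).fun_comp (vv_an b a _)).continuousAt
      have h2 : sc (vv b a ((a : ℝ) : ℂ)) ≠ 0 := by
        rw [haa, sc_zero]
        exact one_ne_zero
      exact (h1.eventually_ne h2).filter_mono nhdsWithin_le_nhds
    filter_upwards [hu, self_mem_nhdsWithin] with z hz hza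
    have hza' : z - ((a : ℝ) : ℂ) ≠ 0 := sub_ne_zero.2 hza
    have h3 : ‖sin (vv b a z)‖ = b * ‖z - ((a : ℝ) : ℂ)‖ * ‖sc (vv b a z)‖ := by
      rw [sin_eq_sc, norm_mul]
      congr 1
      unfold vv
      rw [norm_mul, Complex.norm_real, Real.norm_eq_abs, abs_of_pos hb0]
    rw [h3, Real.log_mul (mul_ne_zero hb0.ne' (norm_ne_zero_iff.2 hza')) (norm_ne_zero_iff.2 hz),
      Real.log_mul hb0.ne' (norm_ne_zero_iff.2 hza')]
    ring
  · intro z hz
    have hz1 : z.re = c ∨ z.re = d := by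
      rw [frontier, Set.mem_sdiff] at hz
      have h1 : c ≤ z.re ∧ z.re ≤ d := by
        have : closure {z : ℂ | c < z.re ∧ z.re < d} ⊆ {z : ℂ | c ≤ z.re ∧ z.re ≤ d} :=
          closure_minimal (fun w (hw : c < w.re ∧ w.re < d) => ⟨hw.1.le, hw.2.le⟩)
            ((isClosed_le continuous_const Complex.continuous_re).inter
              (isClosed_le Complex.continuous_re continuous_const))
        exact this hz.1
      by_contra h2
      push Not at h2
      apply hz.2
      rw [hopen.interior_eq]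
      exact ⟨lt_of_le_of_ne h1.1 (Ne.symm h2.1), lt_of_le_of_ne h1.2 h2.2⟩
    have hz2 : c ≤ z.re ∧ z.re ≤ d := by
      rcases hz1 with h | h <;> rw [h] <;> constructor <;> linarith
    have hza : z ≠ ((a : ℝ) : ℂ) := by
      rintro rfl
      rw [Complex.ofReal_re] at hz1
      rcases hz1 with h | h <;> linarith
    have hc := sin_vv_ne (hP z hz2.1 hz2.2).ne'
    have hs := sin_vv_ne' hb0 (hQ z hz2.1 hz2.2) hza
    have hG : Real.log ‖sin (vv b p z)‖ - Real.log ‖sin (vv b a z)‖ = 0 := by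
      have h1 := sq_norm_sin (vv b p z)
      have h2 := sq_norm_sin (vv b a z)
      rw [vv_re, vv_im] at h1 h2
      have h3 : Real.sin (b * (z.re - p)) ^ 2 = Real.sin (b * (z.re - a)) ^ 2 := by
        rcases hz1 with h | h
        · rw [h, show b * (c - p) = -(b * (c - a)) by rw [hp]; ring, Real.sin_neg]
          ring
        · rw [h, show b * (d - p) = Real.pi - b * (d - a) by
            rw [hp]
            linear_combination 2 * hbd, Real.sin_pi_sub]
      have h4 : ‖sin (vv b p z)‖ = ‖sin (vv b a z)‖ := by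
        rw [← sq_eq_sq₀ (norm_nonneg _) (norm_nonneg _), h1, h2, h3]
      rw [h4, sub_self]
    have hcG : ContinuousAt (fun z => Real.log ‖sin (vv b p z)‖ - Real.log ‖sin (vv b a z)‖) z := by
      have hu := (vv_an b p z).continuousAt
      have hu' := (vv_an b a z).continuousAt
      exact ((Complex.continuous_sin.continuousAt.comp hu).norm.log (norm_ne_zero_iff.2 hc)).sub
        ((Complex.continuous_sin.continuousAt.comp hu').norm.log (norm_ne_zero_iff.2 hs))
    have := hcG.tendsto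
    simp only [hG] at this
    exact this.mono_left nhdsWithin_le_nhds
  · have hlim : Tendsto (fun z : ℂ => 1 / (2 * b ^ 2 * (‖z‖ - (|c| + |d|)) ^ 2))
        (cocompact ℂ) (𝓝 0) := by
      have h1 : Tendsto (fun z : ℂ => ‖z‖ - (|c| + |d|)) (cocompact ℂ) atTop :=
        tendsto_atTop_add_const_right _ _ (tendsto_norm_cocompact_atTop (E := ℂ))
      have h2 : Tendsto (fun z : ℂ => 2 * b ^ 2 * (‖z‖ - (|c| + |d|)) ^ 2) (cocompact ℂ) atTop :=
        ((tendsto_pow_atTop two_ne_zero).comp h1).const_mul_atTop (by positivity)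
      exact h2.const_div_atTop _
    have hev : ∀ᶠ z in cocompact ℂ ⊓ 𝓟 {z : ℂ | c < z.re ∧ z.re < d},
        -(1 / (2 * b ^ 2 * (‖z‖ - (|c| + |d|)) ^ 2)) ≤
          Real.log ‖sin (vv b p z)‖ - Real.log ‖sin (vv b a z)‖ ∧
        Real.log ‖sin (vv b p z)‖ - Real.log ‖sin (vv b a z)‖ ≤
          1 / (2 * b ^ 2 * (‖z‖ - (|c| + |d|)) ^ 2) := by
      have h1 : ∀ᶠ z in cocompact ℂ, |c| + |d| < ‖z‖ :=
        (tendsto_norm_cocompact_atTop (E := ℂ)).eventually_gt_atTop _
      rw [eventually_inf_principal]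
      filter_upwards [h1] with z hz hzS
      have hzS' : c < z.re ∧ z.re < d := hzS
      have h2 : |z.re| ≤ |c| + |d| := by
        rw [abs_le]
        have k1 := neg_abs_le c
        have k2 := le_abs_self d
        have k3 := abs_nonneg c
        have k4 := abs_nonneg d
        constructor <;> linarith [hzS'.1, hzS'.2]
      have h3 := Complex.norm_le_abs_re_add_abs_im z
      have h4 : 0 < ‖z‖ - (|c| + |d|) := by linarith
      have h5 : ‖z‖ - (|c| + |d|) ≤ |z.im| := by linarith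
      have h6 : z.im ≠ 0 := by
        intro h0
        rw [h0, abs_zero] at h5
        linarith
      have hza : z ≠ ((a : ℝ) : ℂ) := by
        rintro rfl
        exact h6 (Complex.ofReal_im a)
      have hc := sin_vv_ne (hP z hzS'.1.le hzS'.2.le).ne'
      have hs := sin_vv_ne' hb0 (hQ z hzS'.1.le hzS'.2.le) hza
      have h9 : (‖z‖ - (|c| + |d|)) ^ 2 ≤ z.im ^ 2 := by
        rw [← sq_abs z.im]
        exact pow_le_pow_left₀ h4.le h5 2
      have h10 : 1 / (2 * b ^ 2 * z.im ^ 2) ≤ 1 / (2 * b ^ 2 * (‖z‖ - (|c| + |d|)) ^ 2) := by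
        apply one_div_le_one_div_of_le (by positivity)
        gcongr
      have h11 := diff_bound hb0 h6 hc hs
      have h12 := diff_bound hb0 h6 hs hc
      constructor <;> linarith
    have hlim' : Tendsto (fun z : ℂ => -(1 / (2 * b ^ 2 * (‖z‖ - (|c| + |d|)) ^ 2)))
        (cocompact ℂ) (𝓝 0) := by
      have := hlim.neg
      rwa [neg_zero] at this
    exact tendsto_of_tendsto_of_tendsto_of_le_of_le' (hlim'.mono_left inf_le_left)
      (hlim.mono_left inf_le_left) (hev.mono fun z h => h.1) (hev.mono fun z h => h.2)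

end Pool.Agent.H89.R18
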