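import Pool.Agent.H89.R18.Wedge
import Pool.Agent.H86.IR.HPL

/-!
# Tilted strips and half-planes
-/

set_option autoImplicit false

open Complex Topology Filter InnerProductSpace
open scoped OnePoint

namespace Pool.Agent.H89.R18

open Pool.Agent.H86.IR Pool.Agent.H21.IR

theorem contf (m : ℝ) : Continuous fun z : ℂ => z.re - m * z.im := by fun_prop

theorem tilt (hMKG : T_MKG) (hMH : T_MH) {a c d : ℝ} (m : ℝ) (hca : c < a) (had : a < d) :
    HasIR (fin {z : ℂ | c < z.re - m * z.im ∧ z.re - m * z.im < d}) ((a : ℝ) : ℂ)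
      (2 * (d - c) / Real.pi * Real.sin (Real.pi * (a - c) / (d - c)) / ‖(1 : ℂ) + m * I‖) := by
  set κ : ℂ := 1 + m * I with hκ
  have hκ0 : κ ≠ 0 := by
    intro h
    have := congrArg Complex.re h
    simp [hκ] at this
  set u : ℂ → ℂ := fun z => κ * (z - ((a : ℝ) : ℂ)) + ((a : ℝ) : ℂ) with hu
  have hure : ∀ z, (u z).re = z.re - m * z.im := by
    intro z
    simp [hu, hκ]
    ring
  have huc : Continuous u := by
    rw [hu]
    fun_prop
  have hder : HasDerivAt u κ ((a : ℝ) : ℂ) := by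
    have d1 := (((hasDerivAt_id ((a : ℝ) : ℂ)).sub_const ((a : ℝ) : ℂ)).const_mul κ).add_const
      ((a : ℝ) : ℂ)
    rw [mul_one] at d1
    exact d1
  have hcoc : Tendsto u (cocompact ℂ) (cocompact ℂ) := by
    rw [← Metric.cobounded_eq_cocompact, ← tendsto_norm_atTop_iff_cobounded,
      Metric.cobounded_eq_cocompact]
    have l0 : Tendsto (fun w : ℂ => ‖w‖ - ‖((a : ℝ) : ℂ)‖) (cocompact ℂ) atTop :=
      tendsto_atTop_add_const_right _ _ (tendsto_norm_cocompact_atTop (E := ℂ))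
    have l1 : Tendsto (fun w : ℂ => ‖κ‖ * (‖w‖ - ‖((a : ℝ) : ℂ)‖) - ‖((a : ℝ) : ℂ)‖) (cocompact ℂ) atTop :=
      tendsto_atTop_add_const_right _ _ (l0.const_mul_atTop (norm_pos_iff.2 hκ0))
    refine tendsto_atTop_mono (fun w => ?_) l1
    have k1 : ‖κ * (w - ((a : ℝ) : ℂ))‖ - ‖-((a : ℝ) : ℂ)‖ ≤ ‖κ * (w - ((a : ℝ) : ℂ)) - -((a : ℝ) : ℂ)‖ :=
      norm_sub_norm_le _ _
    rw [sub_neg_eq_add, norm_neg, norm_mul] at k1
    have k2 : ‖κ‖ * (‖w‖ - ‖((a : ℝ) : ℂ)‖) ≤ ‖κ‖ * ‖w - ((a : ℝ) : ℂ)‖ :=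
      mul_le_mul_of_nonneg_left (norm_sub_norm_le _ _) (norm_nonneg _)
    have k3 : ‖κ‖ * ‖w - ((a : ℝ) : ℂ)‖ - ‖((a : ℝ) : ℂ)‖ ≤ ‖u w‖ := k1
    linarith
  have hopen : IsOpen {z : ℂ | c < z.re - m * z.im ∧ z.re - m * z.im < d} :=
    (isOpen_lt continuous_const (contf m)).inter (isOpen_lt (contf m) continuous_const)
  have hres := pull hMKG hMH (S := {z : ℂ | c < z.re - m * z.im ∧ z.re - m * z.im < d})
    (a := ((a : ℝ) : ℂ)) (u := u) (c := c) (A := a) (d := d) hca had hopen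
    (by simp [hca, had]) (by simp [hu]) ?_ ?_ ?_ ?_ ?_ ?_
  · rw [hder.deriv] at hres
    exact hres
  · intro z _
    rw [hu]
    fun_prop
  · intro z hz
    show c < (u z).re ∧ (u z).re < d
    rw [hure]
    exact hz
  · intro z _ hza h0
    apply hza
    have h1 : κ * (z - ((a : ℝ) : ℂ)) = 0 := by
      have : κ * (z - ((a : ℝ) : ℂ)) + ((a : ℝ) : ℂ) = ((a : ℝ) : ℂ) := h0
      simpa using this
    rcases mul_eq_zero.1 h1 with h | h
    · exact absurd h hκ0
    · exact sub_eq_zero.1 h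
  · rw [hder.deriv]
    exact hκ0
  · intro z hz
    left
    refine ⟨u z, ?_, huc.continuousAt.tendsto.mono_left nhdsWithin_le_nhds⟩
    rw [frontier, Set.mem_sdiff, hopen.interior_eq] at hz
    have h1 : c ≤ z.re - m * z.im ∧ z.re - m * z.im ≤ d := by
      have : closure {z : ℂ | c < z.re - m * z.im ∧ z.re - m * z.im < d} ⊆
          {z : ℂ | c ≤ z.re - m * z.im ∧ z.re - m * z.im ≤ d} :=
        closure_minimal (fun w (hw : c < w.re - m * w.im ∧ w.re - m * w.im < d) =>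
          ⟨hw.1.le, hw.2.le⟩)
          ((isClosed_le continuous_const (contf m)).inter (isClosed_le (contf m) continuous_const))
      exact this hz.1
    rw [hure]
    by_contra h2
    push Not at h2
    exact hz.2 ⟨lt_of_le_of_ne h1.1 (Ne.symm h2.1), lt_of_le_of_ne h1.2 h2.2⟩
  · exact hcoc.mono_left inf_le_left

theorem refl_ir (hMKG : T_MKG) (S : Set ℂ) (a b : ℂ) (hab : a ≠ b) (hS : IsOpen S)
    (haS : a ∈ S) (hb : b ∉ S) (hfr : ∀ z ∈ frontier S, ‖z - b‖ = ‖z - a‖) :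
    HasIR (fin S) a ‖a - b‖ := by
  have h0 : 0 < ‖a - b‖ := norm_pos_iff.2 (sub_ne_zero.2 hab)
  refine hMKG S a (fun z => Real.log ‖z - b‖ - Real.log ‖z - a‖)
    (fun z => Real.log ‖z - b‖) ‖a - b‖ hS haS h0 ?_ ?_ rfl ?_ ?_ ?_
  · intro z hz hza
    exact (harmonicAt_log_norm_sub _ z (fun h => hb (by rw [← h]; exact hz))).sub
      (harmonicAt_log_norm_sub _ z hza)
  · exact harmonicAt_log_norm_sub _ _ hab
  · exact Eventually.of_forall fun z => rfl
  · intro z hz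
    have e0 := hfr z hz
    have hne : z - a ≠ 0 := by
      intro h
      rw [h, norm_zero, norm_eq_zero, sub_eq_zero] at e0
      rw [sub_eq_zero] at h
      exact hab (by rw [← h, e0])
    have hne' : z - b ≠ 0 := by
      rw [← norm_ne_zero_iff, e0, norm_ne_zero_iff]
      exact hne
    have hcont : ContinuousAt (fun z : ℂ => Real.log ‖z - b‖ - Real.log ‖z - a‖) z :=
      ((by fun_prop : ContinuousAt (fun z : ℂ => ‖z - b‖) z).log
        (norm_ne_zero_iff.2 hne')).sub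
        ((by fun_prop : ContinuousAt (fun z : ℂ => ‖z - a‖) z).log (norm_ne_zero_iff.2 hne))
    have := hcont.tendsto
    simp only [e0, sub_self] at this
    exact this.mono_left nhdsWithin_le_nhds
  · exact (hpl_tendsto _ _).mono_left inf_le_left

/-- the reflected point -/
noncomputable def rp (a d m : ℝ) : ℂ := ⟨a + 2 * (d - a) / (1 + m ^ 2), -(2 * (d - a) / (1 + m ^ 2) * m)⟩

theorem rp_norm (a d m : ℝ) : ‖((a : ℝ) : ℂ) - rp a d m‖ ≤ 2 * |d - a| := by
  have hm : (1 : ℝ) ≤ 1 + m ^ 2 := by nlinarith [sq_nonneg m]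
  have hm0 : (0 : ℝ) < 1 + m ^ 2 := by linarith
  rw [← Real.sqrt_sq (norm_nonneg _), ← Real.sqrt_sq (by positivity : 0 ≤ 2 * |d - a|)]
  apply Real.sqrt_le_sqrt
  rw [Complex.sq_norm, Complex.normSq_apply]
  simp only [rp, Complex.sub_re, Complex.sub_im, Complex.ofReal_re, Complex.ofReal_im]
  have e1 : (a - (a + 2 * (d - a) / (1 + m ^ 2))) * (a - (a + 2 * (d - a) / (1 + m ^ 2))) +
      (0 - -(2 * (d - a) / (1 + m ^ 2) * m)) * (0 - -(2 * (d - a) / (1 + m ^ 2) * m)) =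
      4 * (d - a) ^ 2 / (1 + m ^ 2) := by
    field_simp
    ring
  rw [e1, mul_pow, sq_abs, div_le_iff₀ hm0]
  nlinarith [sq_nonneg (d - a), mul_nonneg (sq_nonneg (d - a)) (sq_nonneg m)]

theorem rp_val (a d m : ℝ) : (rp a d m).re - m * (rp a d m).im = 2 * d - a := by
  have hm0 : (1 + m ^ 2 : ℝ) ≠ 0 := by positivity
  simp only [rp]
  field_simp
  ring

theorem rp_eq {a d m : ℝ} {z : ℂ} (hz : z.re - m * z.im = d) :
    ‖z - rp a d m‖ = ‖z - ((a : ℝ) : ℂ)‖ := by
  have hm0 : (1 + m ^ 2 : ℝ) ≠ 0 := by positivity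
  rw [← Real.sqrt_sq (norm_nonneg (z - rp a d m)),
    ← Real.sqrt_sq (norm_nonneg (z - ((a : ℝ) : ℂ))),
    Complex.sq_norm, Complex.sq_norm, Complex.normSq_apply, Complex.normSq_apply]
  congr 1
  simp only [rp, Complex.sub_re, Complex.sub_im, Complex.ofReal_re, Complex.ofReal_im]
  have : z.re = d + m * z.im := by linarith
  rw [this]
  field_simp
  ring

theorem half_tilt (hMKG : T_MKG) {a d : ℝ} (m : ℝ) (had : a < d) :
    ∃ R, R ≤ 2 * (d - a) ∧ HasIR (fin {z : ℂ | z.re - m * z.im < d}) ((a : ℝ) : ℂ) R := by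
  refine ⟨‖((a : ℝ) : ℂ) - rp a d m‖, ?_, refl_ir hMKG _ _ _ ?_
    (isOpen_lt (contf m) continuous_const) (by simpa using had) ?_ ?_⟩
  · have := rp_norm a d m
    rwa [abs_of_pos (by linarith)] at this
  · intro h
    have h1 := rp_val a d m
    rw [← h, Complex.ofReal_re, Complex.ofReal_im] at h1
    linarith
  · show ¬ (rp a d m).re - m * (rp a d m).im < d
    rw [rp_val]
    linarith
  · intro z hz
    exact rp_eq (frontier_lt_subset_eq (contf m) continuous_const hz)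

theorem half_tilt' (hMKG : T_MKG) {a d : ℝ} (m : ℝ) (had : d < a) :
    ∃ R, R ≤ 2 * (a - d) ∧ HasIR (fin {z : ℂ | d < z.re - m * z.im}) ((a : ℝ) : ℂ) R := by
  refine ⟨‖((a : ℝ) : ℂ) - rp a d m‖, ?_, refl_ir hMKG _ _ _ ?_
    (isOpen_lt continuous_const (contf m)) (by simpa using had) ?_ ?_⟩
  · have := rp_norm a d m
    rwa [abs_of_neg (by linarith), neg_sub] at this
  · intro h
    have h1 := rp_val a d m
    rw [← h, Complex.ofReal_re, Complex.ofReal_im] at h1
    linarith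
  · show ¬ d < (rp a d m).re - m * (rp a d m).im
    rw [rp_val]
    linarith
  · intro z hz
    exact rp_eq (frontier_lt_subset_eq continuous_const (contf m) hz).symm

end Pool.Agent.H89.R18
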