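import Pool.Agent.H89.R18.Gt

/-!
# The inner radius of a wedge, of a tilted strip and of a half-plane
-/

set_option autoImplicit false

open Complex Topology Filter InnerProductSpace
open scoped OnePoint

namespace Pool.Agent.H89.R18

open Pool.Agent.H86.IR Pool.Agent.H21.IR

/-- the wedge with the apex `p` between the directions `- t1` and `t2` from `a` -/
def wd (p a : ℂ) (t1 t2 : ℝ) : Set ℂ :=
  {z | z ≠ p ∧ -t1 < arg ((z - p) / (a - p)) ∧ arg ((z - p) / (a - p)) < t2}

/-- the logarithm -/
noncomputable def ul (p a : ℂ) (z : ℂ) : ℂ := -I * log ((z - p) / (a - p))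

theorem ul_re (p a z : ℂ) : (ul p a z).re = arg ((z - p) / (a - p)) := by
  unfold ul
  simp [Complex.log_im]

theorem ul_im (p a z : ℂ) : (ul p a z).im = -Real.log ‖(z - p) / (a - p)‖ := by
  unfold ul
  simp [Complex.log_re]

theorem tendsto_cocompact_of_im {F : Filter ℂ} {u : ℂ → ℂ}
    (h : Tendsto (fun z => |(u z).im|) F atTop) : Tendsto u F (cocompact ℂ) := by
  rw [← Metric.cobounded_eq_cocompact, ← tendsto_norm_atTop_iff_cobounded]
  exact tendsto_atTop_mono (fun z => Complex.abs_im_le_norm (u z)) h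

theorem wedge (hMKG : T_MKG) (hMH : T_MH) {p a : ℂ} (hpa : a ≠ p) {t1 t2 : ℝ} (h1 : 0 < t1)
    (h2 : 0 < t2) (h3 : t1 + t2 < Real.pi) :
    HasIR (fin (wd p a t1 t2)) a
      (2 * (t1 + t2) / Real.pi * Real.sin (Real.pi * t1 / (t1 + t2)) * ‖a - p‖) := by
  have hpi := Real.pi_pos
  have hap : a - p ≠ 0 := sub_ne_zero.2 hpa
  have hZ0 : ∀ z, z ≠ p → (z - p) / (a - p) ≠ 0 := fun z hz => div_ne_zero (sub_ne_zero.2 hz) hap
  have hZc : ∀ z, ContinuousAt (fun z : ℂ => (z - p) / (a - p)) z := by
    intro z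
    fun_prop
  have hslit : ∀ z ∈ wd p a t1 t2, (z - p) / (a - p) ∈ slitPlane := by
    intro z hz
    rw [mem_slitPlane_iff_arg]
    exact ⟨fun h => by linarith [hz.2.2], hZ0 z hz.1⟩
  have hopen : IsOpen (wd p a t1 t2) := by
    rw [isOpen_iff_mem_nhds]
    intro z hz
    have hc : ContinuousAt (fun z : ℂ => arg ((z - p) / (a - p))) z :=
      ContinuousAt.comp (g := arg) (f := fun z : ℂ => (z - p) / (a - p)) (x := z)
        (continuousAt_arg (hslit z hz)) (hZc z)
    have e1 : ∀ᶠ w in 𝓝 z, w ≠ p := eventually_ne_nhds hz.1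
    have e2 : ∀ᶠ w in 𝓝 z, -t1 < arg ((w - p) / (a - p)) := hc.eventually_const_lt hz.2.1
    have e3 : ∀ᶠ w in 𝓝 z, arg ((w - p) / (a - p)) < t2 := hc.eventually_lt_const hz.2.2
    filter_upwards [e1, e2, e3] with w f1 f2 f3
    exact ⟨f1, f2, f3⟩
  have hslc : ∀ z ∈ closure (wd p a t1 t2), z ≠ p → (z - p) / (a - p) ∈ slitPlane := by
    intro z hz hzp
    have hZ := hZ0 z hzp
    have hm : max t1 t2 < Real.pi := max_lt (by linarith) (by linarith)
    have hclos : z ∈ {z : ℂ | Real.cos (max t1 t2) * ‖(z - p) / (a - p)‖ ≤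
        ((z - p) / (a - p)).re} := by
      refine closure_minimal ?_ (isClosed_le ?_ ?_) hz
      · intro w hw
        show Real.cos (max t1 t2) * ‖(w - p) / (a - p)‖ ≤ ((w - p) / (a - p)).re
        rw [← Complex.norm_mul_cos_arg ((w - p) / (a - p)), mul_comm]
        apply mul_le_mul_of_nonneg_left _ (norm_nonneg _)
        rw [← Real.cos_abs (arg ((w - p) / (a - p)))]
        apply Real.cos_le_cos_of_nonneg_of_le_pi (abs_nonneg _) hm.le
        rw [abs_le]
        have k1 := le_max_left t1 t2
        have k2 := le_max_right t1 t2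
        constructor <;> linarith [hw.2.1, hw.2.2]
      · exact continuous_const.mul (continuous_iff_continuousAt.2 hZc).norm
      · exact Complex.continuous_re.comp (continuous_iff_continuousAt.2 hZc)
    rw [mem_slitPlane_iff_arg]
    refine ⟨fun h => ?_, hZ⟩
    have k1 : Real.cos (max t1 t2) * ‖(z - p) / (a - p)‖ ≤ ((z - p) / (a - p)).re := hclos
    rw [← Complex.norm_mul_cos_arg ((z - p) / (a - p)), h, Real.cos_pi] at k1
    have k2 : 0 < ‖(z - p) / (a - p)‖ := norm_pos_iff.2 hZ
    have k3 : Real.cos (max t1 t2) ≤ -1 := by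
      by_contra hcon
      push Not at hcon
      nlinarith
    have k4 : Real.cos Real.pi < Real.cos (max t1 t2) :=
      Real.cos_lt_cos_of_nonneg_of_le_pi (h1.le.trans (le_max_left _ _)) le_rfl hm
    rw [Real.cos_pi] at k4
    linarith
  have ha : a ∈ wd p a t1 t2 := by
    refine ⟨hpa, ?_, ?_⟩ <;> rw [div_self hap, arg_one] <;> linarith
  have hua : ul p a a = ((0 : ℝ) : ℂ) := by
    unfold ul
    rw [div_self hap, Complex.log_one, mul_zero, Complex.ofReal_zero]
  have hder : HasDerivAt (ul p a) (-I * (1 / (a - p))) a := by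
    have d1 : HasDerivAt (fun z : ℂ => (z - p) / (a - p)) (1 / (a - p)) a :=
      ((hasDerivAt_id a).sub_const p).div_const (a - p)
    have d2 := d1.clog (hslit a ha)
    rw [div_self hap, div_one] at d2
    exact d2.const_mul (-I)
  have hdn : ‖deriv (ul p a) a‖ = 1 / ‖a - p‖ := by
    rw [hder.deriv, norm_mul, norm_neg, norm_I, one_mul, norm_div, norm_one]
  have hres := pull hMKG hMH (S := wd p a t1 t2) (a := a) (u := ul p a) (c := -t1) (A := 0) (d := t2)
    (by linarith) h2 hopen ha hua ?_ ?_ ?_ ?_ ?_ ?_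
  · rw [hdn] at hres
    have e : 2 * (t2 - -t1) / Real.pi * Real.sin (Real.pi * (0 - -t1) / (t2 - -t1)) /
        (1 / ‖a - p‖) = 2 * (t1 + t2) / Real.pi * Real.sin (Real.pi * t1 / (t1 + t2)) * ‖a - p‖ := by
      rw [div_div_eq_mul_div, div_one]
      congr 3
      · ring
      · congr 1
        · ring
        · ring
    rw [← e]
    exact hres
  · intro z hz
    unfold ul
    have d1 : AnalyticAt ℂ (fun z : ℂ => (z - p) / (a - p)) z := by fun_prop (disch := exact hap)
    exact analyticAt_const.mul (d1.clog (hslit z hz))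
  · intro z hz
    show -t1 < (ul p a z).re ∧ (ul p a z).re < t2
    rw [ul_re]
    exact hz.2
  · intro z hz hza h0
    apply hza
    unfold ul at h0
    rw [Complex.ofReal_zero] at h0
    have h4 : log ((z - p) / (a - p)) = 0 := by
      rcases mul_eq_zero.1 h0 with h | h
      · exact absurd h (neg_ne_zero.2 I_ne_zero)
      · exact h
    have h5 := Complex.exp_log (hZ0 z hz.1)
    rw [h4, Complex.exp_zero] at h5
    have h6 : z - p = a - p := by
      rw [eq_div_iff hap, one_mul] at h5
      exact h5.symm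
    exact sub_left_inj.1 h6
  · rw [hder.deriv]
    exact mul_ne_zero (neg_ne_zero.2 I_ne_zero) (one_div_ne_zero hap)
  · intro z hz
    rw [frontier, Set.mem_sdiff, hopen.interior_eq] at hz
    by_cases hzp : z = p
    · right
      subst hzp
      apply tendsto_cocompact_of_im
      have l1 : Tendsto (fun w : ℂ => ‖(w - z) / (a - z)‖) (𝓝[wd z a t1 t2] z) (𝓝[>] 0) := by
        rw [tendsto_nhdsWithin_iff]
        constructor
        · have : Tendsto (fun w : ℂ => ‖(w - z) / (a - z)‖) (𝓝 z) (𝓝 ‖(z - z) / (a - z)‖) :=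
            (hZc z).norm.tendsto
          rw [sub_self, zero_div, norm_zero] at this
          exact this.mono_left nhdsWithin_le_nhds
        · filter_upwards [self_mem_nhdsWithin] with w hw
          exact norm_pos_iff.2 (hZ0 w hw.1)
      have l2 := Real.tendsto_log_nhdsGT_zero.comp l1
      have l3 := tendsto_neg_atBot_atTop.comp l2
      refine tendsto_atTop_mono (fun w => ?_) l3
      rw [ul_im]
      exact le_abs_self _
    · left
      refine ⟨ul p a z, ?_, ?_⟩
      · -- the closure condition
        have hsl := hslc z hz.1 hzp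
        have hc : ContinuousAt (fun z : ℂ => arg ((z - p) / (a - p))) z :=
          ContinuousAt.comp (g := arg) (f := fun z : ℂ => (z - p) / (a - p)) (x := z)
            (continuousAt_arg hsl) (hZc z)
        have k1 : -t1 ≤ arg ((z - p) / (a - p)) := by
          by_contra hcon
          push Not at hcon
          obtain ⟨w, hw1, hw2⟩ := mem_closure_iff_nhds.1 hz.1 _ (hc.eventually_lt_const hcon)
          have hw3 : arg ((w - p) / (a - p)) < -t1 := hw1
          linarith [hw2.2.1]
        have k2 : arg ((z - p) / (a - p)) ≤ t2 := by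
          by_contra hcon
          push Not at hcon
          obtain ⟨w, hw1, hw2⟩ := mem_closure_iff_nhds.1 hz.1 _ (hc.eventually_const_lt hcon)
          have hw3 : t2 < arg ((w - p) / (a - p)) := hw1
          linarith [hw2.2.2]
        rw [ul_re]
        by_contra hcon
        push Not at hcon
        exact hz.2 ⟨hzp, lt_of_le_of_ne k1 (Ne.symm hcon.1), lt_of_le_of_ne k2 hcon.2⟩
      · have hsl := hslc z hz.1 hzp
        have d1 : AnalyticAt ℂ (fun z : ℂ => (z - p) / (a - p)) z := by
          fun_prop (disch := exact hap)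
        have d2 : AnalyticAt ℂ (ul p a) z := analyticAt_const.mul (d1.clog hsl)
        exact d2.continuousAt.tendsto.mono_left nhdsWithin_le_nhds
  · apply tendsto_cocompact_of_im
    have l1 : Tendsto (fun w : ℂ => ‖(w - p) / (a - p)‖) (cocompact ℂ ⊓ 𝓟 (wd p a t1 t2)) atTop := by
      have l0 : Tendsto (fun w : ℂ => ‖w‖ - ‖p‖) (cocompact ℂ) atTop :=
        tendsto_atTop_add_const_right _ _ (tendsto_norm_cocompact_atTop (E := ℂ))
      have l2 : Tendsto (fun w : ℂ => (‖w‖ - ‖p‖) / ‖a - p‖) (cocompact ℂ) atTop :=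
        l0.atTop_div_const (norm_pos_iff.2 hap)
      refine tendsto_atTop_mono (fun w => ?_) (l2.mono_left inf_le_left)
      rw [norm_div]
      apply div_le_div_of_nonneg_right _ (norm_nonneg _)
      exact norm_sub_norm_le w p
    have l2 := Real.tendsto_log_atTop.comp l1
    refine tendsto_atTop_mono (fun w => ?_) l2
    rw [ul_im, abs_neg]
    exact le_abs_self _

end Pool.Agent.H89.R18
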